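import Pool.Agent.Helper9.SU.St

/-!
# Project SU, module ALL
-/

set_option autoImplicit false

namespace Pool.Agent.Helper9.SU

open Finset ArithmeticFunction

/-- one residue class in an interval -/
theorem cntAP_ALL (E H M a : ℕ) (hM : 1 ≤ M) :
    |(((Ioc E (E + H)).filter (fun e => e % M = a % M)).card : ℝ) - (H : ℝ) / M| ≤ 1 := by
  have h1 := Nat.Ioc_filter_modEq_card E (E + H) (r := M) (by omega) a
  have h2 : (Ioc E (E + H)).filter (fun e => e % M = a % M) =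
      (Ioc E (E + H)).filter (fun e => e ≡ a [MOD M]) := rfl
  rw [h2]
  set c : ℤ := ((((Ioc E (E + H)).filter (fun e => e ≡ a [MOD M])).card : ℕ) : ℤ) with hc
  have hM0 : (0 : ℚ) < M := by exact_mod_cast hM
  set u : ℚ := (((E + H : ℕ) : ℚ) - a) / M with hu
  set v : ℚ := ((E : ℚ) - a) / M with hv
  have huv : u = v + (H : ℚ) / M := by
    rw [hu, hv]; push_cast; ring
  have hHM : (0 : ℚ) ≤ (H : ℚ) / M := by positivity
  have h3 : ⌊v⌋ ≤ ⌊u⌋ := Int.floor_le_floor (by rw [huv]; linarith)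
  have h4 : c = ⌊u⌋ - ⌊v⌋ := by
    rw [h1]
    exact max_eq_left (by linarith)
  have h5 := Int.floor_le u
  have h6 := Int.lt_floor_add_one u
  have h7 := Int.floor_le v
  have h8 := Int.lt_floor_add_one v
  have h9 : |(c : ℚ) - (H : ℚ) / M| ≤ 1 := by
    rw [h4, abs_le]
    push_cast
    constructor <;> linarith
  have h10 : (((|(c : ℚ) - (H : ℚ) / M| : ℚ)) : ℝ) ≤ ((1 : ℚ) : ℝ) := by exact_mod_cast h9
  rw [hc] at h10
  push_cast at h10
  exact h10

/-- several residue conditions in an interval -/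
theorem cntT_ALL (E H : ℕ) (S : ℕ → Finset ℕ) (T : Finset ℕ) :
    (∀ l ∈ T, l.Prime ∧ ∀ s ∈ S l, s < l) →
    ∀ M a : ℕ, 1 ≤ M → (∀ l ∈ T, Nat.Coprime l M) →
    |(((Ioc E (E + H)).filter (fun e => e % M = a % M ∧ ∀ l ∈ T, e % l ∈ S l)).card : ℝ) -
      (H : ℝ) / M * ∏ l ∈ T, ((S l).card : ℝ) / l| ≤ ∏ l ∈ T, ((S l).card : ℝ) := by
  induction T using Finset.induction_on with
  | empty =>
    intro _ M a hM _
    simpa using cntAP_ALL E H M a hM
  | insert l T hl ih =>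
    intro hT M a hM hco
    have hlp := (hT l (mem_insert_self l T)).1
    have hls := (hT l (mem_insert_self l T)).2
    have hT' : ∀ l' ∈ T, l'.Prime ∧ ∀ s ∈ S l', s < l' := fun l' h => hT l' (mem_insert_of_mem h)
    have hcl : Nat.Coprime M l := (hco l (mem_insert_self l T)).symm
    have hcoT : ∀ l' ∈ T, Nat.Coprime l' (M * l) := by
      intro l' h
      refine Nat.Coprime.mul_right (hco l' (mem_insert_of_mem h)) ?_
      rw [Nat.coprime_primes (hT' l' h).1 hlp]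
      rintro rfl
      exact hl h
    have hdec : ((Ioc E (E + H)).filter (fun e => e % M = a % M ∧ ∀ l' ∈ insert l T,
        e % l' ∈ S l')).card = ∑ b ∈ S l, ((Ioc E (E + H)).filter (fun e =>
          e % (M * l) = (Nat.chineseRemainder hcl a b : ℕ) % (M * l) ∧
            ∀ l' ∈ T, e % l' ∈ S l')).card := by
      rw [← Finset.card_biUnion]
      · congr 1
        ext e
        simp only [mem_filter, mem_biUnion, mem_insert, forall_eq_or_imp]
        constructor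
        · rintro ⟨he, h1, h2, h3⟩
          refine ⟨e % l, h2, he, ?_, h3⟩
          have hc := (Nat.chineseRemainder hcl a (e % l)).2
          have h4 : e ≡ (Nat.chineseRemainder hcl a (e % l) : ℕ) [MOD M * l] := by
            rw [← Nat.modEq_and_modEq_iff_modEq_mul hcl]
            refine ⟨?_, ?_⟩
            · exact Nat.ModEq.trans h1 hc.1.symm
            · exact Nat.ModEq.trans (Nat.mod_modEq e l).symm hc.2.symm
          exact h4
        · rintro ⟨b, hb, he, h1, h3⟩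
          have hc := (Nat.chineseRemainder hcl a b).2
          have h4 : e ≡ (Nat.chineseRemainder hcl a b : ℕ) [MOD M * l] := h1
          rw [← Nat.modEq_and_modEq_iff_modEq_mul hcl] at h4
          refine ⟨he, Nat.ModEq.trans h4.1 hc.1, ?_, h3⟩
          have h5 : e % l = b % l := Nat.ModEq.trans h4.2 hc.2
          rw [h5, Nat.mod_eq_of_lt (hls b hb)]
          exact hb
      · intro b hb b' hb' hne
        rw [Function.onFun, Finset.disjoint_left]
        intro e he he'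
        rw [mem_filter] at he he'
        have hc := (Nat.chineseRemainder hcl a b).2
        have hc' := (Nat.chineseRemainder hcl a b').2
        have h4 : e ≡ (Nat.chineseRemainder hcl a b : ℕ) [MOD M * l] := he.2.1
        have h4' : e ≡ (Nat.chineseRemainder hcl a b' : ℕ) [MOD M * l] := he'.2.1
        rw [← Nat.modEq_and_modEq_iff_modEq_mul hcl] at h4 h4'
        apply hne
        have h5 : b % l = b' % l :=
          (Nat.ModEq.trans h4.2 hc.2).symm.trans (Nat.ModEq.trans h4'.2 hc'.2)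
        rwa [Nat.mod_eq_of_lt (hls b hb), Nat.mod_eq_of_lt (hls b' hb')] at h5
    rw [hdec, prod_insert hl, prod_insert hl]
    have hM' : 1 ≤ M * l := Nat.mul_pos hM hlp.pos
    have hlpos : (0 : ℝ) < l := by exact_mod_cast hlp.pos
    have hMpos : (0 : ℝ) < M := by exact_mod_cast hM
    have hsum : (H : ℝ) / M * (((S l).card : ℝ) / l * ∏ l' ∈ T, ((S l').card : ℝ) / l') =
        ∑ b ∈ S l, (H : ℝ) / ((M * l : ℕ) : ℝ) * ∏ l' ∈ T, ((S l').card : ℝ) / l' := by
      rw [sum_const, nsmul_eq_mul]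
      push_cast
      field_simp
    rw [hsum]
    push_cast
    rw [← sum_sub_distrib]
    refine (abs_sum_le_sum_abs _ _).trans ?_
    calc _ ≤ ∑ b ∈ S l, ∏ l' ∈ T, ((S l').card : ℝ) := by
          refine sum_le_sum fun b _ => ?_
          have h := ih hT' (M * l) (Nat.chineseRemainder hcl a b : ℕ) hM' hcoT
          push_cast at h
          exact h
      _ = _ := by rw [sum_const, nsmul_eq_mul]


/-- the product of the two numbers -/
def G_ALL (n : ℕ) (y : ℤ) : ℤ := ((n : ℤ) - y + n * y) * (((n : ℤ) - y) ^ 2 + n * y ^ 2)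

theorem G_modEq_ALL (n : ℕ) (l : ℤ) {y z : ℤ} (h : y ≡ z [ZMOD l]) :
    G_ALL n y ≡ G_ALL n z [ZMOD l] := by
  unfold G_ALL
  exact Int.ModEq.mul
    (Int.ModEq.add (Int.ModEq.sub (Int.ModEq.refl _) h) (Int.ModEq.mul_left _ h))
    (Int.ModEq.add (Int.ModEq.pow _ (Int.ModEq.sub (Int.ModEq.refl _) h))
      (Int.ModEq.mul_left _ (Int.ModEq.pow _ h)))

theorem dvd_of_modEq_ALL {l a b : ℤ} (h : a ≡ b [ZMOD l]) (hd : l ∣ a) : l ∣ b := by
  have h1 := h.dvd
  have h2 := dvd_add h1 hd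
  simpa using h2

/-- the bad residue classes -/
def S_ALL (n l : ℕ) : Finset ℕ := (range l).filter (fun r : ℕ => (l : ℤ) ∣ G_ALL n r)

theorem memS_ALL (n l y : ℕ) (hl : 0 < l) : y % l ∈ S_ALL n l ↔ (l : ℤ) ∣ G_ALL n y := by
  have h : ((y % l : ℕ) : ℤ) ≡ (y : ℤ) [ZMOD (l : ℤ)] := by
    push_cast
    exact Int.mod_modEq _ _
  unfold S_ALL
  rw [mem_filter, mem_range]
  constructor
  · rintro ⟨_, h1⟩
    exact dvd_of_modEq_ALL (G_modEq_ALL n _ h) h1
  · intro h1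
    exact ⟨Nat.mod_lt _ hl, dvd_of_modEq_ALL (G_modEq_ALL n _ h.symm) h1⟩

open Polynomial in
theorem cardS_ALL (n l : ℕ) (hl : l.Prime) : (S_ALL n l).card ≤ 3 := by
  classical
  have : Fact l.Prime := ⟨hl⟩
  set P : (ZMod l)[X] := (C (n : ZMod l) + C ((n : ZMod l) - 1) * X) *
    (C ((n : ZMod l) + 1) * X ^ 2 - C (2 * (n : ZMod l)) * X + C ((n : ZMod l) ^ 2)) with hP
  have hP1 : C (n : ZMod l) + C ((n : ZMod l) - 1) * X ≠ 0 := by
    intro h
    have h0 := congrArg (fun Q => Polynomial.coeff Q 0) h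
    have h1 := congrArg (fun Q => Polynomial.coeff Q 1) h
    simp at h0 h1
    rw [h0] at h1
    simp at h1
  have hP2 : C ((n : ZMod l) + 1) * X ^ 2 - C (2 * (n : ZMod l)) * X + C ((n : ZMod l) ^ 2) ≠ 0 := by
    intro h
    have h0 := congrArg (fun Q => Polynomial.eval 0 Q) h
    have h1 := congrArg (fun Q => Polynomial.eval 1 Q) h
    simp at h0 h1
    rw [h0] at h1
    simp at h1
  have hP0 : P ≠ 0 := mul_ne_zero hP1 hP2
  have hdeg : P.natDegree ≤ 3 := by
    rw [hP]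
    compute_degree
  have h1 : (S_ALL n l).card ≤ P.roots.toFinset.card := by
    refine card_le_card_of_injOn (fun r => (r : ZMod l)) ?_ ?_
    · intro r hr
      have hr' : r ∈ S_ALL n l := hr
      unfold S_ALL at hr'
      rw [mem_filter] at hr'
      have h2 : ((G_ALL n r : ℤ) : ZMod l) = 0 := by
        rw [ZMod.intCast_zmod_eq_zero_iff_dvd]
        exact hr'.2
      rw [mem_coe, Multiset.mem_toFinset, mem_roots hP0, IsRoot.def, hP]
      unfold G_ALL at h2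
      push_cast at h2
      simp only [eval_mul, eval_add, eval_sub, eval_C, eval_X, eval_pow]
      rw [← h2]
      ring
    · intro r hr s hs hrs
      have hr' : r ∈ S_ALL n l := hr
      have hs' : s ∈ S_ALL n l := hs
      unfold S_ALL at hr' hs'
      rw [mem_filter, mem_range] at hr' hs'
      have h3 : (r : ZMod l) = (s : ZMod l) := hrs
      rw [ZMod.natCast_eq_natCast_iff'] at h3
      rwa [Nat.mod_eq_of_lt hr'.1, Nat.mod_eq_of_lt hs'.1] at h3
  calc (S_ALL n l).card ≤ P.roots.toFinset.card := h1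
    _ ≤ Multiset.card P.roots := Multiset.toFinset_card_le _
    _ ≤ P.natDegree := P.card_roots'
    _ ≤ 3 := hdeg

/-- a class modulo `30` without bad primes `2, 3, 5` -/
theorem loc30_ALL (n : ℕ) : ∃ y₀ : ℕ, ∀ y : ℕ, y % 30 = y₀ % 30 → ¬ (2 : ℤ) ∣ G_ALL n y ∧
    ¬ (3 : ℤ) ∣ G_ALL n y ∧ ¬ (5 : ℤ) ∣ G_ALL n y := by
  have key : ∀ m ∈ range 30, ∃ y ∈ range 30,
      ((m + 29 * y + m * y) * ((m + 29 * y) ^ 2 + m * y ^ 2)) % 2 ≠ 0 ∧
      ((m + 29 * y + m * y) * ((m + 29 * y) ^ 2 + m * y ^ 2)) % 3 ≠ 0 ∧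
      ((m + 29 * y + m * y) * ((m + 29 * y) ^ 2 + m * y ^ 2)) % 5 ≠ 0 := by
    decide
  obtain ⟨y₀, hy₀, h2, h3, h5⟩ := key (n % 30) (mem_range.2 (Nat.mod_lt _ (by norm_num)))
  rw [mem_range] at hy₀
  refine ⟨y₀, fun y hy => ?_⟩
  rw [Nat.mod_eq_of_lt hy₀] at hy
  have hn : (n : ℤ) ≡ ((n % 30 : ℕ) : ℤ) [ZMOD 30] := by
    push_cast
    exact (Int.mod_modEq _ _).symm
  have hyy : (y : ℤ) ≡ (y₀ : ℤ) [ZMOD 30] := by
    rw [← hy]
    push_cast
    exact (Int.mod_modEq _ _).symm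
  have hneg : (n : ℤ) - y ≡ ((n % 30 : ℕ) : ℤ) + 29 * y₀ [ZMOD 30] := by
    have h6 : ((n % 30 : ℕ) : ℤ) + 29 * y₀ = ((n % 30 : ℕ) : ℤ) - y₀ + 30 * y₀ := by ring
    rw [h6]
    have h7 : ((n % 30 : ℕ) : ℤ) - y₀ ≡ ((n % 30 : ℕ) : ℤ) - y₀ + 30 * y₀ [ZMOD 30] := by
      rw [Int.modEq_iff_dvd]
      exact ⟨y₀, by ring⟩
    exact (Int.ModEq.sub hn hyy).trans h7
  have hG : G_ALL n y ≡ ((((n % 30) + 29 * y₀ + (n % 30) * y₀) *
      (((n % 30) + 29 * y₀) ^ 2 + (n % 30) * y₀ ^ 2) : ℕ) : ℤ) [ZMOD 30] := by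
    unfold G_ALL
    push_cast
    push_cast at hneg hn
    exact Int.ModEq.mul (Int.ModEq.add hneg (Int.ModEq.mul hn hyy))
      (Int.ModEq.add (Int.ModEq.pow _ hneg) (Int.ModEq.mul hn (Int.ModEq.pow _ hyy)))
  have main : ∀ l : ℕ, l ∣ 30 → ((((n % 30) + 29 * y₀ + (n % 30) * y₀) *
      (((n % 30) + 29 * y₀) ^ 2 + (n % 30) * y₀ ^ 2))) % l ≠ 0 → ¬ (l : ℤ) ∣ G_ALL n y := by
    intro l hl h8 h9
    have h10 : (l : ℤ) ∣ 30 := by exact_mod_cast hl
    have h11 := dvd_of_modEq_ALL (hG.of_dvd h10) h9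
    rw [Int.natCast_dvd_natCast] at h11
    exact h8 (Nat.mod_eq_zero_of_dvd h11)
  exact ⟨main 2 (by norm_num) h2, main 3 (by norm_num) h3, main 5 (by norm_num) h5⟩

theorem prodlow_ALL (w : ℕ) (hw : 6 ≤ w) :
    ∏ m ∈ Icc 7 w, (1 - 3 / (m : ℝ)) = 120 / ((w : ℝ) * (w - 1) * (w - 2)) := by
  induction w, hw using Nat.le_induction with
  | base => norm_num
  | succ w hw ih =>
    rw [Finset.prod_Icc_succ_top (by omega), ih]
    have h1 : (6 : ℝ) ≤ w := by exact_mod_cast hw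
    have h2 : (w : ℝ) - 1 ≠ 0 := by linarith
    have h3 : (w : ℝ) - 2 ≠ 0 := by linarith
    have h4 : (w : ℝ) ≠ 0 := by linarith
    have h5 : (w : ℝ) + 1 ≠ 0 := by linarith
    push_cast
    have h6 : (w : ℝ) + 1 - 1 = w := by ring
    have h7 : (w : ℝ) + 1 - 2 = w - 1 := by ring
    rw [h6, h7]
    field_simp
    ring

theorem prodlow2_ALL (w : ℕ) (hw : 6 ≤ w) (g : ℕ → ℝ)
    (hg : ∀ p ∈ (Icc 7 w).filter Nat.Prime, g p ≤ 3 / p) :
    120 / ((w : ℝ) * (w - 1) * (w - 2)) ≤ ∏ p ∈ (Icc 7 w).filter Nat.Prime, (1 - g p) := by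
  rw [← prodlow_ALL w hw, prod_filter]
  refine prod_le_prod ?_ ?_
  · intro m hm
    rw [mem_Icc] at hm
    have h1 : (7 : ℝ) ≤ m := by exact_mod_cast hm.1
    have h2 : 3 / (m : ℝ) ≤ 1 := by
      rw [div_le_one (by linarith)]
      linarith
    linarith
  · intro m hm
    have h1 : (7 : ℝ) ≤ m := by exact_mod_cast (mem_Icc.1 hm).1
    by_cases hp : m.Prime
    · rw [if_pos hp]
      have h2 := hg m (mem_filter.2 ⟨hm, hp⟩)
      linarith
    · rw [if_neg hp]
      have h2 : 0 ≤ 3 / (m : ℝ) := by positivity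
      linarith

theorem omega_ALL {m W k : ℕ} (hm : m ≠ 0) (hW : 1 ≤ W) (h : ∀ p, p.Prime → p ∣ m → W ≤ p)
    (hk : m < W ^ (k + 1)) : cardFactors m ≤ k := by
  have h1 : W ^ (cardFactors m) ≤ m := by
    rw [cardFactors_apply]
    calc W ^ m.primeFactorsList.length ≤ m.primeFactorsList.prod := by
          refine List.pow_card_le_prod _ _ ?_
          intro p hp
          exact h p (Nat.prime_of_mem_primeFactorsList hp) (Nat.dvd_of_mem_primeFactorsList hp)
      _ = m := Nat.prod_primeFactorsList hm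
  have h2 : W ^ (cardFactors m) < W ^ (k + 1) := lt_of_le_of_lt h1 hk
  by_contra h3
  push Not at h3
  exact absurd h2 (not_lt.2 (Nat.pow_le_pow_right hW h3))

theorem omega_le_ALL {m : ℕ} (hm : m ≠ 0) : cardFactors m ≤ m := by
  refine omega_ALL hm (by norm_num : 1 ≤ 2) (fun p hp _ => hp.two_le) ?_
  exact lt_trans (Nat.lt_two_pow_self) (Nat.pow_lt_pow_right (by norm_num) (Nat.lt_succ_self m))

theorem root_ALL (n M : ℕ) (hM : 1 ≤ M) : ∃ w, w ^ M ≤ n ∧ n < (w + 1) ^ M := by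
  classical
  have hex : ∃ w, n < (w + 1) ^ M := by
    refine ⟨n, ?_⟩
    calc n < n + 1 := Nat.lt_succ_self n
      _ = (n + 1) ^ 1 := (pow_one _).symm
      _ ≤ (n + 1) ^ M := Nat.pow_le_pow_right (Nat.succ_pos n) hM
  refine ⟨Nat.find hex, ?_, Nat.find_spec hex⟩
  rcases Nat.eq_zero_or_pos (Nat.find hex) with h | h
  · rw [h, zero_pow (by omega)]
    exact Nat.zero_le _
  · have h1 := Nat.find_min hex (Nat.sub_lt h Nat.one_pos)
    rw [Nat.sub_add_cancel h] at h1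
    exact not_lt.1 h1

theorem good_ALL (hFL : Pool.Agent.Helper18.TR.StFL) : ∃ B : ℕ, ∀ n w : ℕ, 7 ≤ w →
    w ^ (2 * B + 4) ≤ n → ∃ y : ℕ, 0 < y ∧ y < n ∧ ∀ p : ℕ, p.Prime → p ≤ w →
      ¬ (p : ℤ) ∣ G_ALL n y := by
  obtain ⟨B, hB⟩ := hFL 3 (1 / 2) (by norm_num) (by norm_num)
  refine ⟨B, fun n w hw hn => ?_⟩
  obtain ⟨y₀, hy₀⟩ := loc30_ALL n
  have hn1 : 1 ≤ n := le_trans (Nat.one_le_pow _ _ (by omega)) hn
  have hnR : (w : ℝ) ^ (2 * B + 4) ≤ n := by exact_mod_cast hn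
  have hwR : (7 : ℝ) ≤ w := by exact_mod_cast hw
  set H : ℕ := n - 1 with hH
  have hHR : (H : ℝ) = n - 1 := by
    rw [hH, Nat.cast_sub hn1]
    simp
  set Q : Finset ℕ := (Icc 7 w).filter Nat.Prime with hQ
  set g : ℕ → ℝ := fun p => ((S_ALL n p).card : ℝ) / p with hg
  have hQp : ∀ p ∈ Q, p.Prime ∧ 7 ≤ p ∧ p ≤ w := by
    intro p hp
    rw [hQ, mem_filter, mem_Icc] at hp
    exact ⟨hp.2, hp.1.1, hp.1.2⟩
  have hg3 : ∀ p ∈ Q, g p ≤ 3 / p := by
    intro p hp
    have h1 := cardS_ALL n p (hQp p hp).1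
    have h2 : ((S_ALL n p).card : ℝ) ≤ 3 := by exact_mod_cast h1
    rw [hg]
    exact div_le_div_of_nonneg_right h2 (Nat.cast_nonneg p)
  have hfin := hB w (by omega) Q (fun p hp => ⟨(hQp p hp).1, (hQp p hp).2.2⟩) g (by
      intro p hp
      refine ⟨by rw [hg]; positivity, hg3 p hp, (hg3 p hp).trans ?_⟩
      have h1 : (7 : ℝ) ≤ p := by exact_mod_cast (hQp p hp).2.1
      rw [div_le_div_iff₀ (by linarith) (by norm_num)]
      linarith) ℕ ((Ioc 0 (0 + H)).filter (fun e => e % 30 = y₀ % 30))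
    (fun p e => e % p ∈ S_ALL n p) ((H : ℝ) / (30 : ℕ)) ((w : ℝ) ^ B) (by positivity)
    (by positivity) (by
      intro T hT hTw
      have h1 := cntT_ALL 0 H (S_ALL n) T (by
        intro l hl
        refine ⟨(hQp l (hT hl)).1, fun s hs => ?_⟩
        unfold S_ALL at hs
        rw [mem_filter, mem_range] at hs
        exact hs.1) 30 y₀ (by norm_num) (by
        intro l hl
        have h2 := (hQp l (hT hl)).1
        rw [h2.coprime_iff_not_dvd]
        intro h3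
        have h4 : l ∈ Nat.primeFactors 30 := Nat.mem_primeFactors.2 ⟨h2, h3, by norm_num⟩
        have h5 : Nat.primeFactors 30 = {2, 3, 5} := by decide +kernel
        rw [h5] at h4
        have h6 := (hQp l (hT hl)).2.1
        simp at h4
        omega)
      rw [filter_filter]
      refine h1.trans ?_
      calc ∏ l ∈ T, ((S_ALL n l).card : ℝ) ≤ ∏ l ∈ T, (l : ℝ) := by
            refine prod_le_prod (fun _ _ => Nat.cast_nonneg _) ?_
            intro l hl
            have h2 := cardS_ALL n l (hQp l (hT hl)).1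
            have h3 := (hQp l (hT hl)).2.1
            exact_mod_cast (by omega : (S_ALL n l).card ≤ l)
        _ = ((∏ l ∈ T, l : ℕ) : ℝ) := by push_cast; rfl
        _ ≤ ((w ^ B : ℕ) : ℝ) := by exact_mod_cast hTw
        _ = (w : ℝ) ^ B := by push_cast; rfl)
  have hne : (((Ioc 0 (0 + H)).filter (fun e => e % 30 = y₀ % 30)).filter
      (fun a => ∀ p ∈ Q, ¬ a % p ∈ S_ALL n p)).Nonempty := by
    rw [← card_pos]
    by_contra h0
    have h1 : (((Ioc 0 (0 + H)).filter (fun e => e % 30 = y₀ % 30)).filter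
      (fun a => ∀ p ∈ Q, ¬ a % p ∈ S_ALL n p)).card = 0 := by omega
    rw [h1] at hfin
    have hP := prodlow2_ALL w (by omega) g hg3
    set PP : ℝ := ∏ p ∈ Q, (1 - g p) with hPP
    have hD : (0 : ℝ) < (w : ℝ) * (w - 1) * (w - 2) := by
      have h2 : (0 : ℝ) < (w : ℝ) - 1 := by linarith
      have h3 : (0 : ℝ) < (w : ℝ) - 2 := by linarith
      positivity
    have hPpos : 0 < PP := lt_of_lt_of_le (by positivity) hP
    have hH0 : (0 : ℝ) ≤ H := Nat.cast_nonneg H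
    have h4 : (H : ℝ) / (30 : ℕ) * PP ≤ 1 / 2 * ((H : ℝ) / (30 : ℕ) * PP) +
        (w : ℝ) ^ B * (w : ℝ) ^ B := by
      have h5 := (abs_le.1 hfin).1
      push_cast at h5 ⊢
      linarith
    have h6 : (H : ℝ) / 60 * PP ≤ (w : ℝ) ^ B * (w : ℝ) ^ B := by
      push_cast at h4
      linarith
    have h7 : (H : ℝ) / 60 * (120 / ((w : ℝ) * (w - 1) * (w - 2))) ≤ (H : ℝ) / 60 * PP :=
      mul_le_mul_of_nonneg_left hP (by positivity)
    have h8 : (H : ℝ) / 60 * (120 / ((w : ℝ) * (w - 1) * (w - 2))) =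
        2 * H / ((w : ℝ) * (w - 1) * (w - 2)) := by
      field_simp
      ring
    have h9 : 2 * (H : ℝ) / ((w : ℝ) * (w - 1) * (w - 2)) ≤ (w : ℝ) ^ B * (w : ℝ) ^ B := by
      linarith
    rw [div_le_iff₀ hD] at h9
    have h10 : (w : ℝ) * (w - 1) * (w - 2) ≤ (w : ℝ) ^ 3 := by
      nlinarith
    have h11 : (w : ℝ) ^ B * (w : ℝ) ^ B * ((w : ℝ) * (w - 1) * (w - 2)) ≤
        (w : ℝ) ^ B * (w : ℝ) ^ B * (w : ℝ) ^ 3 :=
      mul_le_mul_of_nonneg_left h10 (by positivity)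
    have h12 : (w : ℝ) ^ (2 * B + 4) = (w : ℝ) ^ B * (w : ℝ) ^ B * (w : ℝ) ^ 3 * w := by
      ring
    set Z : ℝ := (w : ℝ) ^ B * (w : ℝ) ^ B * (w : ℝ) ^ 3 with hZ
    have hZ1 : 1 ≤ Z := by
      rw [hZ]
      have h13 : (1 : ℝ) ≤ w := by linarith
      have h14 : (1 : ℝ) ≤ (w : ℝ) ^ B := one_le_pow₀ h13
      have h15 : (1 : ℝ) ≤ (w : ℝ) ^ 3 := one_le_pow₀ h13
      have h16 : (1 : ℝ) ≤ (w : ℝ) ^ B * (w : ℝ) ^ B := by nlinarith
      nlinarith
    have h17 : Z * 7 ≤ Z * w := mul_le_mul_of_nonneg_left hwR (by linarith)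
    rw [h12] at hnR
    rw [hHR] at h9
    linarith
  obtain ⟨y, hy⟩ := hne
  rw [mem_filter, mem_filter, mem_Ioc] at hy
  obtain ⟨⟨⟨hy1, hy2⟩, hy3⟩, hy4⟩ := hy
  refine ⟨y, hy1, by omega, ?_⟩
  intro p hp hpw
  by_cases hp7 : 7 ≤ p
  · have h1 := hy4 p (by rw [hQ, mem_filter, mem_Icc]; exact ⟨⟨hp7, hpw⟩, hp⟩)
    rwa [memS_ALL n p y hp.pos] at h1
  · have h235 := hy₀ y hy3
    have h2 := hp.two_le
    have h3 : p = 2 ∨ p = 3 ∨ p = 4 ∨ p = 5 ∨ p = 6 := by omega
    rcases h3 with rfl | rfl | rfl | rfl | rfl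
    · exact h235.1
    · exact h235.2.1
    · exact absurd hp (by norm_num)
    · exact h235.2.2
    · exact absurd hp (by norm_num)

theorem hAll (hFL : Pool.Agent.Helper18.TR.StFL) : StAll := by
  obtain ⟨B, hB⟩ := good_ALL hFL
  set M : ℕ := 2 * B + 4 with hM
  refine ⟨3 * M + 2 * (7 ^ M) ^ 2, fun n hn => ?_⟩
  by_cases hsmall : n < 7 ^ M
  · refine ⟨n - 1, 1, by omega, by norm_num, by omega, ?_, ?_⟩
    · refine (omega_le_ALL (by omega)).trans ?_
      have h1 : 7 ^ M ≤ (7 ^ M) ^ 2 := by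
        rw [sq]
        exact Nat.le_mul_of_pos_left _ (by positivity)
      omega
    · refine (omega_le_ALL (by positivity)).trans ?_
      have h1 : (n - 1) ^ 2 ≤ (7 ^ M) ^ 2 := Nat.pow_le_pow_left (by omega) 2
      have h2 : 7 ^ M ≤ (7 ^ M) ^ 2 := by
        rw [sq]
        exact Nat.le_mul_of_pos_left _ (by positivity)
      have h3 : n * 1 ^ 2 = n := by ring
      rw [h3]
      omega
  · push Not at hsmall
    obtain ⟨w, hw1, hw2⟩ := root_ALL n M (by omega)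
    have hw7 : 7 ≤ w := by
      by_contra h
      have h1 : (w + 1) ^ M ≤ 7 ^ M := Nat.pow_le_pow_left (by omega) M
      omega
    obtain ⟨y, hy0, hyn, hy⟩ := hB n w hw7 hw1
    have hxy : ((n - y : ℕ) : ℤ) = (n : ℤ) - y := by
      rw [Nat.cast_sub hyn.le]
    have hGe : G_ALL n y = ((((n - y) + n * y) * ((n - y) ^ 2 + n * y ^ 2) : ℕ) : ℤ) := by
      unfold G_ALL
      push_cast [Nat.cast_sub hyn.le]
      ring
    have hdiv : ∀ p : ℕ, p.Prime → p ∣ ((n - y) + n * y) * ((n - y) ^ 2 + n * y ^ 2) →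
        w + 1 ≤ p := by
      intro p hp h1
      by_contra h2
      refine hy p hp (by omega) ?_
      rw [hGe, Int.natCast_dvd_natCast]
      exact h1
    have hn3 : n ^ 3 < ((w + 1) ^ M) ^ 3 := Nat.pow_lt_pow_left hw2 (by norm_num)
    have hbig : 2 * n ^ 3 < (w + 1) ^ (3 * M + 1) := by
      calc 2 * n ^ 3 < 2 * ((w + 1) ^ M) ^ 3 := by omega
        _ ≤ (w + 1) * ((w + 1) ^ M) ^ 3 := Nat.mul_le_mul_right _ (by omega)
        _ = (w + 1) ^ (3 * M + 1) := by rw [← pow_mul, pow_succ, Nat.mul_comm M 3, Nat.mul_comm]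
    have hny : n * y ^ 2 ≤ n ^ 3 := by
      calc n * y ^ 2 ≤ n * n ^ 2 := Nat.mul_le_mul_left _ (Nat.pow_le_pow_left hyn.le 2)
        _ = n ^ 3 := by ring
    have hn23 : n ^ 2 ≤ n ^ 3 := Nat.pow_le_pow_right (by omega) (by norm_num)
    refine ⟨n - y, y, by omega, hy0, by omega, ?_, ?_⟩
    · refine (omega_ALL (W := w + 1) (k := 3 * M) ?_ (by omega) ?_ ?_).trans (by omega)
      · omega
      · intro p hp h1
        exact hdiv p hp (Dvd.dvd.mul_right h1 _)
      · refine lt_of_le_of_lt ?_ hbig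
        have h1 : n * y ≤ n ^ 2 := by
          rw [sq]
          exact Nat.mul_le_mul_left _ hyn.le
        have h2 : n ≤ n ^ 3 := by
          calc n = n ^ 1 := (pow_one n).symm
            _ ≤ n ^ 3 := Nat.pow_le_pow_right (by omega) (by norm_num)
        omega
    · refine (omega_ALL (W := w + 1) (k := 3 * M) ?_ (by omega) ?_ ?_).trans (by omega)
      · have h1 : 0 < n * y ^ 2 := by positivity
        omega
      · intro p hp h1
        exact hdiv p hp (Dvd.dvd.mul_left h1 _)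
      · refine lt_of_le_of_lt ?_ hbig
        have h1 : (n - y) ^ 2 ≤ n ^ 2 := Nat.pow_le_pow_left (by omega) 2
        omega

end Pool.Agent.Helper9.SU
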