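import Pool.Agent.Helper9.SU.St
import Pool.Agent.Helper90.MT.A13a
import Pool.Agent.Helper2.DivisorSum

/-!
# Project SU: module ERR (the sum of the error terms)
-/

set_option autoImplicit false

noncomputable section

namespace Pool.Agent.Helper9.SU

open Finset ArithmeticFunction
open Pool.Agent.Helper60.GP (IsB JJ II Err)
open Pool.Agent.Helper15.AB (Th)

/-- number of divisors -/
private def tau_ERR (q : ℕ) : ℝ := (q.divisors.card : ℝ)

private theorem tau_nn_ERR (q : ℕ) : 0 ≤ tau_ERR q := Nat.cast_nonneg _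

/-! ### roots of the quadratic polynomial -/

private def rt_ERR (b d : ℕ) : Finset ℕ := (range d).filter (fun r : ℕ => (d : ℤ) ∣ QQ r b)

private theorem rt_prime_ERR (b p : ℕ) (hp : p.Prime) : (rt_ERR b p).card ≤ 2 := by
  by_contra hcon
  rw [not_le, Finset.two_lt_card] at hcon
  obtain ⟨r1, h1, r2, h2, r3, h3, h12, h13, h23⟩ := hcon
  unfold rt_ERR at h1 h2 h3
  rw [Finset.mem_filter, Finset.mem_range] at h1 h2 h3
  have hpi : Prime (p : ℤ) := Nat.prime_iff_prime_int.1 hp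
  have key : ∀ r s : ℕ, r < p → s < p → r ≠ s → (p : ℤ) ∣ QQ r b → (p : ℤ) ∣ QQ s b →
      (p : ℤ) ∣ (r : ℤ) + s + 2 * (2 - b) + (b - 1) ^ 2 := by
    intro r s hr hs hrs h4 h5
    have h6 : (p : ℤ) ∣ ((r : ℤ) - s) * ((r : ℤ) + s + 2 * (2 - b) + (b - 1) ^ 2) := by
      have h7 := dvd_sub h4 h5
      have h8 : QQ r b - QQ s b =
          ((r : ℤ) - s) * ((r : ℤ) + s + 2 * (2 - b) + (b - 1) ^ 2) := by
        unfold QQ; ring
      rwa [h8] at h7
    rcases hpi.dvd_or_dvd h6 with h9 | h9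
    · exfalso
      apply hrs
      have h10 : (r : ℤ) - s = 0 := by
        apply Int.eq_zero_of_abs_lt_dvd h9
        rw [abs_lt]
        constructor <;> omega
      omega
    · exact h9
  have h4 := key r1 r2 h1.1 h2.1 h12 h1.2 h2.2
  have h5 := key r1 r3 h1.1 h3.1 h13 h1.2 h3.2
  have h6 := dvd_sub h4 h5
  have h7 : ((r1 : ℤ) + r2 + 2 * (2 - b) + (b - 1) ^ 2) -
      ((r1 : ℤ) + r3 + 2 * (2 - b) + (b - 1) ^ 2) = (r2 : ℤ) - r3 := by ring
  rw [h7] at h6
  have h8 : (r2 : ℤ) - r3 = 0 := by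
    apply Int.eq_zero_of_abs_lt_dvd h6
    rw [abs_lt]
    constructor <;> omega
  apply h23
  omega

private theorem QQ_mod_ERR (b d r : ℕ) : ((d : ℤ) ∣ QQ ((r % d : ℕ) : ℤ) b) ↔ (d : ℤ) ∣ QQ r b := by
  have h1 : (d : ℤ) ∣ (r : ℤ) - ((r % d : ℕ) : ℤ) := by
    refine ⟨((r / d : ℕ) : ℤ), ?_⟩
    have h2 := Nat.div_add_mod r d
    have h3 : (r : ℤ) = d * ((r / d : ℕ) : ℤ) + ((r % d : ℕ) : ℤ) := by exact_mod_cast h2.symm
    linarith
  have h2 : QQ (r : ℤ) b - QQ ((r % d : ℕ) : ℤ) b = ((r : ℤ) - ((r % d : ℕ) : ℤ)) *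
      ((r : ℤ) + ((r % d : ℕ) : ℤ) + 2 * (2 - b) + (b - 1) ^ 2) := by
    unfold QQ; ring
  have h3 : (d : ℤ) ∣ QQ (r : ℤ) b - QQ ((r % d : ℕ) : ℤ) b := by
    rw [h2]; exact Dvd.dvd.mul_right h1 _
  exact (dvd_iff_dvd_of_dvd_sub h3).symm

private theorem rt_mul_ERR (b d e : ℕ) (hd : 0 < d) (he : 0 < e) (h : Nat.Coprime d e) :
    (rt_ERR b (d * e)).card ≤ (rt_ERR b d).card * (rt_ERR b e).card := by
  rw [← Finset.card_product]
  refine Finset.card_le_card_of_injOn (fun r => (r % d, r % e)) ?_ ?_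
  · intro r hr
    have hr' := Finset.mem_coe.1 hr
    unfold rt_ERR at hr'
    rw [Finset.mem_filter, Finset.mem_range] at hr'
    rw [Finset.mem_coe, Finset.mem_product]
    unfold rt_ERR
    rw [Finset.mem_filter, Finset.mem_range, Finset.mem_filter, Finset.mem_range]
    refine ⟨⟨Nat.mod_lt _ hd, ?_⟩, Nat.mod_lt _ he, ?_⟩
    · rw [QQ_mod_ERR]
      refine dvd_trans ?_ hr'.2
      push_cast
      exact dvd_mul_right _ _
    · rw [QQ_mod_ERR]
      refine dvd_trans ?_ hr'.2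
      push_cast
      exact dvd_mul_left _ _
  · intro r hr s hs hrs
    have hr' := (Finset.mem_range.1 (Finset.mem_filter.1 (Finset.mem_coe.1 hr)).1)
    have hs' := (Finset.mem_range.1 (Finset.mem_filter.1 (Finset.mem_coe.1 hs)).1)
    have h1 : r ≡ s [MOD d] := congrArg Prod.fst hrs
    have h2 : r ≡ s [MOD e] := congrArg Prod.snd hrs
    have h3 : r ≡ s [MOD d * e] := (Nat.modEq_and_modEq_iff_modEq_mul h).1 ⟨h1, h2⟩
    exact h3.eq_of_lt_of_lt hr' hs'

private theorem rt_le_ERR (b : ℕ) : ∀ d : ℕ, Squarefree d → (rt_ERR b d).card ≤ d.divisors.card := by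
  intro d
  induction d using Nat.strong_induction_on with
  | _ d ih =>
    intro hsq
    have hd0 : d ≠ 0 := hsq.ne_zero
    by_cases hd1 : d = 1
    · subst hd1
      refine (Finset.card_filter_le _ _).trans ?_
      simp
    · have hp : (d.minFac).Prime := Nat.minFac_prime hd1
      obtain ⟨m, hm⟩ := Nat.minFac_dvd d
      have hm0 : 0 < m := by
        rcases Nat.eq_zero_or_pos m with h | h
        · rw [h, mul_zero] at hm; exact absurd hm hd0
        · exact h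
      have hcop : Nat.Coprime d.minFac m := by
        rw [hm] at hsq
        exact (Nat.squarefree_mul_iff.1 hsq).1
      have hmsq : Squarefree m := by
        rw [hm] at hsq
        exact (Nat.squarefree_mul_iff.1 hsq).2.2
      have hlt : m < d := by
        have h2 := hp.two_le
        rw [hm]
        have : m < 2 * m := by omega
        exact lt_of_lt_of_le this (Nat.mul_le_mul_right m h2)
      have h1 := ih m hlt hmsq
      have h2 := rt_mul_ERR b d.minFac m hp.pos hm0 hcop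
      have h3 := rt_prime_ERR b d.minFac hp
      have h4 : d.divisors.card = (d.minFac).divisors.card * m.divisors.card := by
        conv_lhs => rw [hm]
        exact hcop.card_divisors_mul
      have h5 : (d.minFac).divisors.card = 2 := by
        rw [hp.divisors, Finset.card_pair hp.one_lt.ne]
      rw [h4, h5]
      calc (rt_ERR b d).card = (rt_ERR b (d.minFac * m)).card := by rw [← hm]
        _ ≤ _ := h2
        _ ≤ 2 * m.divisors.card := Nat.mul_le_mul h3 h1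

/-! ### moments of the divisor function -/

private def g_ERR (k : ℕ) : ArithmeticFunction ℝ :=
  ⟨fun n => (n.divisors.card : ℝ) ^ k / n, by simp⟩

private theorem card_ERR (n : ℕ) : n.divisorsAntidiagonal.card = n.divisors.card := by
  rw [← Nat.map_div_right_divisors, card_map]

private theorem pow_le_ERR (k a b : ℕ) : ((a * b).divisors.card : ℝ) ^ k ≤
    (a.divisors.card : ℝ) ^ k * (b.divisors.card : ℝ) ^ k := by
  rw [← mul_pow]
  refine pow_le_pow_left₀ (Nat.cast_nonneg _) ?_ k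
  exact_mod_cast Pool.Agent.Helper2.card_divisors_mul_le a b

private theorem E_ERR (k N : ℕ) : ∑ n ∈ Ioc 0 N, (n.divisors.card : ℝ) ^ k / n ≤
    (1 + Real.log N) ^ (2 ^ k) := by
  induction k with
  | zero => simpa using Pool.Agent.Helper2.harmonic_sum_le N
  | succ k ih =>
    have h1 : ∀ n ∈ Ioc 0 N, (n.divisors.card : ℝ) ^ (k + 1) / n ≤ (g_ERR k * g_ERR k) n := by
      intro n hn
      have hn0 : 0 < n := (mem_Ioc.1 hn).1
      rw [ArithmeticFunction.mul_apply]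
      calc (n.divisors.card : ℝ) ^ (k + 1) / n
          = ∑ x ∈ n.divisorsAntidiagonal, (n.divisors.card : ℝ) ^ k / n := by
            rw [Finset.sum_const, nsmul_eq_mul, card_ERR, pow_succ]; ring
        _ ≤ ∑ x ∈ n.divisorsAntidiagonal, g_ERR k x.1 * g_ERR k x.2 := by
            refine Finset.sum_le_sum fun x hx => ?_
            obtain ⟨h1, h2⟩ := Nat.mem_divisorsAntidiagonal.1 hx
            simp only [g_ERR, ArithmeticFunction.coe_mk]
            rw [div_mul_div_comm, ← h1, Nat.cast_mul]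
            exact div_le_div_of_nonneg_right (pow_le_ERR k x.1 x.2) (by positivity)
    calc ∑ n ∈ Ioc 0 N, (n.divisors.card : ℝ) ^ (k + 1) / n
        ≤ ∑ n ∈ Ioc 0 N, (g_ERR k * g_ERR k) n := Finset.sum_le_sum h1
      _ = ∑ x ∈ Ioc 0 N ×ˢ Ioc 0 N with x.1 * x.2 ≤ N, g_ERR k x.1 * g_ERR k x.2 :=
          sum_Ioc_mul_eq_sum_prod_filter _ _ _
      _ ≤ ∑ x ∈ Ioc 0 N ×ˢ Ioc 0 N, g_ERR k x.1 * g_ERR k x.2 := by
          refine Finset.sum_le_sum_of_subset_of_nonneg (filter_subset _ _) ?_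
          intro x _ _
          simp only [g_ERR, ArithmeticFunction.coe_mk]
          positivity
      _ = (∑ n ∈ Ioc 0 N, (n.divisors.card : ℝ) ^ k / n) ^ 2 := by
          rw [sq, Finset.sum_mul_sum, Finset.sum_product]
          rfl
      _ ≤ ((1 + Real.log N) ^ (2 ^ k)) ^ 2 :=
          pow_le_pow_left₀ (Finset.sum_nonneg fun _ _ => by positivity) ih 2
      _ = (1 + Real.log N) ^ (2 ^ (k + 1)) := by rw [← pow_mul, pow_succ]

/-! ### the discrepancy -/

private theorem per_ERR (ω : ℝ → ℝ) (x : ℝ) (q : ℕ) (a : ℤ) :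
    Err ω x q a = Err ω x q (a % q) := by
  unfold Pool.Agent.Helper60.GP.Err
  have h1 : (II x).filter (fun n : ℕ => (q : ℤ) ∣ (n : ℤ) - a) =
      (II x).filter (fun n : ℕ => (q : ℤ) ∣ (n : ℤ) - a % q) := by
    refine Finset.filter_congr (fun n _ => ?_)
    have h2 : (n : ℤ) - a % q - ((n : ℤ) - a) = q * (a / q) := by
      have h3 := Int.emod_add_mul_ediv a q
      linarith
    have h4 : (q : ℤ) ∣ (n : ℤ) - a % q - ((n : ℤ) - a) := by
      rw [h2]; exact dvd_mul_right _ _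
    exact (dvd_iff_dvd_of_dvd_sub h4).symm
  rw [h1]

/-- class of maximal discrepancy -/
private theorem max_ERR (ω : ℝ → ℝ) (x : ℝ) (q : ℕ) (hq : 1 ≤ q) : ∃ c : ℤ,
    IsCoprime c (q : ℤ) ∧ ∀ a : ℤ, IsCoprime a (q : ℤ) → Err ω x q a ≤ Err ω x q c := by
  have hq0 : (0 : ℤ) < q := by exact_mod_cast hq
  set S : Finset ℤ := (Finset.Ico (0 : ℤ) q).filter (fun a => IsCoprime a (q : ℤ)) with hS
  have hmem : ∀ a : ℤ, IsCoprime a (q : ℤ) → a % q ∈ S := by
    intro a ha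
    rw [hS, Finset.mem_filter, Finset.mem_Ico]
    refine ⟨⟨Int.emod_nonneg _ hq0.ne', Int.emod_lt_of_pos _ hq0⟩, ?_⟩
    have h3 := Int.emod_add_mul_ediv a q
    have h4 : a % q = a + q * (-(a / q)) := by linarith
    rw [h4]
    exact IsCoprime.add_mul_left_left ha _
  have hne : S.Nonempty := ⟨1 % q, hmem 1 isCoprime_one_left⟩
  obtain ⟨c, hc, hmax⟩ := Finset.exists_max_image S (fun a => Err ω x q a) hne
  refine ⟨c, (Finset.mem_filter.1 hc).2, fun a ha => ?_⟩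
  rw [per_ERR ω x q a]
  exact hmax _ (hmem a ha)

private theorem cnt_ERR (N q : ℕ) (hq : 1 ≤ q) (a : ℤ) :
    ((Icc 1 N).filter (fun n : ℕ => (q : ℤ) ∣ (n : ℤ) - a)).card ≤ N / q + 1 := by
  have h1 : N / q + 1 = (range (N / q + 1)).card := (Finset.card_range _).symm
  rw [h1]
  refine Finset.card_le_card_of_injOn (fun n => n / q) ?_ ?_
  · intro n hn
    have h2 := Finset.mem_Icc.1 (Finset.mem_filter.1 (Finset.mem_coe.1 hn)).1
    rw [Finset.mem_coe, Finset.mem_range]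
    exact Nat.lt_succ_of_le (Nat.div_le_div_right h2.2)
  · intro n hn m hm hnm
    have h2 := (Finset.mem_filter.1 (Finset.mem_coe.1 hn)).2
    have h3 := (Finset.mem_filter.1 (Finset.mem_coe.1 hm)).2
    have h4 := dvd_sub h2 h3
    have h5 : (n : ℤ) - a - ((m : ℤ) - a) = (n : ℤ) - m := by ring
    rw [h5] at h4
    have h6 : m ≡ n [MOD q] := (Nat.modEq_iff_dvd).2 h4
    have h7 := Nat.div_add_mod n q
    have h8 := Nat.div_add_mod m q
    have h9 : n / q = m / q := hnm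
    have h10 : m % q = n % q := h6
    rw [← h7, ← h8, h9, h10]

private theorem triv_ERR (ω : ℝ → ℝ) (hω : IsB ω) (x : ℝ) (hx : 1 ≤ x) (q : ℕ) (hq : 1 ≤ q)
    (hqx : (q : ℝ) ≤ x) (a : ℤ) :
    Err ω x q a ≤ 2 * x * Real.log (3 * x) * (tau_ERR q / q) := by
  have hq0 : (0 : ℝ) < q := by exact_mod_cast hq
  have hx0 : 0 < x := by linarith
  have hlog : 0 ≤ Real.log (3 * x) := Real.log_nonneg (by linarith)
  have hterm : ∀ n ∈ Icc 1 ⌊3 * x⌋₊, 0 ≤ Λ n * ω (Real.log (n / x)) ∧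
      Λ n * ω (Real.log (n / x)) ≤ Real.log (3 * x) / 2 := by
    intro n hn
    rw [Finset.mem_Icc] at hn
    have hn0 : (0 : ℝ) < n := by exact_mod_cast hn.1
    have h1 : (n : ℝ) ≤ 3 * x := (Nat.le_floor_iff (by positivity)).1 hn.2
    have h2 : Λ n ≤ Real.log (3 * x) := vonMangoldt_le_log.trans (Real.log_le_log hn0 h1)
    refine ⟨mul_nonneg vonMangoldt_nonneg (hω.nonneg _), ?_⟩
    calc Λ n * ω (Real.log (n / x)) ≤ Real.log (3 * x) * (1 / 2) :=
          mul_le_mul h2 (hω.le_half _) (hω.nonneg _) hlog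
      _ = Real.log (3 * x) / 2 := by ring
  have hτ : 1 ≤ tau_ERR q := by
    unfold tau_ERR
    have h1 : 0 < q.divisors.card := Finset.card_pos.2 ⟨1, Nat.one_mem_divisors.2 (by omega)⟩
    exact_mod_cast h1
  -- the sum over the class
  set S := ∑ n ∈ (II x).filter (fun n : ℕ => (q : ℤ) ∣ (n : ℤ) - a),
    Λ n * ω (Real.log (n / x)) with hS
  have hS0 : 0 ≤ S := Finset.sum_nonneg fun n hn => (hterm n (Finset.mem_filter.1 hn).1).1
  have hS1 : S ≤ 2 * x * Real.log (3 * x) * (tau_ERR q / q) := by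
    have h1 : S ≤ (((II x).filter (fun n : ℕ => (q : ℤ) ∣ (n : ℤ) - a)).card : ℝ) *
        (Real.log (3 * x) / 2) := by
      rw [← nsmul_eq_mul]
      exact Finset.sum_le_card_nsmul _ _ _ fun n hn => (hterm n (Finset.mem_filter.1 hn).1).2
    have h2 : (((II x).filter (fun n : ℕ => (q : ℤ) ∣ (n : ℤ) - a)).card : ℝ) ≤
        3 * x / q + 1 := by
      have h3 := cnt_ERR ⌊3 * x⌋₊ q hq a
      have h4 : (((II x).filter (fun n : ℕ => (q : ℤ) ∣ (n : ℤ) - a)).card : ℝ) ≤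
          ((⌊3 * x⌋₊ / q : ℕ) : ℝ) + 1 := by exact_mod_cast h3
      have h5 : ((⌊3 * x⌋₊ / q : ℕ) : ℝ) ≤ 3 * x / q := by
        refine Nat.cast_div_le.trans ?_
        exact div_le_div_of_nonneg_right (Nat.floor_le (by positivity)) hq0.le
      linarith
    have h3 : (1 : ℝ) ≤ x / q := by rw [le_div_iff₀ hq0]; linarith
    have h4 : 3 * x / q + 1 ≤ 4 * (x / q) := by
      have : 3 * x / q = 3 * (x / q) := by ring
      rw [this]; linarith
    calc S ≤ _ := h1
      _ ≤ (4 * (x / q)) * (Real.log (3 * x) / 2) :=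
          mul_le_mul_of_nonneg_right (h2.trans h4) (by positivity)
      _ = 2 * x * Real.log (3 * x) * (1 / q) := by ring
      _ ≤ 2 * x * Real.log (3 * x) * (tau_ERR q / q) := by
          refine mul_le_mul_of_nonneg_left ?_ (by positivity)
          exact div_le_div_of_nonneg_right hτ hq0.le
  -- the main term
  have hφ0 : (0 : ℝ) < Nat.totient q := by exact_mod_cast Nat.totient_pos.2 hq
  have hT0 : 0 ≤ Th ω x := Finset.sum_nonneg fun n hn => (hterm n hn).1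
  have hT1 : Th ω x ≤ 3 * x * (Real.log (3 * x) / 2) := by
    have h1 : Th ω x ≤ ((Icc 1 ⌊3 * x⌋₊).card : ℝ) * (Real.log (3 * x) / 2) := by
      rw [← nsmul_eq_mul]
      exact Finset.sum_le_card_nsmul _ _ _ fun n hn => (hterm n hn).2
    refine h1.trans (mul_le_mul_of_nonneg_right ?_ (by positivity))
    rw [Nat.card_Icc, Nat.add_sub_cancel]
    exact Nat.floor_le (by positivity)
  have hφ1 : 1 / (Nat.totient q : ℝ) ≤ tau_ERR q / q := by
    rw [div_le_div_iff₀ hφ0 hq0, one_mul]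
    have h1 := Pool.Agent.Helper90.MT.a13a_tot q
    have h2 := Pool.Agent.Helper90.MT.a13a_div 1 q (by omega)
    have h3 : ∑ d ∈ q.divisors, ((1 : ℕ) : ℝ) ^ d.primeFactors.card = tau_ERR q := by
      unfold tau_ERR
      simp
    rw [h3] at h2
    have h4 : ((1 : ℕ) : ℝ) + 1 = 2 := by norm_num
    rw [h4] at h2
    have h5 : (q : ℝ) ≤ 2 ^ q.primeFactors.card * q.totient := by exact_mod_cast h1
    exact h5.trans (mul_le_mul_of_nonneg_right h2 hφ0.le)
  have hT2 : Th ω x / (Nat.totient q : ℝ) ≤ 2 * x * Real.log (3 * x) * (tau_ERR q / q) := by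
    have h1 : Th ω x / (Nat.totient q : ℝ) = Th ω x * (1 / (Nat.totient q : ℝ)) := by ring
    rw [h1]
    refine (mul_le_mul hT1 hφ1 (by positivity) (by positivity)).trans ?_
    have h2 : 0 ≤ tau_ERR q / q := div_nonneg (tau_nn_ERR q) hq0.le
    refine mul_le_mul_of_nonneg_right ?_ h2
    have h3 : 0 ≤ x * Real.log (3 * x) := by positivity
    nlinarith
  have hT3 : 0 ≤ Th ω x / (Nat.totient q : ℝ) := by positivity
  unfold Pool.Agent.Helper60.GP.Err
  rw [abs_le]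
  constructor
  · linarith
  · linarith

/-! ### assembly -/

private theorem sum_ERR (X Y Q : ℕ) (hQ : X * Y ≤ Q) (E : ℕ → ℝ) (hE : ∀ q, 0 ≤ E q) :
    ∑ b ∈ Icc 1 X, ∑ d ∈ Icc 1 Y, tau_ERR d * E (b * d) ≤
      ∑ q ∈ Icc 1 Q, tau_ERR q ^ 2 * E q := by
  rw [← Finset.sum_product']
  have hmap : ∀ z ∈ Icc 1 X ×ˢ Icc 1 Y, z.1 * z.2 ∈ Icc 1 Q := by
    intro z hz
    rw [Finset.mem_product, Finset.mem_Icc, Finset.mem_Icc] at hz
    rw [Finset.mem_Icc]
    refine ⟨Nat.mul_pos hz.1.1 hz.2.1, (Nat.mul_le_mul hz.1.2 hz.2.2).trans hQ⟩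
  rw [← Finset.sum_fiberwise_of_maps_to hmap]
  refine Finset.sum_le_sum (fun q hq => ?_)
  have hq1 : 1 ≤ q := (Finset.mem_Icc.1 hq).1
  have h1 : ∀ z ∈ (Icc 1 X ×ˢ Icc 1 Y).filter (fun z => z.1 * z.2 = q),
      tau_ERR z.2 * E (z.1 * z.2) ≤ tau_ERR q * E q := by
    intro z hz
    have h2 := (Finset.mem_filter.1 hz).2
    rw [h2]
    refine mul_le_mul_of_nonneg_right ?_ (hE q)
    unfold tau_ERR
    have h3 : z.2 ∣ q := ⟨z.1, by rw [← h2, mul_comm]⟩
    exact_mod_cast Finset.card_le_card (Nat.divisors_subset_of_dvd (by omega) h3)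
  refine (Finset.sum_le_card_nsmul _ _ _ h1).trans ?_
  rw [nsmul_eq_mul, sq, mul_assoc]
  refine mul_le_mul_of_nonneg_right ?_ (mul_nonneg (tau_nn_ERR q) (hE q))
  have h2 : (Icc 1 X ×ˢ Icc 1 Y).filter (fun z => z.1 * z.2 = q) ⊆ q.divisorsAntidiagonal := by
    intro z hz
    rw [Nat.mem_divisorsAntidiagonal]
    exact ⟨(Finset.mem_filter.1 hz).2, by omega⟩
  have h3 := Finset.card_le_card h2
  rw [card_ERR] at h3
  unfold tau_ERR
  exact_mod_cast h3

private theorem cs_ERR (S : Finset ℕ) (w E : ℕ → ℝ) (hE : ∀ i, 0 ≤ E i) :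
    (∑ i ∈ S, w i * E i) ^ 2 ≤ (∑ i ∈ S, w i ^ 2 * E i) * ∑ i ∈ S, E i := by
  have h := Finset.sum_mul_sq_le_sq_mul_sq S (fun i => w i * √(E i)) (fun i => √(E i))
  have e1 : ∑ i ∈ S, w i * √(E i) * √(E i) = ∑ i ∈ S, w i * E i :=
    Finset.sum_congr rfl fun i _ => by rw [mul_assoc, Real.mul_self_sqrt (hE i)]
  have e2 : ∑ i ∈ S, (w i * √(E i)) ^ 2 = ∑ i ∈ S, w i ^ 2 * E i :=
    Finset.sum_congr rfl fun i _ => by rw [mul_pow, Real.sq_sqrt (hE i)]
  have e3 : ∑ i ∈ S, √(E i) ^ 2 = ∑ i ∈ S, E i :=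
    Finset.sum_congr rfl fun i _ => Real.sq_sqrt (hE i)
  rwa [e1, e2, e3] at h

theorem hErr (hBV : Pool.Agent.Helper60.GP.StBVc) : StErr := by
  intro ω hω A β σ hβ hσ hβσ
  obtain ⟨x₀, hx₀⟩ := hBV ω hω (2 * A + 40) (β + σ) hβσ
  refine ⟨max x₀ (Real.exp 32), fun x hx => ?_⟩
  have hx1 := hx₀ x ((le_max_left _ _).trans hx)
  have hxe : Real.exp 32 ≤ x := (le_max_right _ _).trans hx
  have hx0 : 0 < x := (Real.exp_pos 32).trans_le hxe
  have hL : 32 ≤ Real.log x := by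
    rw [Real.le_log_iff_exp_le hx0]; exact hxe
  have hx1' : 1 ≤ x := by
    have : (1 : ℝ) ≤ Real.exp 32 := Real.one_le_exp (by norm_num)
    linarith
  set L := Real.log x with hLd
  set Q := ⌊x ^ (β + σ)⌋₊ with hQd
  -- the classes
  have hc : ∀ q : ℕ, ∃ c : ℤ, 1 ≤ q → IsCoprime c (q : ℤ) ∧
      ∀ a : ℤ, IsCoprime a (q : ℤ) → Err ω x q a ≤ Err ω x q c := by
    intro q
    by_cases hq : 1 ≤ q
    · obtain ⟨c, hc⟩ := max_ERR ω x q hq
      exact ⟨c, fun _ => hc⟩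
    · exact ⟨1, fun h => absurd h hq⟩
  choose c hc using hc
  have hE0 : ∀ q, 0 ≤ Err ω x q (c q) := fun q => abs_nonneg _
  have hBV1 := hx1 c (fun q hq => (hc q hq).1)
  -- sum over r
  have h1 : ∑ b ∈ Icc 1 ⌊x ^ β⌋₊, ∑ d ∈ (Icc 1 ⌊x ^ σ⌋₊).filter Squarefree,
      ∑ r ∈ (range d).filter (fun r : ℕ => (d : ℤ) ∣ QQ r b ∧ Nat.Coprime (r * b + 1) (b * d)),
        Err ω x (b * d) ((r : ℤ) * b + 1) ≤
      ∑ b ∈ Icc 1 ⌊x ^ β⌋₊, ∑ d ∈ Icc 1 ⌊x ^ σ⌋₊, tau_ERR d * Err ω x (b * d) (c (b * d)) := by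
    refine Finset.sum_le_sum (fun b hb => ?_)
    have hb1 := (Finset.mem_Icc.1 hb).1
    refine le_trans ?_ (Finset.sum_le_sum_of_subset_of_nonneg
      (Finset.filter_subset Squarefree _)
      (fun d _ _ => mul_nonneg (tau_nn_ERR d) (hE0 _)))
    refine Finset.sum_le_sum (fun d hd => ?_)
    have hd1 := (Finset.mem_Icc.1 (Finset.mem_filter.1 hd).1).1
    have hds := (Finset.mem_filter.1 hd).2
    have hbd : 1 ≤ b * d := Nat.mul_pos hb1 hd1
    have h2 : ∀ r ∈ (range d).filter (fun r : ℕ => (d : ℤ) ∣ QQ r b ∧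
        Nat.Coprime (r * b + 1) (b * d)),
        Err ω x (b * d) ((r : ℤ) * b + 1) ≤ Err ω x (b * d) (c (b * d)) := by
      intro r hr
      have h3 := (Finset.mem_filter.1 hr).2.2
      refine (hc (b * d) hbd).2 _ ?_
      have h4 : IsCoprime (((r * b + 1 : ℕ) : ℤ)) ((b * d : ℕ) : ℤ) := Nat.isCoprime_iff_coprime.2 h3
      push_cast at h4 ⊢
      exact h4
    refine (Finset.sum_le_card_nsmul _ _ _ h2).trans ?_
    rw [nsmul_eq_mul]
    refine mul_le_mul_of_nonneg_right ?_ (hE0 _)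
    have h3 : ((range d).filter (fun r : ℕ => (d : ℤ) ∣ QQ r b ∧
        Nat.Coprime (r * b + 1) (b * d))).card ≤ (rt_ERR b d).card := by
      refine Finset.card_le_card ?_
      intro r hr
      rw [Finset.mem_filter] at hr
      unfold rt_ERR
      rw [Finset.mem_filter]
      exact ⟨hr.1, hr.2.1⟩
    have h4 := h3.trans (rt_le_ERR b d hds)
    unfold tau_ERR
    exact_mod_cast h4
  have hXY : ⌊x ^ β⌋₊ * ⌊x ^ σ⌋₊ ≤ Q := by
    rw [hQd]
    apply Nat.le_floor
    push_cast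
    rw [Real.rpow_add hx0]
    exact mul_le_mul (Nat.floor_le (by positivity)) (Nat.floor_le (by positivity))
      (Nat.cast_nonneg _) (by positivity)
  have h2 := sum_ERR ⌊x ^ β⌋₊ ⌊x ^ σ⌋₊ Q hXY (fun q => Err ω x q (c q)) hE0
  have h3 := cs_ERR (Icc 1 Q) (fun q => tau_ERR q ^ 2) (fun q => Err ω x q (c q)) hE0
  -- the fourth moment
  have hQx : (Q : ℝ) ≤ x := by
    refine (Nat.floor_le (by positivity)).trans ?_
    calc x ^ (β + σ) ≤ x ^ (1 : ℝ) :=
          Real.rpow_le_rpow_of_exponent_le hx1' (by linarith)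
      _ = x := Real.rpow_one x
  have hlog3 : Real.log (3 * x) ≤ 2 * L := by
    rw [Real.log_mul (by norm_num) hx0.ne']
    have h5 : Real.log 3 ≤ 3 := (Real.log_le_self (by norm_num))
    linarith
  have hlog30 : 0 ≤ Real.log (3 * x) := Real.log_nonneg (by linarith)
  have h4 : ∑ q ∈ Icc 1 Q, (tau_ERR q ^ 2) ^ 2 * Err ω x q (c q) ≤
      2 * x * Real.log (3 * x) * (1 + Real.log Q) ^ 32 := by
    have h5 : ∀ q ∈ Icc 1 Q, (tau_ERR q ^ 2) ^ 2 * Err ω x q (c q) ≤
        2 * x * Real.log (3 * x) * (tau_ERR q ^ 5 / q) := by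
      intro q hq
      rw [Finset.mem_Icc] at hq
      have h6 := triv_ERR ω hω x hx1' q hq.1 (le_trans (by exact_mod_cast hq.2) hQx) (c q)
      calc (tau_ERR q ^ 2) ^ 2 * Err ω x q (c q) ≤
          (tau_ERR q ^ 2) ^ 2 * (2 * x * Real.log (3 * x) * (tau_ERR q / q)) :=
            mul_le_mul_of_nonneg_left h6 (by positivity)
        _ = 2 * x * Real.log (3 * x) * (tau_ERR q ^ 5 / q) := by ring
    refine (Finset.sum_le_sum h5).trans ?_
    rw [← Finset.mul_sum]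
    refine mul_le_mul_of_nonneg_left ?_ (by positivity)
    have h6 := E_ERR 5 Q
    have h7 : (2 : ℕ) ^ 5 = 32 := by norm_num
    rw [h7] at h6
    exact h6
  have hlogQ : 1 + Real.log Q ≤ 2 * L := by
    have h5 : Real.log Q ≤ L := by
      by_cases hQ0 : Q = 0
      · rw [hQ0, Nat.cast_zero, Real.log_zero]; linarith
      · exact Real.log_le_log (by exact_mod_cast Nat.pos_of_ne_zero hQ0) hQx
    linarith
  have hlogQ0 : 0 ≤ 1 + Real.log Q := by
    have := Real.log_natCast_nonneg Q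
    linarith
  have h5 : ∑ q ∈ Icc 1 Q, (tau_ERR q ^ 2) ^ 2 * Err ω x q (c q) ≤
      2 ^ 34 * x * L ^ 33 := by
    refine h4.trans ?_
    have h6 : (1 + Real.log Q) ^ 32 ≤ (2 * L) ^ 32 := pow_le_pow_left₀ hlogQ0 hlogQ 32
    calc 2 * x * Real.log (3 * x) * (1 + Real.log Q) ^ 32
        ≤ 2 * x * (2 * L) * (2 * L) ^ 32 := by
          refine mul_le_mul ?_ h6 (by positivity) (by positivity)
          exact mul_le_mul_of_nonneg_left hlog3 (by positivity)
      _ = 2 ^ 34 * x * L ^ 33 := by ring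
  have hL0 : 0 < L := by linarith
  have h6 : (∑ q ∈ Icc 1 Q, tau_ERR q ^ 2 * Err ω x q (c q)) ^ 2 ≤ (x / L ^ A) ^ 2 := by
    refine h3.trans ?_
    have h7 : 0 ≤ ∑ q ∈ Icc 1 Q, Err ω x q (c q) := Finset.sum_nonneg fun q _ => hE0 q
    refine (mul_le_mul h5 hBV1 h7 (by positivity)).trans ?_
    have h8 : (2 : ℝ) ^ 34 ≤ L ^ 7 := by
      calc (2 : ℝ) ^ 34 ≤ 32 ^ 7 := by norm_num
        _ ≤ L ^ 7 := pow_le_pow_left₀ (by norm_num) hL 7
    have h9 : (x / L ^ A) ^ 2 = x ^ 2 / L ^ (2 * A) := by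
      rw [div_pow, ← pow_mul, mul_comm A 2]
    rw [h9, pow_add]
    rw [mul_div_assoc', div_le_div_iff₀ (by positivity) (by positivity)]
    have h10 : (2 : ℝ) ^ 34 * L ^ 33 ≤ L ^ 40 := by
      calc (2 : ℝ) ^ 34 * L ^ 33 ≤ L ^ 7 * L ^ 33 := mul_le_mul_of_nonneg_right h8 (by positivity)
        _ = L ^ 40 := by ring
    calc 2 ^ 34 * x * L ^ 33 * x * L ^ (2 * A) = (x ^ 2 * L ^ (2 * A)) * (2 ^ 34 * L ^ 33) := by ring
      _ ≤ (x ^ 2 * L ^ (2 * A)) * L ^ 40 := mul_le_mul_of_nonneg_left h10 (by positivity)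
      _ = x ^ 2 * (L ^ (2 * A) * L ^ 40) := by ring
  have h7 : ∑ q ∈ Icc 1 Q, tau_ERR q ^ 2 * Err ω x q (c q) ≤ x / L ^ A :=
    le_of_sq_le_sq h6 (by positivity)
  exact h1.trans (h2.trans h7)

end Pool.Agent.Helper9.SU
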