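import Pool.Agent.Helper9.SU.St

/-!
# Project SU, module FIN: from the two moments to the theorem
-/

set_option autoImplicit false

noncomputable section

namespace Pool.Agent.Helper9.SU

open Finset ArithmeticFunction
open Pool.Agent.Helper60.GP (IsB JJ II Err)

/-- the pairs which are counted -/
def Gd_FIN (ω : ℝ → ℝ) (x : ℝ) (w a b : ℕ) : Prop :=
  (a * b + 1).Prime ∧ ω (Real.log (((a * b + 1 : ℕ) : ℝ) / x)) ≠ 0 ∧
    ∀ l ∈ Pw w, ¬ (l : ℤ) ∣ QQ (a : ℤ) b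

open Classical in
/-- the number of `b` for a given `a` -/
def F_FIN (ω : ℝ → ℝ) (x : ℝ) (B w a : ℕ) : ℕ :=
  ((Ioc B (2 * B)).filter (fun b => Gd_FIN ω x w a b)).card

theorem nonprime_FIN {y : ℝ} (hy : 1 ≤ y) :
    ∑ n ∈ (Icc 1 ⌊y⌋₊).filter (fun n => ¬ n.Prime), Λ n ≤ 2 * √y * Real.log y := by
  have h1 := Chebyshev.psi_sub_theta_eq_sum_not_prime y
  have h2 := Chebyshev.psi_sub_theta_le hy
  rw [h1] at h2
  have h3 : Icc 1 ⌊y⌋₊ = Ioc 0 ⌊y⌋₊ := by
    ext n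
    simp [Nat.succ_le_iff]
  rw [h3]
  exact h2

open Classical in
/-- the inner sum of the first moment -/
theorem inner_FIN (ω : ℝ → ℝ) (hω : IsB ω) {x : ℝ} (hx : 1 ≤ x) (B w b : ℕ) (hB : 1 ≤ B)
    (hb : b ∈ Ioc B (2 * B)) :
    ∑ n ∈ (II x).filter (fun n : ℕ => b ∣ n - 1 ∧
      ∀ l ∈ Pw w, ¬ (l : ℤ) ∣ QQ (((n - 1) / b : ℕ) : ℤ) b), Λ n * ω (Real.log (n / x)) ≤
    Real.log (3 * x) * (((Ioc 0 ⌊3 * x / B⌋₊).filter (fun a => Gd_FIN ω x w a b)).card : ℝ) +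
      2 * √(3 * x) * Real.log (3 * x) := by
  classical
  have hx0 : 0 < x := by linarith
  have h3x : 1 ≤ 3 * x := by linarith
  have hlog : 0 ≤ Real.log (3 * x) := Real.log_nonneg h3x
  have hBb := (mem_Ioc.1 hb).1
  have hb0 : 0 < b := by omega
  set S := (II x).filter (fun n : ℕ => b ∣ n - 1 ∧
      ∀ l ∈ Pw w, ¬ (l : ℤ) ∣ QQ (((n - 1) / b : ℕ) : ℤ) b) with hS
  have hSI : ∀ n ∈ S, n ∈ Icc 1 ⌊3 * x⌋₊ := fun n hn => (mem_filter.1 hn).1
  rw [← Finset.sum_filter_add_sum_filter_not S (fun n => n.Prime)]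
  refine add_le_add ?_ ?_
  · -- primes
    set T := (S.filter (fun n => n.Prime)).filter (fun n : ℕ => ω (Real.log (n / x)) ≠ 0) with hT
    have h1 : ∑ n ∈ S.filter (fun n => n.Prime), Λ n * ω (Real.log (n / x)) =
        ∑ n ∈ T, Λ n * ω (Real.log (n / x)) := by
      rw [hT]
      symm
      refine Finset.sum_filter_of_ne ?_
      intro n _ hne h0
      exact hne (by rw [h0, mul_zero])
    have h2 : ∀ n ∈ T, Λ n * ω (Real.log (n / x)) ≤ Real.log (3 * x) := by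
      intro n hn
      have hn' := mem_Icc.1 (hSI n (mem_filter.1 (mem_filter.1 hn).1).1)
      have hn3 : (n : ℝ) ≤ 3 * x := (Nat.le_floor_iff (by linarith)).1 hn'.2
      have hn0 : (0 : ℝ) < n := by exact_mod_cast hn'.1
      have hL : Λ n ≤ Real.log (3 * x) := vonMangoldt_le_log.trans (Real.log_le_log hn0 hn3)
      have hw1 : ω (Real.log (n / x)) ≤ 1 := (hω.le_half _).trans (by norm_num)
      calc Λ n * ω (Real.log (n / x)) ≤ Real.log (3 * x) * 1 :=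
            mul_le_mul hL hw1 (hω.nonneg _) hlog
        _ = _ := mul_one _
    have h3 : T.card ≤ ((Ioc 0 ⌊3 * x / B⌋₊).filter (fun a => Gd_FIN ω x w a b)).card := by
      refine Finset.card_le_card_of_injOn (fun n => (n - 1) / b) ?_ ?_
      · intro n hn
        have hnT : n ∈ T := hn
        have hn1 := mem_filter.1 hnT
        have hn2 := mem_filter.1 hn1.1
        have hn3 := mem_filter.1 hn2.1
        have hn4 := mem_Icc.1 (hSI n hn2.1)
        have hdiv := hn3.2.1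
        obtain ⟨a, ha⟩ := hdiv
        have haq : (n - 1) / b = a := by rw [ha]; exact Nat.mul_div_cancel_left a hb0
        have hn5 : n = a * b + 1 := by
          have : n - 1 = a * b := by rw [ha]; ring
          omega
        have hn6 := hn2.2.two_le
        have ha0 : 0 < a := by
          rcases Nat.eq_zero_or_pos a with h | h
          · exfalso
            rw [h] at hn5
            omega
          · exact h
        refine Finset.mem_coe.2 ?_
        show (n - 1) / b ∈ _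
        rw [haq]
        rw [mem_filter, mem_Ioc]
        refine ⟨⟨ha0, ?_⟩, ?_, ?_, ?_⟩
        · have hB0 : (0 : ℝ) < B := by exact_mod_cast hB
          rw [Nat.le_floor_iff (by positivity), le_div_iff₀ hB0]
          have h7 : (n : ℝ) ≤ 3 * x := (Nat.le_floor_iff (by linarith)).1 hn4.2
          have h8 : (a : ℝ) * B ≤ n := by
            have h9 : a * B ≤ n := by
              calc a * B ≤ a * b := Nat.mul_le_mul_left a hBb.le
                _ ≤ n := by omega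
            exact_mod_cast h9
          linarith
        · rw [← hn5]; exact hn2.2
        · rw [← hn5]; exact hn1.2
        · intro l hl
          have := hn3.2.2 l hl
          rwa [haq] at this
      · intro n hn n' hn' hnn
        have hn1 : n ∈ T := hn
        have hn1' : n' ∈ T := hn'
        have e1 := (mem_filter.1 (mem_filter.1 (mem_filter.1 hn1).1).1).2.1
        have e1' := (mem_filter.1 (mem_filter.1 (mem_filter.1 hn1').1).1).2.1
        have f1 := (mem_filter.1 (mem_filter.1 hn1).1).2.two_le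
        have f1' := (mem_filter.1 (mem_filter.1 hn1').1).2.two_le
        have g1 := Nat.div_mul_cancel e1
        have g1' := Nat.div_mul_cancel e1'
        have hnn' : (n - 1) / b = (n' - 1) / b := hnn
        rw [hnn', g1'] at g1
        omega
    rw [h1]
    calc ∑ n ∈ T, Λ n * ω (Real.log (n / x)) ≤ ∑ _n ∈ T, Real.log (3 * x) :=
          Finset.sum_le_sum h2
      _ = Real.log (3 * x) * T.card := by rw [Finset.sum_const, nsmul_eq_mul]; ring
      _ ≤ _ := mul_le_mul_of_nonneg_left (by exact_mod_cast h3) hlog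
  · -- prime powers
    have h1 : ∑ n ∈ S.filter (fun n => ¬ n.Prime), Λ n * ω (Real.log (n / x)) ≤
        ∑ n ∈ (Icc 1 ⌊3 * x⌋₊).filter (fun n => ¬ n.Prime), Λ n := by
      calc ∑ n ∈ S.filter (fun n => ¬ n.Prime), Λ n * ω (Real.log (n / x))
          ≤ ∑ n ∈ S.filter (fun n => ¬ n.Prime), Λ n := by
            refine Finset.sum_le_sum fun n _ => ?_
            have hw1 : ω (Real.log (n / x)) ≤ 1 := (hω.le_half _).trans (by norm_num)
            calc Λ n * ω (Real.log (n / x)) ≤ Λ n * 1 :=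
                  mul_le_mul_of_nonneg_left hw1 vonMangoldt_nonneg
              _ = Λ n := mul_one _
        _ ≤ _ := by
            refine Finset.sum_le_sum_of_subset_of_nonneg ?_ fun n _ _ => vonMangoldt_nonneg
            intro n hn
            rw [mem_filter] at hn ⊢
            exact ⟨hSI n hn.1, hn.2⟩
    exact h1.trans (nonprime_FIN h3x)

/-- the first moment -/
theorem first_FIN (ω : ℝ → ℝ) (hω : IsB ω) {x : ℝ} (hx : 1 ≤ x) (B w : ℕ) (hB : 1 ≤ B) :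
    S1 ω x B w ≤ Real.log (3 * x) * (∑ a ∈ Ioc 0 ⌊3 * x / B⌋₊, (F_FIN ω x B w a : ℝ)) +
      B * (2 * √(3 * x) * Real.log (3 * x)) := by
  classical
  have h1 : S1 ω x B w ≤ ∑ b ∈ Ioc B (2 * B),
      (Real.log (3 * x) * (((Ioc 0 ⌊3 * x / B⌋₊).filter (fun a => Gd_FIN ω x w a b)).card : ℝ) +
      2 * √(3 * x) * Real.log (3 * x)) := by
    unfold S1
    refine Finset.sum_le_sum fun b hb => ?_
    have h2 := inner_FIN ω hω hx B w b hB hb
    refine le_trans (le_of_eq ?_) h2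
    refine Finset.sum_congr ?_ fun _ _ => rfl
    ext n
    simp only [mem_filter]
  refine h1.trans (le_of_eq ?_)
  rw [Finset.sum_add_distrib, ← Finset.mul_sum, Finset.sum_const, nsmul_eq_mul, Nat.card_Ioc]
  have h3 : 2 * B - B = B := by omega
  rw [h3]
  congr 2
  unfold F_FIN
  have h4 : ∑ b ∈ Ioc B (2 * B),
      (((Ioc 0 ⌊3 * x / B⌋₊).filter (fun a => Gd_FIN ω x w a b)).card : ℝ) =
      ∑ b ∈ Ioc B (2 * B), ∑ a ∈ Ioc 0 ⌊3 * x / B⌋₊, if Gd_FIN ω x w a b then (1 : ℝ) else 0 := by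
    refine Finset.sum_congr rfl fun b _ => ?_
    rw [Finset.card_filter]
    push_cast
    rfl
  have h5 : ∑ a ∈ Ioc 0 ⌊3 * x / B⌋₊,
      (((Ioc B (2 * B)).filter (fun b => Gd_FIN ω x w a b)).card : ℝ) =
      ∑ a ∈ Ioc 0 ⌊3 * x / B⌋₊, ∑ b ∈ Ioc B (2 * B), if Gd_FIN ω x w a b then (1 : ℝ) else 0 := by
    refine Finset.sum_congr rfl fun a _ => ?_
    rw [Finset.card_filter]
    push_cast
    rfl
  rw [h4, h5, Finset.sum_comm]

/-- a counted number is large -/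
theorem big_FIN (ω : ℝ → ℝ) (hsupp : ∀ t, ω t ≠ 0 → 0 < t ∧ t < 1) {x : ℝ} (hx : 0 < x)
    {w a b : ℕ} (h : Gd_FIN ω x w a b) : x < ((a * b + 1 : ℕ) : ℝ) := by
  have h1 := (hsupp _ h.2.1).1
  have h2 : (0 : ℝ) < ((a * b + 1 : ℕ) : ℝ) := by positivity
  have h3 : 1 < ((a * b + 1 : ℕ) : ℝ) / x := by
    by_contra hcon
    rw [not_lt] at hcon
    have := Real.log_nonpos (by positivity) hcon
    linarith
  rwa [one_lt_div hx] at h3

open Classical in
/-- the second moment -/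
theorem second_FIN (ω : ℝ → ℝ) (hsupp : ∀ t, ω t ≠ 0 → 0 < t ∧ t < 1) {x : ℝ} (hx : 0 < x)
    (A B w : ℕ) (hw : (w : ℝ) ≤ x) :
    ∑ a ∈ Ioc 0 A, (F_FIN ω x B w a : ℝ) ^ 2 ≤
      ((((Ioc 0 A) ×ˢ (Ioc B (2 * B)) ×ˢ (Ioc B (2 * B))).filter (fun v : ℕ × ℕ × ℕ =>
        ∀ l ∈ Pw w, 11 ≤ l → ¬ Bad l v)).card : ℝ) := by
  have hbad : ∀ a b, Gd_FIN ω x w a b → ∀ l ∈ Pw w,
      ¬ (l : ℤ) ∣ (a : ℤ) * b + 1 ∧ ¬ (l : ℤ) ∣ QQ (a : ℤ) b := by
    intro a b h l hl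
    refine ⟨?_, h.2.2 l hl⟩
    intro hdiv
    have hl' := mem_filter.1 hl
    have hlw := (mem_Icc.1 hl'.1).2
    have h1 : l ∣ a * b + 1 := by
      have h2 : (l : ℤ) ∣ ((a * b + 1 : ℕ) : ℤ) := by push_cast; exact hdiv
      exact_mod_cast h2
    have h2 := (Nat.prime_dvd_prime_iff_eq hl'.2 h.1).1 h1
    have h3 := big_FIN ω hsupp hx h
    rw [← h2] at h3
    have h4 : (l : ℝ) ≤ w := by exact_mod_cast hlw
    linarith
  have h1 : ∑ a ∈ Ioc 0 A, (F_FIN ω x B w a) ^ 2 ≤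
      (((Ioc 0 A) ×ˢ (Ioc B (2 * B)) ×ˢ (Ioc B (2 * B))).filter (fun v : ℕ × ℕ × ℕ =>
        ∀ l ∈ Pw w, 11 ≤ l → ¬ Bad l v)).card := by
    have h2 : ∀ a, (F_FIN ω x B w a) ^ 2 =
        (((Ioc B (2 * B)).filter (fun b => Gd_FIN ω x w a b)) ×ˢ
          ((Ioc B (2 * B)).filter (fun b => Gd_FIN ω x w a b))).card := by
      intro a
      rw [Finset.card_product]
      unfold F_FIN
      ring
    rw [Finset.sum_congr rfl fun a _ => h2 a, ← Finset.card_sigma]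
    refine Finset.card_le_card_of_injOn (fun v => (v.1, v.2)) ?_ ?_
    · rintro ⟨a, b, b'⟩ hv
      have hv' := Finset.mem_coe.1 hv
      rw [mem_sigma, mem_product, mem_filter, mem_filter] at hv'
      obtain ⟨ha, ⟨hb, hgb⟩, hb', hgb'⟩ := hv'
      refine Finset.mem_coe.2 ?_
      rw [mem_filter, mem_product, mem_product]
      refine ⟨⟨ha, hb, hb'⟩, ?_⟩
      intro l hl _ hbd
      have e1 := hbad a b hgb l hl
      have e2 := hbad a b' hgb' l hl
      rcases hbd with h | h | h | h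
      · exact e1.1 h
      · exact e1.2 h
      · exact e2.1 h
      · exact e2.2 h
    · rintro ⟨a, b, b'⟩ _ ⟨a2, b2, b2'⟩ _ h
      simp only [Prod.mk.injEq] at h
      obtain ⟨rfl, rfl, rfl⟩ := h
      rfl
  have h3 : ((∑ a ∈ Ioc 0 A, (F_FIN ω x B w a) ^ 2 : ℕ) : ℝ) =
      ∑ a ∈ Ioc 0 A, (F_FIN ω x B w a : ℝ) ^ 2 := by push_cast; rfl
  rw [← h3]
  exact_mod_cast h1

/-- Paley-Zygmund -/
theorem pz_FIN (S : Finset ℕ) (F : ℕ → ℝ) (A M Q : ℝ) (hA : 0 < A)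
    (hS : (S.card : ℝ) ≤ A) (hM0 : 0 ≤ M) (hM : M ≤ ∑ a ∈ S, F a)
    (hQ : ∑ a ∈ S, F a ^ 2 ≤ Q) :
    M ^ 2 / 4 ≤ ((S.filter (fun a => M / (2 * A) ≤ F a)).card : ℝ) * Q := by
  classical
  set G := S.filter (fun a => M / (2 * A) ≤ F a) with hG
  have h1 : ∑ a ∈ S.filter (fun a => ¬ M / (2 * A) ≤ F a), F a ≤ M / 2 := by
    calc ∑ a ∈ S.filter (fun a => ¬ M / (2 * A) ≤ F a), F a
        ≤ ∑ _a ∈ S.filter (fun a => ¬ M / (2 * A) ≤ F a), M / (2 * A) :=
          Finset.sum_le_sum fun a ha => (not_le.1 (mem_filter.1 ha).2).le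
      _ = ((S.filter (fun a => ¬ M / (2 * A) ≤ F a)).card : ℝ) * (M / (2 * A)) := by
          rw [Finset.sum_const, nsmul_eq_mul]
      _ ≤ A * (M / (2 * A)) := by
          refine mul_le_mul_of_nonneg_right ?_ (by positivity)
          refine le_trans ?_ hS
          exact_mod_cast Finset.card_le_card (Finset.filter_subset _ _)
      _ = M / 2 := by field_simp
  have h2 : M / 2 ≤ ∑ a ∈ G, F a := by
    have h3 := Finset.sum_filter_add_sum_filter_not S (fun a => M / (2 * A) ≤ F a) F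
    rw [← h3] at hM
    rw [hG]
    linarith
  have h3 : (∑ a ∈ G, F a) ^ 2 ≤ (G.card : ℝ) * ∑ a ∈ G, F a ^ 2 :=
    sq_sum_le_card_mul_sum_sq
  have h4 : ∑ a ∈ G, F a ^ 2 ≤ Q := by
    refine le_trans ?_ hQ
    exact Finset.sum_le_sum_of_subset_of_nonneg (Finset.filter_subset _ _)
      fun a _ _ => sq_nonneg _
  calc M ^ 2 / 4 = (M / 2) ^ 2 := by ring
    _ ≤ (∑ a ∈ G, F a) ^ 2 := pow_le_pow_left₀ (by positivity) h2 2
    _ ≤ (G.card : ℝ) * ∑ a ∈ G, F a ^ 2 := h3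
    _ ≤ (G.card : ℝ) * Q := mul_le_mul_of_nonneg_left h4 (Nat.cast_nonneg _)

/-- integers without small prime factors have few prime factors -/
theorem omega_FIN (w : ℕ) : ∀ m : ℕ, m ≠ 0 → (∀ l : ℕ, l.Prime → l ≤ w → ¬ l ∣ m) →
    (w : ℝ) ^ cardFactors m ≤ m := by
  intro m
  induction m using Nat.recOnMul with
  | zero => intro h; exact absurd rfl h
  | one => intro _ _; simp
  | prime p hp =>
    intro _ h
    rw [cardFactors_apply_prime hp, pow_one]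
    have h1 : w < p := by
      by_contra hcon
      exact h p hp (not_lt.1 hcon) dvd_rfl
    exact_mod_cast h1.le
  | mul a b iha ihb =>
    intro hab h
    have ha : a ≠ 0 := left_ne_zero_of_mul hab
    have hb : b ≠ 0 := right_ne_zero_of_mul hab
    rw [cardFactors_mul ha hb, pow_add]
    push_cast
    have h1 := iha ha fun l hl hlw hd => h l hl hlw (hd.mul_right b)
    have h2 := ihb hb fun l hl hlw hd => h l hl hlw (hd.mul_left a)
    exact mul_le_mul h1 h2 (by positivity) (by positivity)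

/-- from a counted pair to an element of `prs` -/
theorem prs_FIN (ω : ℝ → ℝ) (hsupp : ∀ t, ω t ≠ 0 → 0 < t ∧ t < 1) {x : ℝ} (hx : 0 < x)
    {w a b B R N : ℕ} (_hB : 1 ≤ B) (hb : b ∈ Ioc B (2 * B)) (hxB : 4 * (B : ℝ) ^ 2 ≤ x - 1)
    (hw : 2 ≤ w) (haN : a + 1 ≤ N) (hR : 2 * (N : ℝ) ^ 3 < (w : ℝ) ^ (R + 1))
    (h : Gd_FIN ω x w a b) : b - 1 ∈ prs R (a + 1) := by
  have hbB := mem_Ioc.1 hb
  have h1 := big_FIN ω hsupp hx h
  have hab : 2 * B < a := by
    by_contra hcon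
    rw [not_lt] at hcon
    have h2 : a * b ≤ (2 * B) * (2 * B) := Nat.mul_le_mul hcon hbB.2
    have h3 : ((a * b + 1 : ℕ) : ℝ) ≤ 4 * (B : ℝ) ^ 2 + 1 := by
      have h4 : ((a * b : ℕ) : ℝ) ≤ ((2 * B) * (2 * B) : ℕ) := by exact_mod_cast h2
      push_cast at h4 ⊢
      linarith
    linarith
  obtain ⟨y, hy⟩ : ∃ y, b = y + 1 := ⟨b - 1, by omega⟩
  obtain ⟨z, hz⟩ : ∃ z, a + 1 = z + y := ⟨a + 1 - y, by omega⟩
  have hy0 : 0 < y := by omega
  have hz0 : 0 < z := by omega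
  unfold prs
  rw [mem_filter, mem_Ioo]
  have hsub : a + 1 - (b - 1) = z := by omega
  have hb1 : b - 1 = y := by omega
  rw [hsub, hb1]
  refine ⟨⟨hy0, by omega⟩, ?_, ?_⟩
  · have h2 : z + (a + 1) * y = a * b + 1 := by
      have h3 : (a : ℤ) + 1 = z + y := by exact_mod_cast hz
      have h4 : (b : ℤ) = y + 1 := by exact_mod_cast hy
      have h5 : (z : ℤ) + (a + 1) * y = a * b + 1 := by
        rw [h4]
        linear_combination -h3
      exact_mod_cast h5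
    rw [h2]
    exact h.1
  · set m : ℕ := z ^ 2 + (a + 1) * y ^ 2 with hm
    have hmQ : (m : ℤ) = QQ (a : ℤ) b := by
      have h3 : (a : ℤ) + 1 = z + y := by exact_mod_cast hz
      have h4 : (b : ℤ) = y + 1 := by exact_mod_cast hy
      have h5 : (z : ℤ) = a + 2 - b := by rw [h4]; linear_combination -h3
      rw [hm]
      push_cast
      unfold QQ
      rw [h5, h4]
      ring
    have hm0 : m ≠ 0 := by
      have : 0 < z ^ 2 := by positivity
      omega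
    have h2 := omega_FIN w m hm0 (by
      intro l hl hlw hd
      have h3 : l ∈ Pw w := mem_filter.2 ⟨mem_Icc.2 ⟨hl.one_lt.le, hlw⟩, hl⟩
      apply h.2.2 l h3
      rw [← hmQ]
      exact_mod_cast hd)
    have hmN : (m : ℝ) ≤ 2 * (N : ℝ) ^ 3 := by
      have hN1 : 1 ≤ N := by omega
      have hzN : z ≤ N := by omega
      have hyN : y ≤ N := by omega
      have h3 : m ≤ N ^ 2 + N * N ^ 2 := by
        rw [hm]
        exact Nat.add_le_add (Nat.pow_le_pow_left hzN 2)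
          (Nat.mul_le_mul haN (Nat.pow_le_pow_left hyN 2))
      have h4 : N ^ 2 + N * N ^ 2 ≤ 2 * N ^ 3 := by
        have h5 : N ^ 2 ≤ N ^ 3 := Nat.pow_le_pow_right hN1 (by norm_num)
        calc N ^ 2 + N * N ^ 2 = N ^ 2 + N ^ 3 := by ring
          _ ≤ N ^ 3 + N ^ 3 := by omega
          _ = 2 * N ^ 3 := by ring
      exact_mod_cast h3.trans h4
    by_contra hcon
    rw [not_le] at hcon
    have hw1 : (1 : ℝ) ≤ w := by exact_mod_cast (by omega : 1 ≤ w)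
    have h5 : (w : ℝ) ^ (R + 1) ≤ (w : ℝ) ^ cardFactors m := pow_le_pow_right₀ hw1 hcon
    linarith

theorem card_FIN (ω : ℝ → ℝ) (hsupp : ∀ t, ω t ≠ 0 → 0 < t ∧ t < 1) {x : ℝ} (hx : 0 < x)
    {w a B R N : ℕ} (hB : 1 ≤ B) (hxB : 4 * (B : ℝ) ^ 2 ≤ x - 1)
    (hw : 2 ≤ w) (haN : a + 1 ≤ N) (hR : 2 * (N : ℝ) ^ 3 < (w : ℝ) ^ (R + 1)) :
    F_FIN ω x B w a ≤ (prs R (a + 1)).card := by
  classical
  unfold F_FIN
  refine Finset.card_le_card_of_injOn (fun b => b - 1) ?_ ?_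
  · intro b hb
    have hb' := mem_filter.1 (Finset.mem_coe.1 hb)
    exact Finset.mem_coe.2 (prs_FIN ω hsupp hx hB hb'.1 hxB hw haN hR hb'.2)
  · intro b hb b' hb' hbb
    have h1 := (mem_Ioc.1 (mem_filter.1 (Finset.mem_coe.1 hb)).1).1
    have h2 := (mem_Ioc.1 (mem_filter.1 (Finset.mem_coe.1 hb')).1).1
    have h3 : b - 1 = b' - 1 := hbb
    omega

/-- the part with a fixed `x` -/
theorem core_FIN (ω : ℝ → ℝ) (hω : IsB ω) (hsupp : ∀ t, ω t ≠ 0 → 0 < t ∧ t < 1)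
    {κ C : ℝ} (hκ : 0 < κ) (hC : 0 < C) {x : ℝ} (hx3 : 3 ≤ x)
    (hS : ∀ A B w : ℕ, (w : ℝ) ≤ x → 2 ≤ w → (w : ℝ) ≤ (B : ℝ) ^ κ → B ≤ A →
      ∑ a ∈ Ioc 0 A, (F_FIN ω x B w a : ℝ) ^ 2 ≤ C * (A * B ^ 2) / Real.log w ^ 4)
    {θ β δ c₁ : ℝ} (hθ0 : 0 < θ) (hθ1 : θ < 1) (hβ : 0 < β) (hβ2 : β < 1 / 2) (hδ : 0 < δ)
    (hδ1 : δ ≤ 1) (hδκ : δ ≤ κ * β / 2) (hc₁ : 0 < c₁)
    (hF : c₁ * x / Real.log x ≤ S1 ω x ⌊x ^ β⌋₊ ⌊x ^ δ⌋₊)
    (P3 : 2 ≤ x ^ (β / 2)) (P4 : 2 ≤ x ^ (δ / 2)) (P5 : 5 ≤ x ^ (1 - 2 * β))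
    (P6 : Real.log x ^ 2 ≤ c₁ / 16 * x ^ (1 / 2 - β))
    (P7 : Real.log x ^ 2 ≤ c₁ / 384 * x ^ (β - (1 - β) * θ)) (P8 : 1024 < x)
    {R N : ℕ} (hN : (N : ℝ) = 8 * x ^ (1 - β)) (hN4 : 4 ≤ N) (hR : 8 / δ ≤ R) :
    c₁ ^ 2 * δ ^ 4 / (24576 * C) * N ≤
      (((Icc 1 N).filter (fun n : ℕ => (n : ℝ) ^ θ ≤ ((prs R n).card : ℝ))).card : ℝ) := by
  classical
  have hx0 : 0 < x := by linarith
  have hx1 : 1 ≤ x := by linarith
  have hlogpos : 0 < Real.log x := Real.log_pos (by linarith)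
  set L := Real.log x with hL
  set b : ℝ := x ^ β with hb
  set B : ℕ := ⌊b⌋₊ with hBd
  set w : ℕ := ⌊x ^ δ⌋₊ with hwd
  have hb0 : 0 < b := Real.rpow_pos_of_pos hx0 _
  -- size of B
  have hbsq : b = x ^ (β / 2) * x ^ (β / 2) := by
    rw [← Real.rpow_add hx0]
    rw [hb]
    congr 1
    ring
  have hb4 : 4 ≤ b := by
    rw [hbsq]
    have h1 : (2 : ℝ) * 2 ≤ x ^ (β / 2) * x ^ (β / 2) :=
      mul_le_mul P3 P3 (by norm_num) (by positivity)
    linarith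
  have hBb : (B : ℝ) ≤ b := Nat.floor_le hb0.le
  have hBb1 : b < (B : ℝ) + 1 := Nat.lt_floor_add_one b
  have hB2 : b / 2 ≤ B := by linarith
  have hB0 : (0 : ℝ) < B := by linarith
  have hB1 : 1 ≤ B := by exact_mod_cast (by exact_mod_cast hB0 : 0 < B)
  -- size of w
  have hwsq : x ^ δ = x ^ (δ / 2) * x ^ (δ / 2) := by
    rw [← Real.rpow_add hx0]
    congr 1
    ring
  have hwx : (w : ℝ) ≤ x ^ δ := Nat.floor_le (Real.rpow_pos_of_pos hx0 _).le
  have hwl : x ^ (δ / 2) ≤ w := by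
    have h1 : x ^ δ < (w : ℝ) + 1 := Nat.lt_floor_add_one _
    rw [hwsq] at h1
    have h2 : 2 * x ^ (δ / 2) ≤ x ^ (δ / 2) * x ^ (δ / 2) :=
      mul_le_mul_of_nonneg_right P4 (by positivity)
    linarith
  have hw2 : 2 ≤ w := by exact_mod_cast (P4.trans hwl)
  have hw0 : (0 : ℝ) < w := by linarith
  have hwX : (w : ℝ) ≤ x := by
    refine hwx.trans ?_
    calc x ^ δ ≤ x ^ (1 : ℝ) := Real.rpow_le_rpow_of_exponent_le hx1 hδ1
      _ = x := Real.rpow_one x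
  have hlogw : δ / 2 * L ≤ Real.log w := by
    have h1 := Real.log_le_log (Real.rpow_pos_of_pos hx0 _) hwl
    rwa [Real.log_rpow hx0] at h1
  have hlogw0 : 0 < δ / 2 * L := by positivity
  have hwκ : (w : ℝ) ≤ (B : ℝ) ^ κ := by
    have h1 : x ^ (β / 2) ≤ B := by
      refine le_trans ?_ hB2
      rw [hbsq]
      have h2 : 2 * x ^ (β / 2) ≤ x ^ (β / 2) * x ^ (β / 2) :=
        mul_le_mul_of_nonneg_right P3 (by positivity)
      linarith
    calc (w : ℝ) ≤ x ^ δ := hwx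
      _ ≤ x ^ (κ * β / 2) := Real.rpow_le_rpow_of_exponent_le hx1 hδκ
      _ = (x ^ (β / 2)) ^ κ := by
          rw [← Real.rpow_mul hx0.le]
          congr 1
          ring
      _ ≤ (B : ℝ) ^ κ := Real.rpow_le_rpow (by positivity) h1 hκ.le
  -- size of A
  set A' : ℝ := 3 * x / B with hA'
  set A : ℕ := ⌊A'⌋₊ with hAd
  have hA'0 : 0 < A' := by positivity
  have hAA' : (A : ℝ) ≤ A' := Nat.floor_le hA'0.le
  have hxb : x / b = x ^ (1 - β) := by
    rw [Real.rpow_sub hx0, Real.rpow_one]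
  have hb2 : b * b * 5 ≤ x := by
    have h1 : b * b * x ^ (1 - 2 * β) = x := by
      rw [hb, ← Real.rpow_add hx0, ← Real.rpow_add hx0]
      rw [show β + β + (1 - 2 * β) = 1 by ring, Real.rpow_one]
    calc b * b * 5 ≤ b * b * x ^ (1 - 2 * β) := mul_le_mul_of_nonneg_left P5 (by positivity)
      _ = x := h1
  have hBsq : (B : ℝ) * B ≤ b * b := mul_le_mul hBb hBb hB0.le hb0.le
  have hBA : B ≤ A := by
    rw [hAd, Nat.le_floor_iff hA'0.le, hA', le_div_iff₀ hB0]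
    have h1 := mul_pos hb0 hb0
    linarith
  have hxB : 4 * (B : ℝ) ^ 2 ≤ x - 1 := by
    rw [pow_two]
    have h1 : (4 : ℝ) * 4 ≤ b * b := mul_le_mul hb4 hb4 (by norm_num) hb0.le
    linarith
  have hA'N : A' ≤ 3 / 4 * N := by
    rw [hA', hN, div_le_iff₀ hB0]
    have h1 : x = b * x ^ (1 - β) := by
      rw [← hxb]; field_simp
    have h2 : 0 < x ^ (1 - β) := Real.rpow_pos_of_pos hx0 _
    calc 3 * x = 3 * (b * x ^ (1 - β)) := by rw [← h1]
      _ ≤ 3 * ((2 * B) * x ^ (1 - β)) := by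
          have h3 : b ≤ 2 * B := by linarith
          have h4 := mul_le_mul_of_nonneg_right h3 h2.le
          linarith
      _ = 3 / 4 * (8 * x ^ (1 - β)) * B := by ring
  have hN4' : (4 : ℝ) ≤ N := by exact_mod_cast hN4
  have haN : ∀ a ∈ Ioc 0 A, a + 1 ≤ N := by
    intro a ha
    have h1 : (a : ℝ) ≤ A := by exact_mod_cast (mem_Ioc.1 ha).2
    have h2 : (a : ℝ) + 1 ≤ N := by linarith
    exact_mod_cast h2
  -- first moment
  have hlog3 : Real.log (3 * x) ≤ 2 * L := by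
    rw [Real.log_mul (by norm_num) hx0.ne']
    have : Real.log 3 ≤ L := Real.log_le_log (by norm_num) hx3
    linarith
  have hlog30 : 0 < Real.log (3 * x) := Real.log_pos (by linarith)
  have h1 := first_FIN ω hω hx1 B w hB1
  have hE : (B : ℝ) * (2 * √(3 * x) * Real.log (3 * x)) ≤ c₁ / 2 * x / L := by
    have e1 : √(3 * x) ≤ 2 * x ^ ((1 : ℝ) / 2) := by
      rw [← Real.sqrt_eq_rpow, Real.sqrt_mul (by norm_num)]
      refine mul_le_mul_of_nonneg_right ?_ (Real.sqrt_nonneg _)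
      rw [Real.sqrt_le_left (by norm_num)]
      norm_num
    have e2 : (B : ℝ) * (2 * √(3 * x) * Real.log (3 * x)) ≤
        b * (2 * (2 * x ^ ((1 : ℝ) / 2)) * (2 * L)) := by
      refine mul_le_mul hBb ?_ (by positivity) hb0.le
      refine mul_le_mul ?_ hlog3 hlog30.le (by positivity)
      exact mul_le_mul_of_nonneg_left e1 (by norm_num)
    refine e2.trans ?_
    rw [le_div_iff₀ hlogpos]
    have e3 : b * x ^ ((1 : ℝ) / 2) * x ^ (1 / 2 - β) = x := by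
      rw [hb, ← Real.rpow_add hx0, ← Real.rpow_add hx0]
      rw [show β + 1 / 2 + (1 / 2 - β) = 1 by ring, Real.rpow_one]
    have e4 : 0 < b * x ^ ((1 : ℝ) / 2) := by positivity
    calc b * (2 * (2 * x ^ ((1 : ℝ) / 2)) * (2 * L)) * L = 8 * (b * x ^ ((1 : ℝ) / 2)) * L ^ 2 := by
          ring
      _ ≤ 8 * (b * x ^ ((1 : ℝ) / 2)) * (c₁ / 16 * x ^ (1 / 2 - β)) :=
          mul_le_mul_of_nonneg_left P6 (by positivity)
      _ = c₁ / 2 * (b * x ^ ((1 : ℝ) / 2) * x ^ (1 / 2 - β)) := by ring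
      _ = c₁ / 2 * x := by rw [e3]
  set SF : ℝ := ∑ a ∈ Ioc 0 A, (F_FIN ω x B w a : ℝ) with hSF
  have hSF0 : 0 ≤ SF := Finset.sum_nonneg fun a _ => Nat.cast_nonneg _
  set M : ℝ := c₁ / 4 * x / L ^ 2 with hM
  have hM0 : 0 < M := by positivity
  have hMSF : M ≤ SF := by
    have e1 : c₁ * x / L ≤ Real.log (3 * x) * SF + c₁ / 2 * x / L := by
      refine hF.trans (h1.trans ?_)
      have := hE
      rw [hSF, hAd, hA']
      linarith
    have e2 : Real.log (3 * x) * SF ≤ 2 * L * SF := mul_le_mul_of_nonneg_right hlog3 hSF0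
    have e3 : c₁ * x / L = c₁ / 2 * x / L + 2 * L * M := by
      rw [hM]; field_simp; ring
    have e4 : 2 * L * M ≤ 2 * L * SF := by linarith
    exact le_of_mul_le_mul_left e4 (by positivity)
  -- second moment
  set Q : ℝ := 48 * C * x * B / (δ ^ 4 * L ^ 4) with hQ
  have hQ0 : 0 < Q := by positivity
  have hSQ : ∑ a ∈ Ioc 0 A, (F_FIN ω x B w a : ℝ) ^ 2 ≤ Q := by
    refine (hS A B w hwX hw2 hwκ hBA).trans ?_
    have e1 : C * ((A : ℝ) * B ^ 2) ≤ C * (3 * x * B) := by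
      refine mul_le_mul_of_nonneg_left ?_ hC.le
      calc (A : ℝ) * B ^ 2 ≤ A' * B ^ 2 := mul_le_mul_of_nonneg_right hAA' (by positivity)
        _ = 3 * x * B := by rw [hA']; field_simp
    have e2 : (δ / 2 * L) ^ 4 ≤ Real.log w ^ 4 := pow_le_pow_left₀ hlogw0.le hlogw 4
    calc C * ((A : ℝ) * B ^ 2) / Real.log w ^ 4 ≤ C * (3 * x * B) / (δ / 2 * L) ^ 4 :=
          div_le_div₀ (by positivity) e1 (by positivity) e2
      _ = Q := by rw [hQ]; field_simp; ring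
  -- Paley-Zygmund
  have hpz := pz_FIN (Ioc 0 A) (fun a => (F_FIN ω x B w a : ℝ)) A' M Q hA'0
    (by rw [Nat.card_Ioc]; simpa using hAA') hM0.le hMSF hSQ
  set G := (Ioc 0 A).filter (fun a => M / (2 * A') ≤ (F_FIN ω x B w a : ℝ)) with hG
  have hGN : c₁ ^ 2 * δ ^ 4 / (24576 * C) * N ≤ (G.card : ℝ) := by
    have e1 : M ^ 2 / 4 / Q ≤ (G.card : ℝ) := by
      rw [div_le_iff₀ hQ0]; exact hpz
    refine le_trans ?_ e1
    have e2 : M ^ 2 / 4 / Q = c₁ ^ 2 * δ ^ 4 / (3072 * C) * (x / B) := by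
      rw [hM, hQ]; field_simp; ring
    rw [e2]
    have e3 : x ^ (1 - β) ≤ x / B := by
      rw [← hxb]
      exact div_le_div_of_nonneg_left hx0.le hB0 hBb
    rw [hN]
    calc c₁ ^ 2 * δ ^ 4 / (24576 * C) * (8 * x ^ (1 - β)) =
          c₁ ^ 2 * δ ^ 4 / (3072 * C) * x ^ (1 - β) := by field_simp; ring
      _ ≤ _ := mul_le_mul_of_nonneg_left e3 (by positivity)
  -- the good numbers
  have hlow : (N : ℝ) ^ θ ≤ M / (2 * A') := by
    have e1 : M / (2 * A') = c₁ / 24 * B / L ^ 2 := by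
      rw [hM, hA']; field_simp; ring
    have e2 : (N : ℝ) ^ θ ≤ 8 * x ^ ((1 - β) * θ) := by
      rw [hN, Real.mul_rpow (by norm_num) (by positivity), ← Real.rpow_mul hx0.le]
      refine mul_le_mul_of_nonneg_right ?_ (by positivity)
      calc (8 : ℝ) ^ θ ≤ 8 ^ (1 : ℝ) := Real.rpow_le_rpow_of_exponent_le (by norm_num) hθ1.le
        _ = 8 := Real.rpow_one 8
    rw [e1, le_div_iff₀ (by positivity)]
    have e3 : x ^ ((1 - β) * θ) * x ^ (β - (1 - β) * θ) = b := by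
      rw [hb, ← Real.rpow_add hx0]
      congr 1
      ring
    calc (N : ℝ) ^ θ * L ^ 2 ≤ 8 * x ^ ((1 - β) * θ) * (c₁ / 384 * x ^ (β - (1 - β) * θ)) :=
          mul_le_mul e2 P7 (by positivity) (by positivity)
      _ = c₁ / 48 * (x ^ ((1 - β) * θ) * x ^ (β - (1 - β) * θ)) := by ring
      _ = c₁ / 48 * b := by rw [e3]
      _ ≤ c₁ / 48 * (2 * B) := mul_le_mul_of_nonneg_left (by linarith) (by positivity)
      _ = c₁ / 24 * B := by ring
  have hRw : 2 * (N : ℝ) ^ 3 < (w : ℝ) ^ (R + 1) := by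
    have e1 : (N : ℝ) ^ 3 ≤ 512 * x ^ 3 := by
      have f1 : (N : ℝ) ≤ 8 * x := by
        rw [hN]
        refine mul_le_mul_of_nonneg_left ?_ (by norm_num)
        calc x ^ (1 - β) ≤ x ^ (1 : ℝ) := Real.rpow_le_rpow_of_exponent_le hx1 (by linarith)
          _ = x := Real.rpow_one x
      calc (N : ℝ) ^ 3 ≤ (8 * x) ^ 3 := pow_le_pow_left₀ (by positivity) f1 3
        _ = 512 * x ^ 3 := by ring
    have e2 : x ^ 4 ≤ (w : ℝ) ^ (R + 1) := by
      have f1 : x ^ (4 : ℝ) ≤ (x ^ (δ / 2)) ^ ((R : ℝ) + 1) := by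
        rw [← Real.rpow_mul hx0.le]
        refine Real.rpow_le_rpow_of_exponent_le hx1 ?_
        rw [div_le_iff₀ hδ] at hR
        have h2 : δ / 2 * ((R : ℝ) + 1) = R * δ / 2 + δ / 2 := by ring
        linarith
      have f0 : x ^ (4 : ℝ) = x ^ 4 := by exact_mod_cast Real.rpow_natCast x 4
      calc x ^ 4 = x ^ (4 : ℝ) := f0.symm
        _ ≤ (x ^ (δ / 2)) ^ ((R : ℝ) + 1) := f1
        _ = (x ^ (δ / 2)) ^ (R + 1) := by
            rw [← Real.rpow_natCast]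
            push_cast
            rfl
        _ ≤ (w : ℝ) ^ (R + 1) := pow_le_pow_left₀ (by positivity) hwl _
    have e3 : 1024 * x ^ 3 < x ^ 4 := by
      have h2 : 0 < x ^ 3 := by positivity
      calc 1024 * x ^ 3 < x * x ^ 3 := mul_lt_mul_of_pos_right P8 h2
        _ = x ^ 4 := by ring
    linarith
  refine hGN.trans ?_
  have hcard : G.card ≤ ((Icc 1 N).filter (fun n : ℕ => (n : ℝ) ^ θ ≤ ((prs R n).card : ℝ))).card := by
    refine Finset.card_le_card_of_injOn (fun a => a + 1) ?_ ?_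
    · intro a ha
      have ha' := mem_filter.1 (Finset.mem_coe.1 ha)
      refine Finset.mem_coe.2 (mem_filter.2 ⟨mem_Icc.2 ⟨Nat.le_add_left 1 a, haN a ha'.1⟩, ?_⟩)
      have e1 := card_FIN ω hsupp hx0 hB1 hxB hw2 (haN a ha'.1) hRw
      have e2 : (F_FIN ω x B w a : ℝ) ≤ ((prs R (a + 1)).card : ℝ) := by exact_mod_cast e1
      refine le_trans ?_ (hlow.trans (ha'.2.trans e2))
      refine Real.rpow_le_rpow (by positivity) ?_ hθ0.le
      exact_mod_cast haN a ha'.1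
    · intro a _ a' _ haa
      have : a + 1 = a' + 1 := haa
      omega
  exact_mod_cast hcard

theorem hFin (hF : StFirst) (hS : StSec) (hBu : Pool.Agent.Helper60.GP.StBump) : StFin := by
  intro θ hθ0 hθ1
  obtain ⟨ω, hω, hJ, hsupp⟩ := hBu 1 one_pos
  set θ' : ℝ := (1 + θ) / 2 with hθ'
  have hθ'1 : θ' < 1 := by rw [hθ']; linarith
  have hθθ' : θ < θ' := by rw [hθ']; linarith
  have hθ'0 : 0 < θ' := by linarith
  set β : ℝ := θ' / (1 + θ') with hβd
  have h1θ' : 0 < 1 + θ' := by linarith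
  have hβ : 0 < β := by positivity
  have hβ2 : β < 1 / 2 := by
    rw [hβd, div_lt_div_iff₀ h1θ' (by norm_num)]
    linarith
  have h1β : 1 - β = 1 / (1 + θ') := by
    rw [hβd]; field_simp; ring
  have hβθ : 0 < β - (1 - β) * θ := by
    rw [h1β, hβd]
    have : θ' / (1 + θ') - 1 / (1 + θ') * θ = (θ' - θ) / (1 + θ') := by field_simp
    rw [this]
    exact div_pos (by linarith) h1θ'
  obtain ⟨δ₁, hδ₁, hF1⟩ := hF ω hω hJ β hβ hβ2
  obtain ⟨κ, C, hκ, hC, hS1⟩ := hS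
  set δ : ℝ := min δ₁ (min (κ * β / 2) 1) with hδd
  have hδ : 0 < δ := lt_min hδ₁ (lt_min (by positivity) one_pos)
  have hδ1 : δ ≤ 1 := (min_le_right _ _).trans (min_le_right _ _)
  have hδκ : δ ≤ κ * β / 2 := (min_le_right _ _).trans (min_le_left _ _)
  obtain ⟨c₁, x₀, hc₁, hF2⟩ := hF1 δ hδ (min_le_left _ _)
  -- the map `N ↦ x`
  set X : ℕ → ℝ := fun N => ((N : ℝ) / 8) ^ (1 + θ') with hX
  have hXlim : Filter.Tendsto X Filter.atTop Filter.atTop := by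
    refine (tendsto_rpow_atTop h1θ').comp ?_
    exact Filter.Tendsto.atTop_div_const (by norm_num) tendsto_natCast_atTop_atTop
  have hpow : ∀ s : ℝ, 0 < s → ∀ K : ℝ, ∀ᶠ x : ℝ in Filter.atTop, K ≤ x ^ s := fun s hs K =>
    (tendsto_rpow_atTop hs).eventually_ge_atTop K
  have hlogp : ∀ s : ℝ, 0 < s → ∀ K : ℝ, 0 < K → ∀ᶠ x : ℝ in Filter.atTop,
      Real.log x ^ 2 ≤ K * x ^ s := by
    intro s hs K hK
    have e1 := (isLittleO_log_rpow_atTop (r := s / 2) (by positivity)).bound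
      (c := √K) (Real.sqrt_pos.2 hK)
    filter_upwards [e1, Filter.eventually_ge_atTop (1 : ℝ)] with x hx hx1
    have hx0 : 0 < x := by linarith
    rw [Real.norm_of_nonneg (Real.log_nonneg hx1), Real.norm_of_nonneg (by positivity)] at hx
    calc Real.log x ^ 2 ≤ (√K * x ^ (s / 2)) ^ 2 := pow_le_pow_left₀ (Real.log_nonneg hx1) hx 2
      _ = K * x ^ s := by
          rw [mul_pow, Real.sq_sqrt hK.le, ← Real.rpow_natCast, ← Real.rpow_mul hx0.le]
          congr 2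
          push_cast
          ring
  have hev : ∀ᶠ x : ℝ in Filter.atTop, x₀ ≤ x ∧ 1024 < x ∧ 2 ≤ x ^ (β / 2) ∧ 2 ≤ x ^ (δ / 2) ∧
      5 ≤ x ^ (1 - 2 * β) ∧ Real.log x ^ 2 ≤ c₁ / 16 * x ^ (1 / 2 - β) ∧
      Real.log x ^ 2 ≤ c₁ / 384 * x ^ (β - (1 - β) * θ) := by
    filter_upwards [Filter.eventually_ge_atTop x₀, Filter.eventually_gt_atTop (1024 : ℝ),
      hpow (β / 2) (by positivity) 2, hpow (δ / 2) (by positivity) 2,
      hpow (1 - 2 * β) (by linarith) 5, hlogp (1 / 2 - β) (by linarith) (c₁ / 16) (by positivity),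
      hlogp (β - (1 - β) * θ) hβθ (c₁ / 384) (by positivity)] with x a1 a2 a3 a4 a5 a6 a7
    exact ⟨a1, a2, a3, a4, a5, a6, a7⟩
  obtain ⟨N₀, hN₀⟩ := Filter.eventually_atTop.1 ((hXlim.eventually hev).and
    (Filter.eventually_ge_atTop 4))
  refine ⟨c₁ ^ 2 * δ ^ 4 / (24576 * C), by positivity, ⌈8 / δ⌉₊, N₀, fun N hN => ?_⟩
  obtain ⟨⟨a1, a2, a3, a4, a5, a6, a7⟩, hN4⟩ := hN₀ N hN
  set x : ℝ := X N with hx
  have hx0 : 0 < x := by linarith
  refine core_FIN ω hω hsupp hκ hC (x := x) (by linarith) ?_ hθ0 hθ1 hβ hβ2 hδ hδ1 hδκ hc₁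
    (hF2 x a1) a3 a4 a5 a6 a7 a2 ?_ hN4 (Nat.le_ceil _)
  · intro A B w hwx hw hwB hBA
    exact (second_FIN ω hsupp hx0 A B w hwx).trans (hS1 A B w hw hwB hBA)
  · rw [hx, hX]
    simp only
    rw [← Real.rpow_mul (by positivity), h1β]
    rw [mul_one_div_cancel h1θ'.ne', Real.rpow_one]
    ring

end Pool.Agent.Helper9.SU
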