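import Pool.Agent.Helper9.SU.St

/-!
# Project SU (MP_5e9b96_nt), module FIRST: the first moment
-/

set_option autoImplicit false

noncomputable section

namespace Pool.Agent.Helper9.SU

open Finset ArithmeticFunction
open Pool.Agent.Helper60.GP (IsB JJ II Err)
open Pool.Agent.Helper15.AB (Th)
open Pool.Agent.Helper18.TR (fam0 fam1)

/-- the sum of the errors for `b` and `d` -/
def EE_FIRST (ω : ℝ → ℝ) (x : ℝ) (b d : ℕ) : ℝ :=
  ∑ r ∈ (range d).filter (fun r : ℕ => (d : ℤ) ∣ QQ r b ∧ Nat.Coprime (r * b + 1) (b * d)),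
    Err ω x (b * d) ((r : ℤ) * b + 1)

theorem EE_nonneg_FIRST (ω : ℝ → ℝ) (x : ℝ) (b d : ℕ) : 0 ≤ EE_FIRST ω x b d :=
  Finset.sum_nonneg fun _ _ => abs_nonneg _

theorem Pw_prime_FIRST {w l : ℕ} (h : l ∈ Pw w) : l.Prime ∧ l ≤ w := by
  unfold Pw at h
  rw [mem_filter, mem_Icc] at h
  exact ⟨h.2, h.1.2⟩

theorem memF_FIRST {α : Type} {P : α → Prop} {i : DecidablePred P} {s : Finset α} {a : α}
    (h : a ∈ @Finset.filter α P i s) : a ∈ s := (Finset.mem_filter.1 h).1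

theorem fam_sub_FIRST {w u : ℕ} {Q T : Finset ℕ} (h : T ∈ fam0 w u Q ∪ fam1 w u Q) : T ⊆ Q := by
  rw [mem_union] at h
  rcases h with h | h
  · exact Finset.mem_powerset.1 (memF_FIRST h)
  · exact Finset.mem_powerset.1 (memF_FIRST h)

theorem hh_bounds_FIRST (hK : StKap) (b l : ℕ) (hl : l.Prime) :
    0 ≤ hh b l ∧ hh b l ≤ 3 / l ∧ hh b l ≤ 1 / 2 := by
  obtain ⟨h1, h2, -, -⟩ := hK l hl
  have hl0 : (0 : ℝ) < l := by exact_mod_cast hl.pos
  have hl2 : (2 : ℝ) ≤ l := by exact_mod_cast hl.two_le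
  unfold hh
  by_cases h3 : l ≤ 3
  · rw [h2 h3 b]
    simp only [Nat.cast_zero, zero_div]
    refine ⟨le_rfl, by positivity, by norm_num⟩
  · have h5 : (5 : ℝ) ≤ l := by
      have : 5 ≤ l := by
        by_contra hc
        have h4 : l = 4 := by omega
        rw [h4] at hl
        exact absurd hl (by decide)
      exact_mod_cast this
    have hk : (kap l b : ℝ) ≤ 2 := by exact_mod_cast h1 b
    have hk0 : (0 : ℝ) ≤ kap l b := Nat.cast_nonneg _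
    have hden : (l : ℝ) - 1 ≤ if l ∣ b then (l : ℝ) else (l : ℝ) - 1 := by
      split_ifs <;> linarith
    have hden0 : 0 < if l ∣ b then (l : ℝ) else (l : ℝ) - 1 := by linarith
    have h6 : (kap l b : ℝ) / (if l ∣ b then (l : ℝ) else (l : ℝ) - 1) ≤ 2 / ((l : ℝ) - 1) := by
      apply div_le_div₀ (by norm_num) hk (by linarith) hden
    refine ⟨div_nonneg hk0 hden0.le, h6.trans ?_, h6.trans ?_⟩
    · rw [div_le_div_iff₀ (by linarith) hl0]
      linarith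
    · rw [div_le_div_iff₀ (by linarith) (by norm_num)]
      linarith

theorem prod_inj_FIRST {F : Finset (Finset ℕ)} (hF : ∀ T ∈ F, ∀ p ∈ T, p.Prime) :
    Set.InjOn (fun T : Finset ℕ => ∏ p ∈ T, p) (F : Set (Finset ℕ)) := by
  intro T hT T' hT' h
  have h1 := Nat.primeFactors_prod (hF T hT)
  have h2 := Nat.primeFactors_prod (hF T' hT')
  rw [← h1, ← h2]
  exact congrArg Nat.primeFactors h

theorem sq_prod_FIRST (T : Finset ℕ) (hT : ∀ p ∈ T, p.Prime) : Squarefree (∏ p ∈ T, p) := by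
  induction T using Finset.induction_on with
  | empty => simp
  | insert p T hp ih =>
    rw [Finset.prod_insert hp]
    have h1 := ih (fun q hq => hT q (Finset.mem_insert_of_mem hq))
    have h2 : Nat.Coprime p (∏ q ∈ T, q) := by
      apply Nat.Coprime.prod_right
      intro q hq
      exact (Nat.coprime_primes (hT p (Finset.mem_insert_self _ _))
        (hT q (Finset.mem_insert_of_mem hq))).2 (fun h => hp (h ▸ hq))
    exact (Nat.squarefree_mul h2).2 ⟨(hT p (Finset.mem_insert_self _ _)).squarefree, h1⟩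

open Classical in
/-- Bonferroni for a fixed `b` -/
theorem lower_FIRST (hB : Pool.Agent.Helper18.TR.StBonf) (u : ℕ) (hu : Even u) (ω : ℝ → ℝ)
    (hω : IsB ω) (x : ℝ) (b w : ℕ) :
    ∑ T ∈ fam0 w u (Pw w) ∪ fam1 w u (Pw w), (-1 : ℝ) ^ T.card *
      ∑ n ∈ (II x).filter (fun n : ℕ => b ∣ n - 1 ∧
          ∀ l ∈ T, (l : ℤ) ∣ QQ (((n - 1) / b : ℕ) : ℤ) b),
        Λ n * ω (Real.log (n / x)) ≤
    ∑ n ∈ (II x).filter (fun n : ℕ => b ∣ n - 1 ∧
      ∀ l ∈ Pw w, ¬ (l : ℤ) ∣ QQ (((n - 1) / b : ℕ) : ℤ) b), Λ n * ω (Real.log (n / x)) := by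
  have e1 : ∀ T : Finset ℕ, ∑ n ∈ (II x).filter (fun n : ℕ => b ∣ n - 1 ∧
      ∀ l ∈ T, (l : ℤ) ∣ QQ (((n - 1) / b : ℕ) : ℤ) b), Λ n * ω (Real.log (n / x)) =
      ∑ n ∈ (II x).filter (fun n : ℕ => b ∣ n - 1), (Λ n * ω (Real.log (n / x))) *
        ∏ l ∈ T, (if (l : ℤ) ∣ QQ (((n - 1) / b : ℕ) : ℤ) b then (1 : ℝ) else 0) := by
    intro T
    rw [← Finset.filter_filter, Finset.sum_filter]
    refine Finset.sum_congr rfl fun n _ => ?_
    rw [Finset.prod_ite_zero, Finset.prod_const_one, mul_ite, mul_one, mul_zero]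
    by_cases h : ∀ l ∈ T, (l : ℤ) ∣ QQ (((n - 1) / b : ℕ) : ℤ) b
    · rw [if_pos h, if_pos h]
    · rw [if_neg h, if_neg h]
  have e2 : ∑ n ∈ (II x).filter (fun n : ℕ => b ∣ n - 1 ∧
      ∀ l ∈ Pw w, ¬ (l : ℤ) ∣ QQ (((n - 1) / b : ℕ) : ℤ) b), Λ n * ω (Real.log (n / x)) =
      ∑ n ∈ (II x).filter (fun n : ℕ => b ∣ n - 1), (Λ n * ω (Real.log (n / x))) *
        ∏ l ∈ Pw w, (1 - (if (l : ℤ) ∣ QQ (((n - 1) / b : ℕ) : ℤ) b then (1 : ℝ) else 0)) := by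
    rw [← Finset.filter_filter, Finset.sum_filter]
    refine Finset.sum_congr rfl fun n _ => ?_
    have h1 : ∏ l ∈ Pw w, (1 - (if (l : ℤ) ∣ QQ (((n - 1) / b : ℕ) : ℤ) b then (1 : ℝ) else 0)) =
        ∏ l ∈ Pw w, (if ¬ (l : ℤ) ∣ QQ (((n - 1) / b : ℕ) : ℤ) b then (1 : ℝ) else 0) := by
      refine Finset.prod_congr rfl fun l _ => ?_
      by_cases h : (l : ℤ) ∣ QQ (((n - 1) / b : ℕ) : ℤ) b
      · rw [if_pos h, if_neg (not_not.2 h), sub_self]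
      · rw [if_neg h, if_pos h, sub_zero]
    rw [h1, Finset.prod_ite_zero, Finset.prod_const_one, mul_ite, mul_one, mul_zero]
  rw [e2]
  simp_rw [e1, Finset.mul_sum]
  rw [Finset.sum_comm]
  refine Finset.sum_le_sum fun n _ => ?_
  have hW : 0 ≤ Λ n * ω (Real.log (n / x)) := mul_nonneg vonMangoldt_nonneg (hω.nonneg _)
  have h3 := (hB w u (Pw w) (fun l => if (l : ℤ) ∣ QQ (((n - 1) / b : ℕ) : ℤ) b then (1 : ℝ) else 0)
    hu (fun l _ => by split_ifs <;> norm_num)).1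
  refine le_trans (le_of_eq ?_) (mul_le_mul_of_nonneg_left h3 hW)
  rw [Finset.mul_sum]
  refine Finset.sum_congr rfl fun T _ => ?_
  ring

theorem sign_FIRST (k : ℕ) (Z M R : ℝ) (h : |Z - M| ≤ R) :
    (-1 : ℝ) ^ k * M - R ≤ (-1 : ℝ) ^ k * Z := by
  have h1 := abs_le.1 h
  rcases neg_one_pow_eq_or ℝ k with h2 | h2 <;> rw [h2] <;> linarith

open Classical in
/-- the lower bound for a fixed `b`, with all errors -/
theorem one_FIRST (hK : StKap) (hL : StLoc) (hB : Pool.Agent.Helper18.TR.StBonf) (u : ℕ)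
    (hu : Even u)
    (hF : ∀ w : ℕ, ∀ Q : Finset ℕ, (∀ p ∈ Q, p.Prime ∧ p ≤ w) → ∀ g : ℕ → ℝ,
      (∀ p ∈ Q, 0 ≤ g p ∧ g p ≤ 3 / p ∧ g p ≤ 1 / 2) →
      (1 - 1 / 2) * ∏ p ∈ Q, (1 - g p) ≤
        ∑ T ∈ fam0 w u Q ∪ fam1 w u Q, (-1 : ℝ) ^ T.card * ∏ p ∈ T, g p)
    (B₀ : ℕ) (hLv : ∀ w : ℕ, 1 ≤ w → ∀ Q : Finset ℕ, (∀ p ∈ Q, p.Prime ∧ p ≤ w) →
      ∀ T ∈ fam0 w u Q ∪ fam1 w u Q, ∏ p ∈ T, p ≤ w ^ B₀)
    (ω : ℝ → ℝ) (hω : IsB ω) (x : ℝ) (hx : 1 ≤ x) (b w D : ℕ) (hb : 1 ≤ b) (hw : 1 ≤ w)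
    (hTh : 0 ≤ Th ω x) (hD : w ^ B₀ ≤ D) :
    Th ω x / (b : ℝ) * (1 / 2 * ∏ l ∈ Pw w, (1 - hh b l)) -
      (∑ d ∈ (Icc 1 D).filter Squarefree, EE_FIRST ω x b d + (w : ℝ) ^ B₀ *
        (w * Real.log (3 * x))) ≤
    ∑ n ∈ (II x).filter (fun n : ℕ => b ∣ n - 1 ∧
      ∀ l ∈ Pw w, ¬ (l : ℤ) ∣ QQ (((n - 1) / b : ℕ) : ℤ) b), Λ n * ω (Real.log (n / x)) := by
  have hPw : ∀ p ∈ Pw w, p.Prime ∧ p ≤ w := fun p hp => Pw_prime_FIRST hp
  have hsub : ∀ T ∈ fam0 w u (Pw w) ∪ fam1 w u (Pw w), T ⊆ Pw w := fun T hT => fam_sub_FIRST hT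
  have hprime : ∀ T ∈ fam0 w u (Pw w) ∪ fam1 w u (Pw w), ∀ p ∈ T, p.Prime :=
    fun T hT p hp => (hPw p (hsub T hT hp)).1
  have hlev := hLv w hw (Pw w) hPw
  have hlog : 0 ≤ Real.log (3 * x) := Real.log_nonneg (by linarith)
  refine le_trans ?_ (lower_FIRST hB u hu ω hω x b w)
  -- main terms and errors
  have h1 : ∀ T ∈ fam0 w u (Pw w) ∪ fam1 w u (Pw w),
      (-1 : ℝ) ^ T.card * (Th ω x / (Nat.totient b : ℝ) * ∏ l ∈ T, hh b l) -
        (EE_FIRST ω x b (∏ p ∈ T, p) + w * Real.log (3 * x)) ≤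
      (-1 : ℝ) ^ T.card * ∑ n ∈ (II x).filter (fun n : ℕ => b ∣ n - 1 ∧
          ∀ l ∈ T, (l : ℤ) ∣ QQ (((n - 1) / b : ℕ) : ℤ) b),
        Λ n * ω (Real.log (n / x)) := by
    intro T hT
    apply sign_FIRST
    refine (hL ω hω x b w T hx hb (hsub T hT)).trans (le_of_eq ?_)
    congr 1
  have h2 := Finset.sum_le_sum h1
  refine le_trans ?_ h2
  rw [Finset.sum_sub_distrib, Finset.sum_add_distrib]
  -- the main term
  have hmain : Th ω x / (b : ℝ) * (1 / 2 * ∏ l ∈ Pw w, (1 - hh b l)) ≤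
      ∑ T ∈ fam0 w u (Pw w) ∪ fam1 w u (Pw w),
        (-1 : ℝ) ^ T.card * (Th ω x / (Nat.totient b : ℝ) * ∏ l ∈ T, hh b l) := by
    have h3 := hF w (Pw w) hPw (fun l => hh b l) (fun p hp => hh_bounds_FIRST hK b p (hPw p hp).1)
    have h4 : ∑ T ∈ fam0 w u (Pw w) ∪ fam1 w u (Pw w),
        (-1 : ℝ) ^ T.card * (Th ω x / (Nat.totient b : ℝ) * ∏ l ∈ T, hh b l) =
        Th ω x / (Nat.totient b : ℝ) * ∑ T ∈ fam0 w u (Pw w) ∪ fam1 w u (Pw w),
          (-1 : ℝ) ^ T.card * ∏ l ∈ T, hh b l := by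
      rw [Finset.mul_sum]
      refine Finset.sum_congr rfl fun T _ => ?_
      ring
    rw [h4]
    have hφ0 : (0 : ℝ) < Nat.totient b := by exact_mod_cast Nat.totient_pos.2 hb
    have hφ : (Nat.totient b : ℝ) ≤ b := by exact_mod_cast Nat.totient_le b
    have h5 : Th ω x / (b : ℝ) ≤ Th ω x / (Nat.totient b : ℝ) :=
      div_le_div_of_nonneg_left hTh hφ0 hφ
    have h6 : 0 ≤ ∏ l ∈ Pw w, (1 - hh b l) := Finset.prod_nonneg fun l hl => by
      have := (hh_bounds_FIRST hK b l (hPw l hl).1).2.2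
      linarith
    have h7 : 0 ≤ Th ω x / (Nat.totient b : ℝ) := div_nonneg hTh hφ0.le
    calc Th ω x / (b : ℝ) * (1 / 2 * ∏ l ∈ Pw w, (1 - hh b l))
        ≤ Th ω x / (Nat.totient b : ℝ) * (1 / 2 * ∏ l ∈ Pw w, (1 - hh b l)) :=
          mul_le_mul_of_nonneg_right h5 (by positivity)
      _ ≤ Th ω x / (Nat.totient b : ℝ) * ∑ T ∈ fam0 w u (Pw w) ∪ fam1 w u (Pw w),
          (-1 : ℝ) ^ T.card * ∏ l ∈ T, hh b l := by
          apply mul_le_mul_of_nonneg_left _ h7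
          refine le_trans (le_of_eq ?_) h3
          norm_num
  -- the errors
  have herr : ∑ T ∈ fam0 w u (Pw w) ∪ fam1 w u (Pw w), EE_FIRST ω x b (∏ p ∈ T, p) ≤
      ∑ d ∈ (Icc 1 D).filter Squarefree, EE_FIRST ω x b d := by
    rw [← Finset.sum_image (g := fun T : Finset ℕ => ∏ p ∈ T, p) (f := fun d => EE_FIRST ω x b d)
      (prod_inj_FIRST hprime)]
    apply Finset.sum_le_sum_of_subset_of_nonneg
    · intro d hd
      rw [Finset.mem_image] at hd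
      obtain ⟨T, hT, rfl⟩ := hd
      rw [Finset.mem_filter, Finset.mem_Icc]
      exact ⟨⟨Finset.prod_pos fun p hp => (hprime T hT p hp).pos, (hlev T hT).trans hD⟩,
        sq_prod_FIRST T (hprime T hT)⟩
    · intro d _ _
      exact EE_nonneg_FIRST ω x b d
  have hcard : ((fam0 w u (Pw w) ∪ fam1 w u (Pw w)).card : ℝ) ≤ (w : ℝ) ^ B₀ := by
    have h8 : (fam0 w u (Pw w) ∪ fam1 w u (Pw w)).card ≤ (Icc 1 (w ^ B₀)).card := by
      apply Finset.card_le_card_of_injOn (fun T : Finset ℕ => ∏ p ∈ T, p)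
      · intro T hT
        rw [Finset.mem_coe, Finset.mem_Icc]
        exact ⟨Finset.prod_pos fun p hp => (hprime T hT p hp).pos, hlev T hT⟩
      · exact prod_inj_FIRST hprime
    rw [Nat.card_Icc, Nat.add_sub_cancel] at h8
    exact_mod_cast h8
  rw [Finset.sum_const, nsmul_eq_mul]
  have h9 : ((fam0 w u (Pw w) ∪ fam1 w u (Pw w)).card : ℝ) * (w * Real.log (3 * x)) ≤
      (w : ℝ) ^ B₀ * (w * Real.log (3 * x)) :=
    mul_le_mul_of_nonneg_right hcard (by positivity)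
  linarith

theorem hFirst (hK : StKap) (hJ : StJen) (hL : StLoc) (hE : StErr)
    (hPNT : Pool.Agent.Helper60.GP.StPNT) (hB : Pool.Agent.Helper18.TR.StBonf)
    (hF : Pool.Agent.Helper18.TR.StFLmain) (hLv : Pool.Agent.Helper18.TR.StLevel) : StFirst := by
  intro ω hω hJJ β hβ0 hβ
  obtain ⟨c, hc, hJ⟩ := hJ
  obtain ⟨u, hu, hF⟩ := hF 3 (1 / 2) (by norm_num) (by norm_num)
  obtain ⟨B₀, hLv⟩ := hLv u
  obtain ⟨g, hg⟩ : ∃ g : ℝ, g = 1 / 2 - β := ⟨_, rfl⟩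
  have hg0 : 0 < g := by rw [hg]; linarith
  have hB1 : (0 : ℝ) < (B₀ : ℝ) + 1 := by positivity
  refine ⟨min β (g / (2 * ((B₀ : ℝ) + 1))), lt_min hβ0 (by positivity), ?_⟩
  intro δ hδ0 hδ
  have hδβ : δ ≤ β := hδ.trans (min_le_left _ _)
  have hδg : δ * ((B₀ : ℝ) + 1) ≤ g / 2 := by
    have h1 := hδ.trans (min_le_right _ _)
    rw [le_div_iff₀ (by positivity)] at h1
    linarith
  obtain ⟨σ, hσ⟩ : ∃ σ : ℝ, σ = δ * ((B₀ : ℝ) + 1) := ⟨_, rfl⟩
  have hσ0 : 0 < σ := by rw [hσ]; positivity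
  rw [← hσ] at hδg
  obtain ⟨x₁, hx₁⟩ := hE ω hω 2 (β + g / 4) σ (by positivity) hσ0 (by linarith)
  obtain ⟨x₂, hx₂⟩ := hPNT ω hω (JJ ω / 2) (by positivity)
  obtain ⟨ε, hε⟩ : ∃ ε : ℝ, ε = c * JJ ω / 32 := ⟨_, rfl⟩
  have hε0 : 0 < ε := by rw [hε]; positivity
  have hev : ∀ᶠ x : ℝ in Filter.atTop, 3 ≤ x ∧ x₁ ≤ x ∧ x₂ ≤ x ∧ 2 ≤ x ^ δ ∧ 2 ≤ x ^ (g / 4) ∧
      128 / ε ≤ x ^ (1 / 4 : ℝ) ∧ 1 / ε ≤ Real.log x := by
    filter_upwards [Filter.eventually_ge_atTop 3, Filter.eventually_ge_atTop x₁,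
      Filter.eventually_ge_atTop x₂, (tendsto_rpow_atTop hδ0).eventually_ge_atTop 2,
      (tendsto_rpow_atTop (by positivity : 0 < g / 4)).eventually_ge_atTop 2,
      (tendsto_rpow_atTop (by norm_num : (0 : ℝ) < 1 / 4)).eventually_ge_atTop (128 / ε),
      Real.tendsto_log_atTop.eventually_ge_atTop (1 / ε)] with x h1 h2 h3 h4 h5 h6 h7
    exact ⟨h1, h2, h3, h4, h5, h6, h7⟩
  obtain ⟨x₀, hx₀⟩ := Filter.eventually_atTop.1 hev
  refine ⟨c * JJ ω / 16, x₀, by positivity, fun x hx => ?_⟩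
  obtain ⟨h3x, hxx₁, hxx₂, hxδ, hxg, hx4, hlx⟩ := hx₀ x hx
  have hx0 : 0 < x := by linarith
  have hx1 : 1 ≤ x := by linarith
  have hlog0 : 0 < Real.log x := lt_of_lt_of_le (by positivity) hlx
  have hErr := hx₁ x hxx₁
  have hTh' := hx₂ x hxx₂
  have hTh : JJ ω * x / 2 ≤ Th ω x := by
    have := (abs_le.1 hTh').1
    linarith
  have hTh0 : 0 ≤ Th ω x := le_trans (by positivity) hTh
  -- the parameters
  obtain ⟨w, hw⟩ : ∃ w : ℕ, w = ⌊x ^ δ⌋₊ := ⟨_, rfl⟩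
  obtain ⟨B, hBd⟩ : ∃ B : ℕ, B = ⌊x ^ β⌋₊ := ⟨_, rfl⟩
  obtain ⟨D, hD⟩ : ∃ D : ℕ, D = ⌊x ^ σ⌋₊ := ⟨_, rfl⟩
  rw [← hw, ← hBd]
  have hw2 : 2 ≤ w := by
    rw [hw]
    exact Nat.le_floor (by exact_mod_cast hxδ)
  have hwx : (w : ℝ) ≤ x ^ δ := by
    rw [hw]
    exact Nat.floor_le (by positivity)
  have hBx : (B : ℝ) ≤ x ^ β := by
    rw [hBd]
    exact Nat.floor_le (by positivity)
  have hwB : w ≤ B := by
    rw [hw, hBd]
    exact Nat.floor_le_floor (Real.rpow_le_rpow_of_exponent_le hx1 hδβ)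
  have hB2 : 2 ≤ B := hw2.trans hwB
  have hxσ : (x ^ δ) ^ (B₀ + 1) = x ^ σ := by
    rw [hσ, ← Real.rpow_natCast, ← Real.rpow_mul hx0.le]
    push_cast
    rfl
  have hwpow : (w : ℝ) ^ (B₀ + 1) ≤ x ^ σ := by
    rw [← hxσ]
    exact pow_le_pow_left₀ (Nat.cast_nonneg _) hwx _
  have hw1R : (1 : ℝ) ≤ w := by
    have : 1 ≤ w := by omega
    exact_mod_cast this
  have hwD : w ^ B₀ ≤ D := by
    rw [hD]
    apply Nat.le_floor
    push_cast
    refine le_trans ?_ hwpow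
    exact pow_le_pow_right₀ hw1R (Nat.le_succ B₀)
  -- sum of the lower bounds
  have hone : ∀ b ∈ Ioc B (2 * B), Th ω x / (2 * B : ℝ) * (1 / 2 * ∏ l ∈ Pw w, (1 - hh b l)) -
      (∑ d ∈ (Icc 1 D).filter Squarefree, EE_FIRST ω x b d + (w : ℝ) ^ B₀ *
        (w * Real.log (3 * x))) ≤
      ∑ n ∈ (II x).filter (fun n : ℕ => b ∣ n - 1 ∧
        ∀ l ∈ Pw w, ¬ (l : ℤ) ∣ QQ (((n - 1) / b : ℕ) : ℤ) b), Λ n * ω (Real.log (n / x)) := by
    intro b hb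
    rw [mem_Ioc] at hb
    have hb1 : 1 ≤ b := by omega
    have h1 := one_FIRST hK hL hB u hu (fun w Q hQ g hg => (hF w Q hQ g hg).2) B₀ hLv ω hω x hx1 b w
      D hb1 (by omega) hTh0 hwD
    have hb0 : (0 : ℝ) < b := by exact_mod_cast (by omega : 0 < b)
    have hb2 : (b : ℝ) ≤ 2 * B := by exact_mod_cast hb.2
    have h2 : Th ω x / (2 * B : ℝ) ≤ Th ω x / (b : ℝ) :=
      div_le_div_of_nonneg_left hTh0 hb0 hb2
    have h3 : 0 ≤ ∏ l ∈ Pw w, (1 - hh b l) := Finset.prod_nonneg fun l hl => by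
      have := (hh_bounds_FIRST hK b l (Pw_prime_FIRST hl).1).2.2
      linarith
    have h4 := mul_le_mul_of_nonneg_right h2 (by positivity : 0 ≤ 1 / 2 * ∏ l ∈ Pw w, (1 - hh b l))
    linarith
  have hS := Finset.sum_le_sum hone
  have hS1 : S1 ω x B w = ∑ b ∈ Ioc B (2 * B), ∑ n ∈ (II x).filter (fun n : ℕ => b ∣ n - 1 ∧
        ∀ l ∈ Pw w, ¬ (l : ℤ) ∣ QQ (((n - 1) / b : ℕ) : ℤ) b), Λ n * ω (Real.log (n / x)) := by
    unfold S1
    refine Finset.sum_congr rfl fun b _ => ?_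
    refine Finset.sum_congr ?_ fun _ _ => rfl
    ext n
    simp only [Finset.mem_filter]
  rw [hS1]
  refine le_trans ?_ hS
  rw [Finset.sum_sub_distrib, Finset.sum_add_distrib, ← Finset.mul_sum, ← Finset.mul_sum,
    Finset.sum_const, nsmul_eq_mul, Nat.card_Ioc]
  have hcB : 2 * B - B = B := by omega
  rw [hcB]
  -- main term
  have hB0 : (0 : ℝ) < B := by exact_mod_cast (by omega : 0 < B)
  have hlogw0 : 0 < Real.log w := Real.log_pos (by exact_mod_cast (by omega : 1 < w))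
  have hlogw : Real.log w ≤ Real.log x := by
    have h1 : Real.log w ≤ Real.log (x ^ δ) := Real.log_le_log (by linarith) hwx
    rw [Real.log_rpow hx0] at h1
    nlinarith
  have hmain : c * JJ ω / 8 * x / Real.log x ≤ Th ω x / (2 * B : ℝ) *
      (1 / 2 * ∑ b ∈ Ioc B (2 * B), ∏ l ∈ Pw w, (1 - hh b l)) := by
    have h1 := hJ w B hw2 hwB
    have h2 : c * B / Real.log x ≤ c * B / Real.log w :=
      div_le_div_of_nonneg_left (by positivity) hlogw0 hlogw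
    calc c * JJ ω / 8 * x / Real.log x
        = (JJ ω * x / 2) / (2 * B : ℝ) * (1 / 2 * (c * B / Real.log x)) := by
          field_simp
          ring
      _ ≤ Th ω x / (2 * B : ℝ) * (1 / 2 * (c * B / Real.log x)) := by
          apply mul_le_mul_of_nonneg_right _ (by positivity)
          exact div_le_div_of_nonneg_right hTh (by positivity)
      _ ≤ Th ω x / (2 * B : ℝ) *
          (1 / 2 * ∑ b ∈ Ioc B (2 * B), ∏ l ∈ Pw w, (1 - hh b l)) := by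
          apply mul_le_mul_of_nonneg_left _ (by positivity)
          linarith
  -- errors in progressions
  have herr : ∑ b ∈ Ioc B (2 * B), ∑ d ∈ (Icc 1 D).filter Squarefree, EE_FIRST ω x b d ≤
      ε * x / Real.log x := by
    have h1 : ∑ b ∈ Ioc B (2 * B), ∑ d ∈ (Icc 1 D).filter Squarefree, EE_FIRST ω x b d ≤
        ∑ b ∈ Icc 1 ⌊x ^ (β + g / 4)⌋₊, ∑ d ∈ (Icc 1 D).filter Squarefree, EE_FIRST ω x b d := by
      apply Finset.sum_le_sum_of_subset_of_nonneg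
      · intro b hb
        rw [mem_Ioc] at hb
        rw [mem_Icc]
        refine ⟨by omega, Nat.le_floor ?_⟩
        have h2 : (b : ℝ) ≤ 2 * B := by exact_mod_cast hb.2
        rw [Real.rpow_add hx0]
        have h4 : 0 ≤ x ^ β := by positivity
        nlinarith
      · intro b _ _
        exact Finset.sum_nonneg fun d _ => EE_nonneg_FIRST ω x b d
    rw [hD] at h1 ⊢
    refine (h1.trans hErr).trans ?_
    rw [div_le_div_iff₀ (by positivity) hlog0]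
    have h5 : 1 ≤ ε * Real.log x := by
      rw [div_le_iff₀ hε0] at hlx
      linarith
    have h6 : 0 ≤ x * Real.log x := by positivity
    nlinarith [mul_le_mul_of_nonneg_left h5 h6]
  -- trivial errors
  have htriv : (B : ℝ) * ((w : ℝ) ^ B₀ * (w * Real.log (3 * x))) ≤ ε * x / Real.log x := by
    have hl3 : Real.log (3 * x) ≤ 2 * Real.log x := by
      rw [Real.log_mul (by norm_num) hx0.ne']
      have := Real.log_le_log (by norm_num : (0 : ℝ) < 3) h3x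
      linarith
    have h1 : (B : ℝ) * ((w : ℝ) ^ B₀ * (w * Real.log (3 * x))) =
        B * (w : ℝ) ^ (B₀ + 1) * Real.log (3 * x) := by ring
    have hl30 : 0 ≤ Real.log (3 * x) := Real.log_nonneg (by linarith)
    have h2 : (B : ℝ) * (w : ℝ) ^ (B₀ + 1) ≤ x ^ (1 / 2 : ℝ) := by
      calc (B : ℝ) * (w : ℝ) ^ (B₀ + 1) ≤ x ^ β * x ^ σ :=
            mul_le_mul hBx hwpow (by positivity) (by positivity)
        _ = x ^ (β + σ) := (Real.rpow_add hx0 _ _).symm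
        _ ≤ x ^ (1 / 2 : ℝ) := Real.rpow_le_rpow_of_exponent_le hx1 (by linarith)
    have h3 : Real.log x ≤ 8 * x ^ (1 / 8 : ℝ) := by
      have := Real.log_le_rpow_div hx0.le (by norm_num : (0 : ℝ) < 1 / 8)
      linarith
    have h4 : Real.log x ^ 2 ≤ 64 * x ^ (1 / 4 : ℝ) := by
      calc Real.log x ^ 2 ≤ (8 * x ^ (1 / 8 : ℝ)) ^ 2 := pow_le_pow_left₀ hlog0.le h3 2
        _ = 64 * (x ^ (1 / 8 : ℝ) * x ^ (1 / 8 : ℝ)) := by ring
        _ = 64 * x ^ (1 / 4 : ℝ) := by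
            rw [← Real.rpow_add hx0]
            norm_num
    have h5 : x ^ (1 / 2 : ℝ) = x ^ (1 / 4 : ℝ) * x ^ (1 / 4 : ℝ) := by
      rw [← Real.rpow_add hx0]
      norm_num
    have h6 : x = x ^ (1 / 2 : ℝ) * x ^ (1 / 2 : ℝ) := by
      rw [← Real.rpow_add hx0]
      norm_num
    have h7 : 128 ≤ ε * x ^ (1 / 4 : ℝ) := by
      rw [div_le_iff₀ hε0] at hx4
      linarith
    rw [h1, le_div_iff₀ hlog0]
    have h8 : 0 < x ^ (1 / 4 : ℝ) := by positivity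
    have h9 : 0 < x ^ (1 / 2 : ℝ) := by positivity
    calc (B : ℝ) * (w : ℝ) ^ (B₀ + 1) * Real.log (3 * x) * Real.log x
        ≤ x ^ (1 / 2 : ℝ) * (2 * Real.log x) * Real.log x := by
          apply mul_le_mul_of_nonneg_right _ hlog0.le
          exact mul_le_mul h2 hl3 hl30 h9.le
      _ = x ^ (1 / 2 : ℝ) * (2 * Real.log x ^ 2) := by ring
      _ ≤ x ^ (1 / 2 : ℝ) * (128 * x ^ (1 / 4 : ℝ)) := by
          apply mul_le_mul_of_nonneg_left _ h9.le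
          linarith
      _ ≤ x ^ (1 / 2 : ℝ) * (ε * x ^ (1 / 4 : ℝ) * x ^ (1 / 4 : ℝ)) := by
          apply mul_le_mul_of_nonneg_left _ h9.le
          exact mul_le_mul_of_nonneg_right h7 h8.le
      _ = ε * (x ^ (1 / 2 : ℝ) * x ^ (1 / 2 : ℝ)) := by
          rw [mul_assoc ε, ← h5]
          ring
      _ = ε * x := by rw [← h6]
  have hfin : c * JJ ω / 16 * x / Real.log x = c * JJ ω / 8 * x / Real.log x -
      (ε * x / Real.log x + ε * x / Real.log x) := by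
    rw [hε]
    field_simp
    ring
  rw [hfin]
  linarith

end Pool.Agent.Helper9.SU
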