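import Pool.Agent.Helper9.SU.St

/-!
# Project SU (MP_5e9b96_nt), module JEN
-/

set_option autoImplicit false

noncomputable section

namespace Pool.Agent.Helper9.SU

open Finset

lemma per_JEN (f : ℕ → ℕ) (l : ℕ) (hf : ∀ b, f (b + l) = f b) (a : ℕ) :
    ∑ b ∈ Ico a (a + l), f b = ∑ b ∈ range l, f b := by
  induction a with
  | zero => rw [Nat.zero_add, Finset.range_eq_Ico]
  | succ a ih =>
    rw [← ih]
    rcases Nat.eq_zero_or_pos l with h | h
    · subst h; simp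
    · have h1 : ∑ b ∈ Ico a (a + l), f b = f a + ∑ b ∈ Ico (a + 1) (a + l), f b :=
        Finset.sum_eq_sum_Ico_succ_bot (by omega) f
      have h2 : ∑ b ∈ Ico (a + 1) (a + 1 + l), f b =
          ∑ b ∈ Ico (a + 1) (a + l), f b + f (a + l) := by
        have h3 : a + 1 + l = (a + l) + 1 := by ring
        rw [h3, Finset.sum_Ico_succ_top (by omega)]
      rw [h1, h2, hf, add_comm]

lemma pers_JEN (f : ℕ → ℕ) (l : ℕ) (hf : ∀ b, f (b + l) = f b) (a k : ℕ) :
    ∑ b ∈ Ico a (a + k * l), f b = k * ∑ b ∈ range l, f b := by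
  induction k with
  | zero => simp
  | succ k ih =>
    have h1 := Finset.sum_Ico_consecutive f (show a ≤ a + k * l by omega)
      (show a + k * l ≤ a + k * l + l by omega)
    have h2 : a + (k + 1) * l = a + k * l + l := by ring
    rw [h2, ← h1, ih, per_JEN f l hf, add_mul, one_mul]

lemma kapsum_JEN (hK : StKap) {l : ℕ} (hl : l.Prime) (B : ℕ) :
    ∑ b ∈ Ioc B (2 * B), kap l b ≤ (B / l + 1) * (l - 1) := by
  obtain ⟨_, _, h3, h4⟩ := hK l hl
  have h5 : ∑ b ∈ Ioc B (2 * B), kap l b ≤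
      ∑ b ∈ Ico (B + 1) (B + 1 + (B / l + 1) * l), kap l b := by
    refine Finset.sum_le_sum_of_subset ?_
    intro b hb
    rw [Finset.mem_Ioc] at hb
    rw [Finset.mem_Ico]
    have h6 := Nat.lt_mul_div_succ B hl.pos
    have h7 : l * (B / l + 1) = (B / l + 1) * l := by ring
    omega
  rw [pers_JEN (kap l) l h3] at h5
  exact h5.trans (Nat.mul_le_mul_left _ h4)

lemma hh_nonneg_JEN {l : ℕ} (hl : l.Prime) (b : ℕ) : 0 ≤ hh b l := by
  have h2 : (2 : ℝ) ≤ l := by exact_mod_cast hl.two_le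
  rw [hh]
  refine div_nonneg (Nat.cast_nonneg _) ?_
  split_ifs <;> linarith

lemma hh_le_JEN {l : ℕ} (hl : l.Prime) (b : ℕ) : hh b l ≤ (kap l b : ℝ) / ((l : ℝ) - 1) := by
  have h2 : (2 : ℝ) ≤ l := by exact_mod_cast hl.two_le
  rw [hh]
  refine div_le_div_of_nonneg_left (Nat.cast_nonneg _) (by linarith) ?_
  split_ifs <;> linarith

lemma hh_le2_JEN (hK : StKap) {l : ℕ} (hl : l.Prime) (b : ℕ) : hh b l ≤ 4 / (l : ℝ) := by
  have h2 : (2 : ℝ) ≤ l := by exact_mod_cast hl.two_le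
  have hk : (kap l b : ℝ) ≤ 2 := by exact_mod_cast (hK l hl).1 b
  refine (hh_le_JEN hl b).trans ?_
  rw [div_le_div_iff₀ (by linarith) (by linarith)]
  nlinarith

lemma hh_half_JEN (hK : StKap) {l : ℕ} (hl : l.Prime) (b : ℕ) : hh b l ≤ 1 / 2 := by
  by_cases h3 : l ≤ 3
  · rw [hh, (hK l hl).2.1 h3 b]
    norm_num
  · have h4 : l ≠ 4 := by
      rintro rfl
      exact absurd hl (by norm_num)
    have h5 : (5 : ℝ) ≤ l := by exact_mod_cast (by omega : 5 ≤ l)
    have hk : (kap l b : ℝ) ≤ 2 := by exact_mod_cast (hK l hl).1 b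
    refine (hh_le_JEN hl b).trans ?_
    rw [div_le_div_iff₀ (by linarith) (by norm_num)]
    linarith

lemma exp_JEN {h : ℝ} (h0 : 0 ≤ h) (h1 : h ≤ 1 / 2) : Real.exp (-(h + 2 * h ^ 2)) ≤ 1 - h := by
  have h2 : 0 ≤ h + 2 * h ^ 2 := by positivity
  have h3 := Real.add_one_le_exp (h + 2 * h ^ 2)
  rw [Real.exp_neg, inv_le_comm₀ (Real.exp_pos _) (by linarith)]
  refine le_trans ?_ h3
  rw [inv_le_iff_one_le_mul₀ (by linarith)]
  have h4 : 0 ≤ h ^ 2 * (1 - 2 * h) := mul_nonneg (sq_nonneg _) (by linarith)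
  nlinarith

lemma mer_JEN (hM : Pool.Agent.Helper15.AB.StMT) : ∃ C : ℝ, 0 < C ∧ ∀ w : ℕ, 2 ≤ w →
    ∑ l ∈ Pw w, (1 : ℝ) / l ≤ Real.log (Real.log w) + C := by
  obtain ⟨C, hC0, hC⟩ := hM
  refine ⟨C + 1, by linarith, fun w hw => ?_⟩
  rcases Nat.lt_or_ge w 3 with h | h
  · have hw2 : w = 2 := by omega
    subst hw2
    have h1 : Pw 2 = {2} := by decide
    rw [h1, Finset.sum_singleton]
    have h2 : (0.69 : ℝ) ≤ Real.log 2 := by
      have := Real.log_two_gt_d9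
      linarith
    have h3 := Real.one_sub_inv_le_log_of_pos (show (0 : ℝ) < Real.log 2 by linarith)
    have h4 : (Real.log 2)⁻¹ ≤ (0.69 : ℝ)⁻¹ := inv_anti₀ (by norm_num) h2
    have h5 : (0.69 : ℝ)⁻¹ ≤ 3 / 2 := by norm_num
    push_cast
    linarith
  · have h1 := hC w (by exact_mod_cast h)
    rw [Nat.floor_natCast] at h1
    have h2 := (abs_le.1 h1).2
    rw [Pw]
    linarith

lemma sq_JEN (w : ℕ) : ∑ l ∈ Pw w, (1 : ℝ) / (l : ℝ) ^ 2 ≤ 2 := by
  have h1 := sum_Ioo_inv_sq_le (α := ℝ) 0 (w + 1)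
  have h2 : ∑ l ∈ Pw w, (1 : ℝ) / (l : ℝ) ^ 2 ≤ ∑ i ∈ Ioo 0 (w + 1), ((i : ℝ) ^ 2)⁻¹ := by
    simp only [one_div]
    refine Finset.sum_le_sum_of_subset_of_nonneg ?_ (fun i _ _ => by positivity)
    intro l hl
    rw [Pw, Finset.mem_filter, Finset.mem_Icc] at hl
    rw [Finset.mem_Ioo]
    omega
  refine h2.trans (h1.trans ?_)
  norm_num

theorem hJen (hK : StKap) (hM : Pool.Agent.Helper15.AB.StMT) : StJen := by
  obtain ⟨C, hC0, hC⟩ := mer_JEN hM
  refine ⟨Real.exp (-(C + 65)), Real.exp_pos _, fun w B hw hwB => ?_⟩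
  have hlog : 0 < Real.log w := Real.log_pos (by exact_mod_cast (by omega : 1 < w))
  have hP : ∀ l ∈ Pw w, l.Prime := fun l hl => (Finset.mem_filter.1 hl).2
  have hB0 : (0 : ℝ) ≤ B := Nat.cast_nonneg B
  -- lower bound for the products
  have h1 : ∀ b, Real.exp (-(∑ l ∈ Pw w, (hh b l + 2 * hh b l ^ 2))) ≤
      ∏ l ∈ Pw w, (1 - hh b l) := by
    intro b
    rw [← Finset.sum_neg_distrib, Real.exp_sum]
    exact Finset.prod_le_prod (fun l _ => (Real.exp_pos _).le)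
      (fun l hl => exp_JEN (hh_nonneg_JEN (hP l hl) b) (hh_half_JEN hK (hP l hl) b))
  refine le_trans ?_ (Finset.sum_le_sum fun b _ => h1 b)
  -- the total of the exponents
  have h2 : ∀ l ∈ Pw w, ∑ b ∈ Ioc B (2 * B), (hh b l + 2 * hh b l ^ 2) ≤
      B * (1 / (l : ℝ)) + 1 + 32 * B * (1 / (l : ℝ) ^ 2) := by
    intro l hl
    have hlp := hP l hl
    have hl2 : (2 : ℝ) ≤ l := by exact_mod_cast hlp.two_le
    have h3 : ∑ b ∈ Ioc B (2 * B), hh b l ≤ B / l + 1 := by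
      have h4 : ∑ b ∈ Ioc B (2 * B), hh b l ≤
          (∑ b ∈ Ioc B (2 * B), (kap l b : ℝ)) / ((l : ℝ) - 1) := by
        rw [Finset.sum_div]
        exact Finset.sum_le_sum fun b _ => hh_le_JEN hlp b
      have h5 : (∑ b ∈ Ioc B (2 * B), (kap l b : ℝ)) ≤ ((B : ℝ) / l + 1) * ((l : ℝ) - 1) := by
        have h6 := kapsum_JEN hK hlp B
        have h7 : (((∑ b ∈ Ioc B (2 * B), kap l b : ℕ)) : ℝ) ≤
            (((B / l + 1) * (l - 1) : ℕ) : ℝ) := by exact_mod_cast h6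
        push_cast [Nat.cast_sub hlp.one_le] at h7
        refine h7.trans (mul_le_mul_of_nonneg_right ?_ (by linarith))
        have h8 : (((B / l : ℕ)) : ℝ) ≤ (B : ℝ) / l := Nat.cast_div_le
        linarith
      refine h4.trans ?_
      rw [div_le_iff₀ (by linarith)]
      exact h5
    have h4 : ∑ b ∈ Ioc B (2 * B), hh b l ^ 2 ≤ B * (16 / (l : ℝ) ^ 2) := by
      have h5 : ∀ b ∈ Ioc B (2 * B), hh b l ^ 2 ≤ 16 / (l : ℝ) ^ 2 := by
        intro b _
        have h6 := hh_le2_JEN hK hlp b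
        have h7 := pow_le_pow_left₀ (hh_nonneg_JEN hlp b) h6 2
        rw [div_pow] at h7
        norm_num at h7
        exact h7
      refine (Finset.sum_le_sum h5).trans ?_
      rw [Finset.sum_const, Nat.card_Ioc, nsmul_eq_mul]
      have h6 : 2 * B - B = B := by omega
      rw [h6]
    rw [Finset.sum_add_distrib, ← Finset.mul_sum]
    have e1 : (B : ℝ) * (1 / (l : ℝ)) = B / l := by ring
    have e2 : 32 * (B : ℝ) * (1 / (l : ℝ) ^ 2) = 2 * (B * (16 / (l : ℝ) ^ 2)) := by ring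
    rw [e1, e2]
    linarith
  have h3 : ∑ b ∈ Ioc B (2 * B), ∑ l ∈ Pw w, (hh b l + 2 * hh b l ^ 2) ≤
      B * (Real.log (Real.log w) + C + 65) := by
    rw [Finset.sum_comm]
    refine (Finset.sum_le_sum h2).trans ?_
    rw [Finset.sum_add_distrib, Finset.sum_add_distrib, ← Finset.mul_sum, ← Finset.mul_sum,
      Finset.sum_const, nsmul_eq_mul, mul_one]
    have h4 : ((Pw w).card : ℝ) ≤ B := by
      have h5 : (Pw w).card ≤ w := by
        refine (Finset.card_filter_le _ _).trans ?_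
        rw [Nat.card_Icc]
        omega
      exact_mod_cast h5.trans hwB
    have h5 := mul_le_mul_of_nonneg_left (hC w hw) hB0
    have h6 := mul_le_mul_of_nonneg_left (sq_JEN w) (show (0 : ℝ) ≤ 32 * B by positivity)
    linarith
  -- Jensen
  set m : ℝ := -(Real.log (Real.log w) + C + 65) with hm
  have h4 : ∀ b, Real.exp m * (1 + (-(∑ l ∈ Pw w, (hh b l + 2 * hh b l ^ 2)) - m)) ≤
      Real.exp (-(∑ l ∈ Pw w, (hh b l + 2 * hh b l ^ 2))) := by
    intro b
    have h5 := Real.add_one_le_exp (-(∑ l ∈ Pw w, (hh b l + 2 * hh b l ^ 2)) - m)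
    have h6 : Real.exp (-(∑ l ∈ Pw w, (hh b l + 2 * hh b l ^ 2))) =
        Real.exp m * Real.exp (-(∑ l ∈ Pw w, (hh b l + 2 * hh b l ^ 2)) - m) := by
      rw [← Real.exp_add]
      congr 1
      ring
    rw [h6]
    refine mul_le_mul_of_nonneg_left ?_ (Real.exp_pos _).le
    linarith
  refine le_trans ?_ (Finset.sum_le_sum fun b _ => h4 b)
  rw [← Finset.mul_sum, Finset.sum_add_distrib, Finset.sum_sub_distrib, Finset.sum_neg_distrib,
    Finset.sum_const, Finset.sum_const, Nat.card_Ioc, nsmul_eq_mul, nsmul_eq_mul, mul_one]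
  have h5 : 2 * B - B = B := by omega
  rw [h5]
  have h6 : Real.exp m = Real.exp (-(C + 65)) / Real.log w := by
    rw [hm, show -(Real.log (Real.log w) + C + 65) = -(C + 65) - Real.log (Real.log w) by ring,
      Real.exp_sub, Real.exp_log hlog]
  have h7 : (B : ℝ) ≤ B + (-(∑ b ∈ Ioc B (2 * B), ∑ l ∈ Pw w, (hh b l + 2 * hh b l ^ 2)) -
      B * m) := by
    rw [hm]
    nlinarith
  calc Real.exp (-(C + 65)) * B / Real.log w = Real.exp m * B := by rw [h6]; ring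
    _ ≤ _ := mul_le_mul_of_nonneg_left h7 (Real.exp_pos _).le

end Pool.Agent.Helper9.SU
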