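import Pool.Agent.Helper9.SU.St

/-!
# Project SU, module KAP: the number of classes `kap`
-/

set_option autoImplicit false

noncomputable section

namespace Pool.Agent.Helper9.SU

open Finset

/-- the classes in `ZMod l` -/
def KZ_KAP (l : ℕ) [NeZero l] (b : ZMod l) : Finset (ZMod l) :=
  univ.filter (fun a : ZMod l => (a + 2 - b) ^ 2 + (a + 1) * (b - 1) ^ 2 = 0 ∧ a * b + 1 ≠ 0)

theorem mem_KAP (l : ℕ) [NeZero l] (b a : ZMod l) : a ∈ KZ_KAP l b ↔
    (a + 2 - b) ^ 2 + (a + 1) * (b - 1) ^ 2 = 0 ∧ a * b + 1 ≠ 0 := by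
  unfold KZ_KAP
  rw [mem_filter]
  exact ⟨fun h => h.2, fun h => ⟨mem_univ _, h⟩⟩

theorem cast_inj_KAP {l a b : ℕ} (ha : a < l) (hb : b < l) (h : (a : ZMod l) = (b : ZMod l)) :
    a = b := Nat.ModEq.eq_of_lt_of_lt ((ZMod.natCast_eq_natCast_iff a b l).1 h) ha hb

theorem kap_eq_KAP (l : ℕ) [NeZero l] (b : ℕ) : kap l b = (KZ_KAP l (b : ZMod l)).card := by
  unfold kap
  have hm : ∀ r : ℕ, ((l : ℤ) ∣ QQ r b ∧ ¬ (l : ℤ) ∣ (r : ℤ) * b + 1) ↔
      (r : ZMod l) ∈ KZ_KAP l (b : ZMod l) := by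
    intro r
    rw [mem_KAP, ← ZMod.intCast_zmod_eq_zero_iff_dvd, ← ZMod.intCast_zmod_eq_zero_iff_dvd]
    unfold QQ
    push_cast
    exact Iff.rfl
  refine Finset.card_bij (fun r _ => (r : ZMod l)) ?_ ?_ ?_
  · intro r hr
    rw [mem_filter] at hr
    exact (hm r).1 hr.2
  · intro r hr s hs hrs
    rw [mem_filter, mem_range] at hr hs
    exact cast_inj_KAP hr.1 hs.1 hrs
  · intro a ha
    refine ⟨a.val, ?_, ZMod.natCast_zmod_val a⟩
    rw [mem_filter, mem_range]
    refine ⟨ZMod.val_lt a, (hm a.val).2 ?_⟩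
    rw [ZMod.natCast_zmod_val]
    exact ha

theorem sum_range_KAP (l : ℕ) [NeZero l] (g : ZMod l → ℕ) :
    ∑ b ∈ range l, g (b : ZMod l) = ∑ b : ZMod l, g b := by
  refine Finset.sum_bij (fun (b : ℕ) _ => (b : ZMod l)) ?_ ?_ ?_ ?_
  · intro b _
    exact mem_univ _
  · intro a ha b hb hab
    rw [mem_range] at ha hb
    exact cast_inj_KAP ha hb hab
  · intro b _
    exact ⟨b.val, mem_range.2 (ZMod.val_lt b), ZMod.natCast_zmod_val b⟩
  · intro b _
    rfl

theorem dec2_KAP : ∀ a b : ZMod 2,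
    ¬ ((a + 2 - b) ^ 2 + (a + 1) * (b - 1) ^ 2 = 0 ∧ a * b + 1 ≠ 0) := by decide

theorem dec3_KAP : ∀ a b : ZMod 3,
    ¬ ((a + 2 - b) ^ 2 + (a + 1) * (b - 1) ^ 2 = 0 ∧ a * b + 1 ≠ 0) := by decide

theorem hKap : StKap := by
  intro l hl
  have : Fact l.Prime := ⟨hl⟩
  have : NeZero l := ⟨hl.ne_zero⟩
  refine ⟨?_, ?_, ?_, ?_⟩
  · intro b
    rw [kap_eq_KAP]
    by_contra hcon
    push Not at hcon
    rw [Finset.two_lt_card] at hcon
    obtain ⟨a1, h1, a2, h2, a3, h3, h12, h13, h23⟩ := hcon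
    have e1 := ((mem_KAP l _ a1).1 h1).1
    have e2 := ((mem_KAP l _ a2).1 h2).1
    have e3 := ((mem_KAP l _ a3).1 h3).1
    set c : ZMod l := (b : ZMod l)
    have k1 : (a1 - a2) * (a1 + a2 + (2 * (2 - c) + (c - 1) ^ 2)) = 0 := by
      linear_combination e1 - e2
    have k2 : (a1 - a3) * (a1 + a3 + (2 * (2 - c) + (c - 1) ^ 2)) = 0 := by
      linear_combination e1 - e3
    have k3 := (mul_eq_zero.1 k1).resolve_left (sub_ne_zero.2 h12)
    have k4 := (mul_eq_zero.1 k2).resolve_left (sub_ne_zero.2 h13)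
    apply h23
    linear_combination k3 - k4
  · intro h3 b
    rw [kap_eq_KAP, Finset.card_eq_zero, Finset.eq_empty_iff_forall_notMem]
    intro a ha
    rw [mem_KAP] at ha
    have h2 := hl.two_le
    have hl23 : l = 2 ∨ l = 3 := by omega
    rcases hl23 with h | h
    · subst h
      exact dec2_KAP a _ ha
    · subst h
      exact dec3_KAP a _ ha
  · intro b
    rw [kap_eq_KAP, kap_eq_KAP]
    congr 2
    push_cast
    rw [ZMod.natCast_self, add_zero]
  · have e1 : ∑ b ∈ range l, kap l b = ∑ b : ZMod l, (KZ_KAP l b).card := by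
      rw [← sum_range_KAP l (fun b => (KZ_KAP l b).card)]
      exact Finset.sum_congr rfl fun b _ => kap_eq_KAP l b
    rw [e1, ← Finset.card_sigma]
    have e2 : ((univ : Finset (ZMod l)).erase 0).card = l - 1 := by
      rw [Finset.card_erase_of_mem (mem_univ _), Finset.card_univ, ZMod.card]
    rw [← e2]
    -- facts on the points
    have hpt : ∀ b a : ZMod l, a ∈ KZ_KAP l b → b - 1 ≠ 0 ∧ a + 2 - b ≠ 0 ∧
        ((a + 2 - b) / (b - 1)) ^ 2 + ((a + 2 - b) / (b - 1) + 1) * (b - 1) = 0 := by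
      intro b a ha
      rw [mem_KAP] at ha
      obtain ⟨h1, h2⟩ := ha
      have hb : b - 1 ≠ 0 := by
        intro h0
        have hb1 : b = 1 := sub_eq_zero.1 h0
        subst hb1
        apply h2
        have h3 : (a + 1) ^ 2 = 0 := by linear_combination h1
        have h4 : a + 1 = 0 := by
          rcases pow_eq_zero_iff (two_ne_zero) |>.1 h3 with h
          exact h
        linear_combination h4
      refine ⟨hb, ?_, ?_⟩
      · intro h0
        have h3 : (b - 1) ^ 3 = 0 := by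
          have h4 : a = b - 2 := by linear_combination h0
          rw [h4] at h1
          linear_combination h1
        exact hb ((pow_eq_zero_iff (three_ne_zero)).1 h3)
      · have h5 : (((a + 2 - b) / (b - 1)) ^ 2 + ((a + 2 - b) / (b - 1) + 1) * (b - 1)) *
            (b - 1) ^ 2 = 0 := by
          have h6 : (a + 2 - b) / (b - 1) * (b - 1) = a + 2 - b := div_mul_cancel₀ _ hb
          set t := (a + 2 - b) / (b - 1)
          have h7 : a + 1 = t * (b - 1) + (b - 1) := by rw [h6]; ring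
          calc (t ^ 2 + (t + 1) * (b - 1)) * (b - 1) ^ 2
              = (t * (b - 1)) ^ 2 + (t * (b - 1) + (b - 1)) * (b - 1) ^ 2 := by ring
            _ = 0 := by rw [← h7, h6, h1]
        exact (mul_eq_zero.1 h5).resolve_right (pow_ne_zero 2 hb)
    refine Finset.card_le_card_of_injOn
      (fun v : (_ : ZMod l) × ZMod l => (v.2 + 2 - v.1) / (v.1 - 1)) ?_ ?_
    · rintro ⟨b, a⟩ hv
      have hv' : a ∈ KZ_KAP l b := (mem_sigma.1 hv).2
      obtain ⟨k1, k2, _⟩ := hpt b a hv'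
      exact mem_erase.2 ⟨div_ne_zero k2 k1, mem_univ _⟩
    · rintro ⟨b, a⟩ hv ⟨b', a'⟩ hv' heq
      have hm : a ∈ KZ_KAP l b := (mem_sigma.1 hv).2
      have hm' : a' ∈ KZ_KAP l b' := (mem_sigma.1 hv').2
      obtain ⟨k1, k2, k3⟩ := hpt b a hm
      obtain ⟨k1', k2', k3'⟩ := hpt b' a' hm'
      have heq' : (a + 2 - b) / (b - 1) = (a' + 2 - b') / (b' - 1) := heq
      have h6 : (a + 2 - b) / (b - 1) * (b - 1) = a + 2 - b := div_mul_cancel₀ _ k1
      have h6' : (a' + 2 - b') / (b' - 1) * (b' - 1) = a' + 2 - b' := div_mul_cancel₀ _ k1'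
      have ht0 : (a + 2 - b) / (b - 1) ≠ 0 := div_ne_zero k2 k1
      rw [← heq'] at k3' h6'
      set t := (a + 2 - b) / (b - 1)
      have ht1 : t + 1 ≠ 0 := by
        intro h0
        rw [h0, zero_mul, add_zero] at k3
        exact ht0 ((pow_eq_zero_iff (two_ne_zero)).1 k3)
      have hy : b - 1 = b' - 1 := by
        apply mul_left_cancel₀ ht1
        linear_combination k3 - k3'
      have hbb : b = b' := by linear_combination hy
      subst hbb
      have haa : a = a' := by linear_combination h6' - h6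
      rw [haa]

end Pool.Agent.Helper9.SU
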