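import Pool.Agent.Helper9.SU.St

/-!
# Project SU: module LOC (the local sums)
-/

set_option autoImplicit false

noncomputable section

namespace Pool.Agent.Helper9.SU

open Finset ArithmeticFunction
open Pool.Agent.Helper60.GP (IsB JJ II Err)
open Pool.Agent.Helper15.AB (Th)

private theorem QQ_congr_LOC (m a a' b : ℤ) (h : m ∣ a - a') : m ∣ QQ a b ↔ m ∣ QQ a' b := by
  have e : QQ a b = QQ a' b + (a - a') * (a + a' + 4 - 2 * b + (b - 1) ^ 2) := by
    unfold QQ
    ring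
  rw [e]
  exact (Int.dvd_add_left (h.mul_right _))

private theorem crt2_LOC (m n : ℕ) (hmn : Nat.Coprime m n) (hm : 0 < m) (hn : 0 < n)
    (P Q : ℕ → Prop) [DecidablePred P] [DecidablePred Q] (hP : ∀ r, P (r % m) ↔ P r)
    (hQ : ∀ r, Q (r % n) ↔ Q r) :
    ((range (m * n)).filter (fun r => P r ∧ Q r)).card =
      ((range m).filter P).card * ((range n).filter Q).card := by
  rw [← card_product]
  refine card_bij (fun r _ => (r % m, r % n)) ?_ ?_ ?_
  · intro r hr
    rw [mem_filter] at hr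
    rw [mem_product, mem_filter, mem_filter, mem_range, mem_range]
    exact ⟨⟨Nat.mod_lt _ hm, (hP r).mpr hr.2.1⟩, ⟨Nat.mod_lt _ hn, (hQ r).mpr hr.2.2⟩⟩
  · intro r hr r' hr' h
    rw [mem_filter, mem_range] at hr hr'
    simp only [Prod.mk.injEq] at h
    have h1 : r ≡ r' [MOD m * n] := (Nat.modEq_and_modEq_iff_modEq_mul hmn).mp ⟨h.1, h.2⟩
    exact Nat.ModEq.eq_of_lt_of_lt h1 hr.1 hr'.1
  · rintro ⟨u, v⟩ huv
    rw [mem_product, mem_filter, mem_filter, mem_range, mem_range] at huv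
    obtain ⟨⟨hu, hPu⟩, ⟨hv, hQv⟩⟩ := huv
    obtain ⟨k, hk1, hk2⟩ := Nat.chineseRemainder hmn u v
    refine ⟨k % (m * n), ?_, ?_⟩
    · rw [mem_filter, mem_range]
      refine ⟨Nat.mod_lt _ (Nat.mul_pos hm hn), ?_, ?_⟩
      · rw [← hP, Nat.mod_mod_of_dvd _ (Dvd.intro _ rfl), hk1, Nat.mod_eq_of_lt hu]
        exact hPu
      · rw [← hQ, Nat.mod_mod_of_dvd _ (Dvd.intro_left _ rfl), hk2, Nat.mod_eq_of_lt hv]
        exact hQv
    · simp only [Prod.mk.injEq]
      rw [Nat.mod_mod_of_dvd _ (Dvd.intro _ rfl), Nat.mod_mod_of_dvd _ (Dvd.intro_left _ rfl)]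
      exact ⟨by rw [hk1, Nat.mod_eq_of_lt hu], by rw [hk2, Nat.mod_eq_of_lt hv]⟩

private theorem crt_LOC (P : ℕ → ℕ → Prop) [∀ l, DecidablePred (P l)]
    (hP : ∀ l r, P l (r % l) ↔ P l r) (T : Finset ℕ) (hT : ∀ l ∈ T, l.Prime) :
    ((range (∏ l ∈ T, l)).filter (fun r => ∀ l ∈ T, P l r)).card =
      ∏ l ∈ T, ((range l).filter (P l)).card := by
  induction T using Finset.induction_on with
  | empty => simp
  | insert l T hl ih =>
    have hT' : ∀ l ∈ T, l.Prime := fun l hl => hT l (mem_insert_of_mem hl)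
    have hlp : l.Prime := hT l (mem_insert_self _ _)
    have hcop : Nat.Coprime l (∏ l ∈ T, l) := by
      apply Nat.Coprime.prod_right
      intro l' hl'
      exact (Nat.coprime_primes hlp (hT' l' hl')).mpr (fun h => hl (h ▸ hl'))
    have hpos : 0 < ∏ l ∈ T, l := prod_pos fun l hl => (hT' l hl).pos
    rw [prod_insert hl, prod_insert hl, ← ih hT']
    rw [← crt2_LOC l (∏ l ∈ T, l) hcop hlp.pos hpos (P l) (fun r => ∀ l ∈ T, P l r) (hP l) ?_]
    · congr 1
      ext r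
      simp only [mem_filter, mem_insert, forall_eq_or_imp]
    · intro r
      refine forall₂_congr fun l' hl' => ?_
      rw [← hP l' (r % ∏ l ∈ T, l), Nat.mod_mod_of_dvd _ (dvd_prod_of_mem _ hl'), hP]

private theorem tot_LOC (b : ℕ) (T : Finset ℕ) (hT : ∀ l ∈ T, l.Prime) :
    (Nat.totient (b * ∏ l ∈ T, l) : ℝ) =
      Nat.totient b * ∏ l ∈ T, (if l ∣ b then (l : ℝ) else (l : ℝ) - 1) := by
  induction T using Finset.induction_on with
  | empty => simp
  | insert l T hl ih =>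
    have hT' : ∀ l ∈ T, l.Prime := fun l hl => hT l (mem_insert_of_mem hl)
    have hlp : l.Prime := hT l (mem_insert_self _ _)
    have hcop : Nat.Coprime l (∏ l ∈ T, l) := by
      apply Nat.Coprime.prod_right
      intro l' hl'
      exact (Nat.coprime_primes hlp (hT' l' hl')).mpr (fun h => hl (h ▸ hl'))
    have e : b * ∏ l ∈ insert l T, l = l * (b * ∏ l ∈ T, l) := by
      rw [prod_insert hl]
      ring
    rw [e, prod_insert hl]
    by_cases h : l ∣ b
    · rw [Nat.totient_mul_of_prime_of_dvd hlp (h.mul_right _), if_pos h]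
      push_cast
      rw [ih hT']
      ring
    · have h2 : ¬ l ∣ b * ∏ l ∈ T, l := by
        intro h3
        exact h (Nat.Coprime.dvd_of_dvd_mul_right hcop h3)
      rw [Nat.totient_mul_of_prime_of_not_dvd hlp h2, if_neg h]
      push_cast [Nat.cast_sub hlp.one_le]
      rw [ih hT']
      ring

private theorem prime_dvd_LOC (T : Finset ℕ) (hT : ∀ l ∈ T, l.Prime) (p : ℕ) (hp : p.Prime)
    (h : p ∣ ∏ l ∈ T, l) : p ∈ T := by
  obtain ⟨l, hl, hpl⟩ := (Prime.dvd_finset_prod_iff hp.prime _).mp h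
  rwa [(Nat.prime_dvd_prime_iff_eq hp (hT l hl)).mp hpl]

private theorem prod_dvd_LOC (T : Finset ℕ) (hT : ∀ l ∈ T, l.Prime) (z : ℤ) :
    ((∏ l ∈ T, l : ℕ) : ℤ) ∣ z ↔ ∀ l ∈ T, (l : ℤ) ∣ z := by
  constructor
  · intro h l hl
    exact (Int.natCast_dvd_natCast.mpr (dvd_prod_of_mem (fun l => l) hl)).trans h
  · intro h
    rw [Int.natCast_dvd]
    apply Finset.prod_primes_dvd
    · intro l hl
      exact (hT l hl).prime
    · intro l hl
      exact Int.natCast_dvd.mp (h l hl)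

/-- the sum of `Λ` over the multiples of a prime -/
private theorem lam_LOC (l N : ℕ) (hl : l.Prime) (hN : 1 ≤ N) :
    ∑ n ∈ (Icc 1 N).filter (fun n => l ∣ n), Λ n ≤ Real.log N := by
  have h1 : ∑ n ∈ (Icc 1 N).filter (fun n => l ∣ n), Λ n ≤
      ∑ k ∈ Icc 1 (Nat.log l N), Λ (l ^ k) := by
    have hinj : Set.InjOn (fun k : ℕ => l ^ k) (Icc 1 (Nat.log l N) : Finset ℕ) := by
      intro k _ k' _ h
      exact Nat.pow_right_injective hl.two_le h
    rw [← sum_image (f := fun n => Λ n) hinj]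
    rw [← sum_filter_add_sum_filter_not ((Icc 1 N).filter (fun n => l ∣ n)) (fun n => Λ n = 0)]
    have e0 : ∑ n ∈ ((Icc 1 N).filter (fun n => l ∣ n)).filter (fun n => Λ n = 0), Λ n = 0 :=
      sum_eq_zero fun n hn => (mem_filter.mp hn).2
    rw [e0, zero_add]
    apply sum_le_sum_of_subset_of_nonneg
    · intro n hn
      rw [mem_filter, mem_filter, mem_Icc] at hn
      obtain ⟨⟨⟨hn1, hn2⟩, hln⟩, hne⟩ := hn
      have hne' : Λ n ≠ 0 := hne
      rw [ArithmeticFunction.vonMangoldt_ne_zero_iff, isPrimePow_nat_iff] at hne'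
      obtain ⟨p, k, hp, hk, rfl⟩ := hne'
      have hlp : l = p := (Nat.prime_dvd_prime_iff_eq hl hp).mp (hl.dvd_of_dvd_pow hln)
      subst hlp
      rw [mem_image]
      refine ⟨k, ?_, rfl⟩
      rw [mem_Icc]
      exact ⟨hk, Nat.le_log_of_pow_le hl.one_lt hn2⟩
    · intro n _ _
      exact ArithmeticFunction.vonMangoldt_nonneg
  refine h1.trans ?_
  have h2 : ∀ k ∈ Icc 1 (Nat.log l N), Λ (l ^ k) = Real.log l := by
    intro k hk
    rw [mem_Icc] at hk
    rw [ArithmeticFunction.vonMangoldt_apply_pow (by omega),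
      ArithmeticFunction.vonMangoldt_apply_prime hl]
  rw [sum_congr rfl h2, sum_const, Nat.card_Icc, nsmul_eq_mul, Nat.add_sub_cancel,
    ← Real.log_pow]
  apply Real.log_le_log
  · have := hl.pos
    positivity
  · exact_mod_cast Nat.pow_log_le_self l (by omega)

private theorem memf_LOC (S : Finset ℕ) (P : ℕ → Prop) (inst : DecidablePred P) (n : ℕ) :
    n ∈ @Finset.filter ℕ P inst S ↔ n ∈ S ∧ P n :=
  Finset.mem_filter

/-- LOC. -/
theorem hLoc (hK : StKap) : StLoc := by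
  classical
  intro ω hω x b w T hx hb hTw
  have hT : ∀ l ∈ T, l.Prime := fun l hl => (mem_filter.mp (hTw hl)).2
  obtain ⟨d, hd⟩ : ∃ d : ℕ, d = ∏ l ∈ T, l := ⟨_, rfl⟩
  have hd0 : 0 < d := by rw [hd]; exact prod_pos fun l hl => (hT l hl).pos
  rw [← hd]
  obtain ⟨F, hF⟩ : ∃ F : ℕ → ℝ, F = fun n => Λ n * ω (Real.log (n / x)) := ⟨_, rfl⟩
  have hF0 : ∀ n, 0 ≤ F n := fun n => by
    rw [hF]
    exact mul_nonneg ArithmeticFunction.vonMangoldt_nonneg (hω.nonneg _)
  have hFle : ∀ n, F n ≤ Λ n := fun n => by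
    rw [hF]
    have h1 := hω.le_half (Real.log (n / x))
    have h2 : 0 ≤ Λ n := ArithmeticFunction.vonMangoldt_nonneg
    simp only
    nlinarith
  obtain ⟨A, hA⟩ : ∃ A : Finset ℕ, A = (II x).filter (fun n : ℕ => b ∣ n - 1 ∧
      ∀ l ∈ T, (l : ℤ) ∣ QQ (((n - 1) / b : ℕ) : ℤ) b) := ⟨_, rfl⟩
  have hmA : ∀ n, n ∈ A ↔ n ∈ II x ∧ (b ∣ n - 1 ∧
      ∀ l ∈ T, (l : ℤ) ∣ QQ (((n - 1) / b : ℕ) : ℤ) b) := fun n => by
    rw [hA]
    exact memf_LOC _ _ _ _
  have hAF : ∑ n ∈ (II x).filter (fun n : ℕ => b ∣ n - 1 ∧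
      ∀ l ∈ T, (l : ℤ) ∣ QQ (((n - 1) / b : ℕ) : ℤ) b), Λ n * ω (Real.log (n / x)) =
      ∑ n ∈ A, F n := by rw [hA, hF]
  rw [hAF]
  obtain ⟨R, hR⟩ : ∃ R : Finset ℕ, R = (range d).filter (fun r : ℕ => (d : ℤ) ∣ QQ r b) := ⟨_, rfl⟩
  have hmaps : ∀ n ∈ A, ((n - 1) / b) % d ∈ R := by
    intro n hn
    rw [hmA] at hn
    rw [hR, mem_filter, mem_range]
    refine ⟨Nat.mod_lt _ hd0, ?_⟩
    have h1 : (d : ℤ) ∣ QQ (((n - 1) / b : ℕ) : ℤ) b := by
      rw [hd]
      exact (prod_dvd_LOC T hT _).mpr hn.2.2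
    refine (QQ_congr_LOC d _ _ b ?_).mp h1
    push_cast
    exact ⟨((n - 1 : ℕ) : ℤ) / b / d, by
      have := Int.emod_add_mul_ediv (((n - 1 : ℕ) : ℤ) / b) d
      linarith⟩
  have hfib : ∀ r ∈ R, A.filter (fun n => ((n - 1) / b) % d = r) =
      (II x).filter (fun n : ℕ => ((b * d : ℕ) : ℤ) ∣ (n : ℤ) - ((r : ℤ) * b + 1)) := by
    intro r hr
    rw [hR, mem_filter, mem_range] at hr
    ext n
    rw [mem_filter, hmA, mem_filter]
    constructor
    · rintro ⟨⟨hn, ⟨a, ha⟩, -⟩, hmod⟩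
      refine ⟨hn, ?_⟩
      have hn1 : 1 ≤ n := by
        unfold II at hn
        exact (mem_Icc.mp hn).1
      have hab : (n - 1) / b = a := by
        rw [ha, Nat.mul_div_cancel_left _ (by omega)]
      rw [hab] at hmod
      have e1 : (n : ℤ) - 1 = b * a := by
        have : n = b * a + 1 := by omega
        rw [this]
        push_cast
        ring
      have e2 : (a : ℤ) = r + d * ((a / d : ℕ) : ℤ) := by
        have := Nat.mod_add_div a d
        rw [hmod] at this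
        exact_mod_cast this.symm
      refine ⟨((a / d : ℕ) : ℤ), ?_⟩
      rw [Nat.cast_mul]
      have e3 : (n : ℤ) - ((r : ℤ) * b + 1) = b * a - r * b := by linarith
      rw [e3]
      linear_combination (b : ℤ) * e2
    · rintro ⟨hn, k, hk⟩
      have hn1 : 1 ≤ n := by
        unfold II at hn
        exact (mem_Icc.mp hn).1
      have hb' : (0 : ℤ) < b := by exact_mod_cast hb
      push_cast at hk
      have e1 : (n : ℤ) - 1 = b * (r + d * k) := by linarith
      have e2 : 0 ≤ (r : ℤ) + d * k := by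
        by_contra hneg
        push Not at hneg
        have : (n : ℤ) - 1 < 0 := by
          rw [e1]
          exact mul_neg_of_pos_of_neg hb' hneg
        omega
      obtain ⟨a, ha⟩ : ∃ a : ℕ, (a : ℤ) = (r : ℤ) + d * k := ⟨((r : ℤ) + d * k).toNat, by
        rw [Int.toNat_of_nonneg e2]⟩
      rw [← ha] at e1
      have e3 : n - 1 = b * a := by
        zify [hn1]
        exact e1
      have hab : (n - 1) / b = a := by
        rw [e3, Nat.mul_div_cancel_left _ (by omega)]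
      have hmod : a % d = r := by
        have h1 : (a : ℤ) % d = r := by
          rw [ha, Int.add_mul_emod_self_left]
          exact Int.emod_eq_of_lt (by positivity) (by exact_mod_cast hr.1)
        exact_mod_cast h1
      refine ⟨⟨hn, ⟨a, e3⟩, ?_⟩, by rw [hab]; exact hmod⟩
      rw [hab]
      refine (prod_dvd_LOC T hT _).mp ?_
      rw [← hd]
      refine (QQ_congr_LOC d _ _ b ?_).mp hr.2
      rw [ha]
      exact ⟨-k, by ring⟩
  have hsum : ∑ n ∈ A, F n = ∑ r ∈ R, ∑ n ∈ (II x).filter (fun n : ℕ =>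
      ((b * d : ℕ) : ℤ) ∣ (n : ℤ) - ((r : ℤ) * b + 1)), F n := by
    rw [← sum_fiberwise_of_maps_to hmaps]
    exact sum_congr rfl fun r hr => by rw [hfib r hr]
  obtain ⟨R1, hR1⟩ : ∃ R1 : Finset ℕ, R1 = (range d).filter (fun r : ℕ => (d : ℤ) ∣ QQ r b ∧
      Nat.Coprime (r * b + 1) (b * d)) := ⟨_, rfl⟩
  have hR1' : R.filter (fun r => Nat.Coprime (r * b + 1) (b * d)) = R1 := by
    rw [hR, hR1, filter_filter]
  rw [← hR1]
  -- the number of classes
  have hcop : ∀ r : ℕ, Nat.Coprime (r * b + 1) (b * d) ↔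
      ∀ l ∈ T, ¬ (l : ℤ) ∣ (r : ℤ) * b + 1 := by
    intro r
    have hcast : ∀ l : ℕ, (l : ℤ) ∣ (r : ℤ) * b + 1 ↔ l ∣ r * b + 1 := by
      intro l
      have : ((r : ℤ) * b + 1) = ((r * b + 1 : ℕ) : ℤ) := by push_cast; ring
      rw [this, Int.natCast_dvd_natCast]
    constructor
    · intro h l hl hdvd
      rw [hcast] at hdvd
      have h1 : l ∣ b * d := (by
        rw [hd]
        exact (dvd_prod_of_mem (fun l => l) hl) : l ∣ d).mul_left b
      have h2 := Nat.dvd_gcd hdvd h1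
      rw [h.gcd_eq_one] at h2
      exact (hT l hl).one_lt.ne' (Nat.dvd_one.mp h2)
    · intro h
      apply Nat.Coprime.mul_right
      · have : Nat.gcd (r * b + 1) b = 1 := by
          have h1 : Nat.gcd (r * b + 1) b ∣ 1 := by
            have h2 : Nat.gcd (r * b + 1) b ∣ r * b := (Nat.gcd_dvd_right _ _).mul_left r
            exact (Nat.dvd_add_right h2).mp (Nat.gcd_dvd_left _ _)
          exact Nat.dvd_one.mp h1
        exact this
      · apply Nat.coprime_of_dvd
        intro p hp h1 h2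
        rw [hd] at h2
        exact h p (prime_dvd_LOC T hT p hp h2) ((hcast p).mpr h1)
  have hcard : R1.card = ∏ l ∈ T, kap l b := by
    have h1 := crt_LOC (fun l r => (l : ℤ) ∣ QQ r b ∧ ¬ (l : ℤ) ∣ (r : ℤ) * b + 1) ?_ T hT
    · rw [← hd] at h1
      unfold kap
      rw [← h1, hR1]
      congr 1
      ext r
      rw [mem_filter, mem_filter, hcop r]
      have h2 : (d : ℤ) ∣ QQ r b ↔ ∀ l ∈ T, (l : ℤ) ∣ QQ r b := by
        rw [hd]
        exact prod_dvd_LOC T hT _
      rw [h2]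
      constructor
      · rintro ⟨h3, h4, h5⟩
        exact ⟨h3, fun l hl => ⟨h4 l hl, h5 l hl⟩⟩
      · rintro ⟨h3, h4⟩
        exact ⟨h3, fun l hl => (h4 l hl).1, fun l hl => (h4 l hl).2⟩
    · intro l r
      have hdv : (l : ℤ) ∣ ((r % l : ℕ) : ℤ) - (r : ℤ) := by
        refine ⟨-((r / l : ℕ) : ℤ), ?_⟩
        have := Nat.mod_add_div r l
        have h2 : ((r % l : ℕ) : ℤ) + (l : ℤ) * ((r / l : ℕ) : ℤ) = (r : ℤ) := by exact_mod_cast this
        linarith
      rw [QQ_congr_LOC l _ _ b hdv]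
      have h3 : (l : ℤ) ∣ ((r % l : ℕ) : ℤ) * b + 1 ↔ (l : ℤ) ∣ (r : ℤ) * b + 1 := by
        have e : ((r % l : ℕ) : ℤ) * b + 1 = ((r : ℤ) * b + 1) + (((r % l : ℕ) : ℤ) - r) * b := by ring
        rw [e]
        exact Int.dvd_add_left (hdv.mul_right _)
      rw [h3]
  have hmain : Th ω x / (Nat.totient b : ℝ) * ∏ l ∈ T, hh b l =
      ∑ r ∈ R1, Th ω x / (Nat.totient (b * d) : ℝ) := by
    rw [sum_const, nsmul_eq_mul, hcard]
    have h1 := tot_LOC b T hT
    rw [← hd] at h1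
    rw [h1]
    unfold hh
    rw [prod_div_distrib]
    push_cast
    rw [div_mul_div_comm, mul_div_assoc', mul_comm (Th ω x)]
  rw [hsum, ← sum_filter_add_sum_filter_not R (fun r => Nat.Coprime (r * b + 1) (b * d)), hR1',
    hmain]
  have hE1 : |∑ r ∈ R1, ∑ n ∈ (II x).filter (fun n : ℕ =>
      ((b * d : ℕ) : ℤ) ∣ (n : ℤ) - ((r : ℤ) * b + 1)), F n -
      ∑ r ∈ R1, Th ω x / (Nat.totient (b * d) : ℝ)| ≤
      ∑ r ∈ R1, Err ω x (b * d) ((r : ℤ) * b + 1) := by
    rw [← sum_sub_distrib]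
    refine (abs_sum_le_sum_abs _ _).trans (le_of_eq ?_)
    refine sum_congr rfl fun r _ => ?_
    unfold Pool.Agent.Helper60.GP.Err
    rw [hF]
  have hlog0 : 0 ≤ Real.log (3 * x) := Real.log_nonneg (by linarith)
  have hE2 : ∑ r ∈ R.filter (fun r => ¬ Nat.Coprime (r * b + 1) (b * d)),
      ∑ n ∈ (II x).filter (fun n : ℕ => ((b * d : ℕ) : ℤ) ∣ (n : ℤ) - ((r : ℤ) * b + 1)), F n ≤
      w * Real.log (3 * x) := by
    let G : ℕ → ℝ := fun n => ∑ l ∈ T, if l ∣ n then Λ n else 0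
    have hG0 : ∀ n, 0 ≤ G n := fun n => sum_nonneg fun l _ => by
      split_ifs
      · exact ArithmeticFunction.vonMangoldt_nonneg
      · exact le_rfl
    have hb1 : ∑ r ∈ R.filter (fun r => ¬ Nat.Coprime (r * b + 1) (b * d)),
        ∑ n ∈ (II x).filter (fun n : ℕ => ((b * d : ℕ) : ℤ) ∣ (n : ℤ) - ((r : ℤ) * b + 1)), F n ≤
        ∑ r ∈ R.filter (fun r => ¬ Nat.Coprime (r * b + 1) (b * d)),
        ∑ n ∈ (II x).filter (fun n : ℕ => ((b * d : ℕ) : ℤ) ∣ (n : ℤ) - ((r : ℤ) * b + 1)),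
          G n := by
      refine sum_le_sum fun r hr => sum_le_sum fun n hn => ?_
      rw [mem_filter] at hr hn
      have h1 := hr.2
      rw [hcop] at h1
      push Not at h1
      obtain ⟨l, hl, hdvd⟩ := h1
      have h2 : (l : ℤ) ∣ (n : ℤ) := by
        have h3 : (l : ℤ) ∣ (n : ℤ) - ((r : ℤ) * b + 1) := by
          refine dvd_trans ?_ hn.2
          rw [Int.natCast_dvd_natCast]
          refine Dvd.dvd.mul_left ?_ b
          rw [hd]
          exact dvd_prod_of_mem (fun l => l) hl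
        exact (Int.dvd_iff_dvd_of_dvd_sub h3).mpr hdvd
      have h3 : l ∣ n := Int.natCast_dvd_natCast.mp h2
      refine (hFle n).trans ?_
      have h4 : (if l ∣ n then Λ n else 0) ≤ G n :=
        single_le_sum (f := fun l => if l ∣ n then Λ n else 0) (fun l _ => by
          split_ifs
          · exact ArithmeticFunction.vonMangoldt_nonneg
          · exact le_rfl) hl
      rwa [if_pos h3] at h4
    have hb2 : ∑ r ∈ R.filter (fun r => ¬ Nat.Coprime (r * b + 1) (b * d)),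
        ∑ n ∈ (II x).filter (fun n : ℕ => ((b * d : ℕ) : ℤ) ∣ (n : ℤ) - ((r : ℤ) * b + 1)),
          G n ≤ ∑ n ∈ II x, G n := by
      calc _ ≤ ∑ r ∈ R, ∑ n ∈ (II x).filter (fun n : ℕ =>
            ((b * d : ℕ) : ℤ) ∣ (n : ℤ) - ((r : ℤ) * b + 1)), G n :=
            sum_le_sum_of_subset_of_nonneg (filter_subset _ _) fun r _ _ =>
              sum_nonneg fun n _ => hG0 n
        _ = ∑ r ∈ R, ∑ n ∈ A.filter (fun n => ((n - 1) / b) % d = r), G n :=
            sum_congr rfl fun r hr => by rw [hfib r hr]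
        _ = ∑ n ∈ A, G n := sum_fiberwise_of_maps_to hmaps _
        _ ≤ _ := by
            exact sum_le_sum_of_subset_of_nonneg (fun n hn => ((hmA n).mp hn).1)
              fun n _ _ => hG0 n
    have hb3 : ∑ n ∈ II x, G n ≤ T.card * Real.log (3 * x) := by
      have e1 : ∑ n ∈ II x, G n = ∑ l ∈ T, ∑ n ∈ (II x).filter (fun n => l ∣ n), Λ n := by
        simp only [G]
        rw [sum_comm]
        exact sum_congr rfl fun l _ => (sum_filter _ _).symm
      rw [e1]
      have hN : 1 ≤ ⌊3 * x⌋₊ := Nat.one_le_floor_iff (3 * x) |>.mpr (by linarith)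
      have e2 : ∀ l ∈ T, ∑ n ∈ (II x).filter (fun n => l ∣ n), Λ n ≤ Real.log (3 * x) := by
        intro l hl
        refine (lam_LOC l ⌊3 * x⌋₊ (hT l hl) hN).trans ?_
        apply Real.log_le_log
        · exact_mod_cast hN
        · exact Nat.floor_le (by linarith)
      refine (sum_le_sum e2).trans (le_of_eq ?_)
      rw [sum_const, nsmul_eq_mul]
    have hcardT : (T.card : ℝ) ≤ w := by
      have h1 : T.card ≤ (Icc 1 w).card :=
        card_le_card (hTw.trans (filter_subset _ _))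
      rw [Nat.card_Icc, Nat.add_sub_cancel] at h1
      exact_mod_cast h1
    exact hb1.trans (hb2.trans (hb3.trans (mul_le_mul_of_nonneg_right hcardT hlog0)))
  have hE2' : 0 ≤ ∑ r ∈ R.filter (fun r => ¬ Nat.Coprime (r * b + 1) (b * d)),
      ∑ n ∈ (II x).filter (fun n : ℕ => ((b * d : ℕ) : ℤ) ∣ (n : ℤ) - ((r : ℤ) * b + 1)), F n :=
    sum_nonneg fun r _ => sum_nonneg fun n _ => hF0 n
  rw [add_sub_right_comm]
  refine (abs_add_le _ _).trans (add_le_add hE1 ?_)
  rw [abs_of_nonneg hE2']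
  exact hE2

end Pool.Agent.Helper9.SU
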