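import Pool.Agent.Helper9.SU.St

/-! Module NU of project SU: the density of the bad triples. -/

set_option autoImplicit false

noncomputable section

namespace Pool.Agent.Helper9.SU

open Finset

section field
variable {F : Type} [Field F] [Fintype F] [DecidableEq F]

/-- `QQ` over the field -/
def q_NU (a b : F) : F := (a + 2 - b) ^ 2 + (a + 1) * (b - 1) ^ 2

/-- bad `b` for given `a` -/
def K_NU (a : F) : Finset F := univ.filter (fun b : F => a * b + 1 = 0 ∨ q_NU a b = 0)

theorem K_card_NU (h2 : (2 : F) ≠ 0) (a : F) : #(K_NU a) ≤ 3 := by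
  have h1 : K_NU a ⊆ univ.filter (fun b : F => a * b + 1 = 0) ∪
      univ.filter (fun b : F => q_NU a b = 0) := by
    intro b hb
    simp only [K_NU, mem_filter, mem_univ, true_and] at hb
    simp only [mem_union, mem_filter, mem_univ, true_and]
    exact hb
  have h3 : #(univ.filter (fun b : F => a * b + 1 = 0)) ≤ 1 := by
    rw [Finset.card_le_one]
    intro b hb c hc
    simp only [mem_filter, mem_univ, true_and] at hb hc
    have ha : a ≠ 0 := by
      rintro rfl
      simp at hb
    have : a * (b - c) = 0 := by linear_combination hb - hc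
    rcases mul_eq_zero.1 this with h | h
    · exact absurd h ha
    · exact sub_eq_zero.1 h
  have h4 : #(univ.filter (fun b : F => q_NU a b = 0)) ≤ 2 := by
    rcases (univ.filter (fun b : F => q_NU a b = 0)).eq_empty_or_nonempty with h | ⟨b1, hb1⟩
    · rw [h]
      simp
    · simp only [mem_filter, mem_univ, true_and, q_NU] at hb1
      have hsub : univ.filter (fun b : F => q_NU a b = 0) ⊆
          {b1, (4 * a + 6) / (a + 2) - b1} := by
        intro b hb
        simp only [mem_filter, mem_univ, true_and, q_NU] at hb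
        rw [mem_insert, mem_singleton]
        by_cases hne : b = b1
        · exact Or.inl hne
        · right
          have h5 : (b - b1) * ((a + 2) * (b1 + b) - (4 * a + 6)) = 0 := by
            linear_combination hb - hb1
          have h6 : (a + 2) * (b1 + b) - (4 * a + 6) = 0 := by
            rcases mul_eq_zero.1 h5 with h | h
            · exact absurd (sub_eq_zero.1 h) hne
            · exact h
          have h7 : a + 2 ≠ 0 := by
            intro h
            apply h2
            have : a = -2 := by linear_combination h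
            rw [this] at h6
            linear_combination h6
          rw [eq_sub_iff_add_eq, eq_div_iff h7]
          linear_combination h6
      refine (card_le_card hsub).trans ?_
      exact card_le_two
  calc #(K_NU a) ≤ _ := card_le_card h1
    _ ≤ _ := card_union_le _ _
    _ ≤ 1 + 2 := add_le_add h3 h4
    _ = 3 := rfl

/-- bad pairs -/
def P_NU (F : Type) [Field F] [Fintype F] [DecidableEq F] : Finset (F × F) :=
  univ.filter (fun v : F × F => v.1 * v.2 + 1 = 0 ∨ q_NU v.1 v.2 = 0)

theorem P_sum_NU : #(P_NU F) = ∑ a : F, #(K_NU a) := by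
  have h1 : P_NU F = ((univ : Finset F).sigma (fun a => K_NU a)).map
      ⟨fun x => (x.1, x.2), fun x y h => by
        cases x; cases y
        simp only [Prod.mk.injEq] at h
        obtain ⟨h1, h2⟩ := h
        subst h1; subst h2; rfl⟩ := by
    ext v
    simp only [P_NU, K_NU, mem_filter, mem_univ, true_and, mem_map, mem_sigma,
      Function.Embedding.coeFn_mk]
    constructor
    · intro h
      exact ⟨⟨v.1, v.2⟩, h, rfl⟩
    · rintro ⟨x, hx, rfl⟩
      exact hx
  rw [h1, card_map, card_sigma]

theorem S1_card_NU : #(univ.filter (fun v : F × F => v.1 * v.2 + 1 = 0)) = Fintype.card F - 1 := by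
  have h1 : univ.filter (fun v : F × F => v.1 * v.2 + 1 = 0) =
      (univ.erase (0 : F)).image (fun a => (a, - a⁻¹)) := by
    ext v
    simp only [mem_filter, mem_univ, true_and, mem_image, mem_erase, and_true]
    constructor
    · intro h
      have ha : v.1 ≠ 0 := by
        intro h0
        rw [h0] at h
        simp at h
      refine ⟨v.1, ha, Prod.ext rfl ?_⟩
      show - v.1⁻¹ = v.2
      field_simp
      linear_combination -h
    · rintro ⟨a, ha, rfl⟩
      field_simp
      ring
  rw [h1, card_image_of_injOn, card_erase_of_mem (mem_univ _), card_univ]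
  intro a _ b _ h
  exact (Prod.mk.inj h).1

/-- parametrisation -/
def f_NU (t : F) : F × F := (t * (-t ^ 2 / (t + 1)) + (-t ^ 2 / (t + 1)) - 1, -t ^ 2 / (t + 1) + 1)

theorem f_mem_NU (t : F) (h1 : t + 1 ≠ 0) : q_NU (f_NU t).1 (f_NU t).2 = 0 := by
  unfold q_NU f_NU
  field_simp
  ring

theorem T_card_NU : #((univ.erase (0 : F)).erase (-1)) = Fintype.card F - 2 := by
  rw [card_erase_of_mem, card_erase_of_mem (mem_univ _), card_univ]
  · omega
  · rw [mem_erase]
    refine ⟨?_, mem_univ _⟩
    intro h
    exact one_ne_zero (neg_eq_zero.1 h)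

theorem T_mem_NU (t : F) (ht : t ∈ (univ.erase (0 : F)).erase (-1)) : t ≠ 0 ∧ t + 1 ≠ 0 := by
  rw [mem_erase, mem_erase] at ht
  exact ⟨ht.2.1, fun h => ht.1 (eq_neg_of_add_eq_zero_left h)⟩

theorem f_inj_NU : Set.InjOn (f_NU : F → F × F) ((univ.erase (0 : F)).erase (-1)) := by
  intro t ht u hu h
  obtain ⟨t0, t1⟩ := T_mem_NU t (mem_coe.1 ht)
  obtain ⟨u0, u1⟩ := T_mem_NU u (mem_coe.1 hu)
  unfold f_NU at h
  obtain ⟨h1, h2⟩ := Prod.mk.inj h
  have h3 : -t ^ 2 / (t + 1) = -u ^ 2 / (u + 1) := by linear_combination h2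
  rw [← h3] at h1
  have h4 : (t - u) * (-t ^ 2 / (t + 1)) = 0 := by linear_combination h1
  rcases mul_eq_zero.1 h4 with h5 | h5
  · exact sub_eq_zero.1 h5
  · exfalso
    rw [div_eq_zero_iff] at h5
    rcases h5 with h6 | h6
    · rw [neg_eq_zero] at h6
      exact t0 (pow_eq_zero_iff (by norm_num) |>.1 h6)
    · exact t1 h6

theorem S2_lower_NU : Fintype.card F - 2 ≤ #(univ.filter (fun v : F × F => q_NU v.1 v.2 = 0)) := by
  rw [← T_card_NU, ← card_image_of_injOn f_inj_NU]
  refine card_le_card ?_
  intro v hv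
  obtain ⟨t, ht, rfl⟩ := mem_image.1 hv
  rw [mem_filter]
  exact ⟨mem_univ _, f_mem_NU t (T_mem_NU t ht).2⟩

theorem S2_upper_NU : #(univ.filter (fun v : F × F => q_NU v.1 v.2 = 0)) ≤
    Fintype.card F - 2 + 1 := by
  have hsub : univ.filter (fun v : F × F => q_NU v.1 v.2 = 0) ⊆
      insert (-1, 1) (((univ.erase (0 : F)).erase (-1)).image f_NU) := by
    intro v hv
    simp only [mem_filter, mem_univ, true_and] at hv
    rw [mem_insert, mem_image]
    obtain ⟨a, b⟩ := v
    simp only [q_NU] at hv
    by_cases hy : b - 1 = 0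
    · left
      have hb : b = 1 := by linear_combination hy
      subst hb
      have : (a + 1) ^ 2 = 0 := by linear_combination hv
      have ha : a + 1 = 0 := (pow_eq_zero_iff (by norm_num)).1 this
      rw [eq_neg_of_add_eq_zero_left ha]
    · right
      -- t = x / y
      set y := b - 1 with hydef
      set x := a + 2 - b with hxdef
      have hq : x ^ 2 + (x + y) * y ^ 2 = 0 := by
        rw [hxdef, hydef]
        linear_combination hv
      have hq2 : (x / y) ^ 2 + (x / y + 1) * y = 0 := by
        field_simp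
        linear_combination hq
      have ht0 : x / y ≠ 0 := by
        intro h0
        rw [h0] at hq2
        apply hy
        linear_combination hq2
      have ht1 : x / y + 1 ≠ 0 := by
        intro h1
        rw [h1] at hq2
        have h2 : (x / y) ^ 2 = 0 := by linear_combination hq2
        exact ht0 ((pow_eq_zero_iff (by norm_num)).1 h2)
      refine ⟨x / y, ?_, ?_⟩
      · rw [mem_erase, mem_erase]
        exact ⟨fun h => ht1 (by rw [h]; ring), ht0, mem_univ _⟩
      · have hy2 : -(x / y) ^ 2 / (x / y + 1) = y := by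
          rw [div_eq_iff ht1]
          linear_combination -hq2
        unfold f_NU
        rw [hy2]
        refine Prod.ext ?_ ?_
        · show x / y * y + y - 1 = a
          rw [div_mul_cancel₀ x hy, hxdef, hydef]
          ring
        · show y + 1 = b
          rw [hydef]
          ring
  refine (card_le_card hsub).trans ((card_insert_le _ _).trans ?_)
  have := card_image_le (s := (univ.erase (0 : F)).erase (-1)) (f := f_NU)
  rw [T_card_NU] at this
  omega

theorem inter_NU : #(univ.filter (fun v : F × F => v.1 * v.2 + 1 = 0) ∩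
    univ.filter (fun v : F × F => q_NU v.1 v.2 = 0)) ≤ 2 := by
  have hsub : univ.filter (fun v : F × F => v.1 * v.2 + 1 = 0) ∩
    univ.filter (fun v : F × F => q_NU v.1 v.2 = 0) ⊆
      {((-1 : F), (1 : F)), ((-2 : F), (2 : F)⁻¹)} := by
    intro v hv
    rw [mem_inter, mem_filter, mem_filter] at hv
    obtain ⟨⟨-, h1⟩, -, h2⟩ := hv
    obtain ⟨a, b⟩ := v
    simp only [q_NU] at h1 h2
    rw [mem_insert, mem_singleton, Prod.mk.injEq, Prod.mk.injEq]
    have h3 : (a + 1) * (a + 3 - 2 * b) ^ 2 = 0 := by
      linear_combination (a + 2) * h2 - (a * b + 1) * h1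
    rcases mul_eq_zero.1 h3 with h4 | h4
    · left
      have ha : a = -1 := eq_neg_of_add_eq_zero_left h4
      rw [ha] at h1
      exact ⟨ha, by linear_combination -h1⟩
    · have h5 : a + 3 - 2 * b = 0 := (pow_eq_zero_iff (by norm_num)).1 h4
      have ha : a = 2 * b - 3 := by linear_combination h5
      have h6 : (2 * b - 1) * (b - 1) = 0 := by
        rw [ha] at h1
        linear_combination h1
      rcases mul_eq_zero.1 h6 with h7 | h7
      · right
        have h8 : b * 2 = 1 := by linear_combination h7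
        exact ⟨by rw [ha]; linear_combination h7, eq_inv_of_mul_eq_one_left h8⟩
      · left
        have h8 : b = 1 := by linear_combination h7
        exact ⟨by rw [ha, h8]; ring, h8⟩
  exact (card_le_card hsub).trans card_le_two

theorem P_bounds_NU (hF : 2 ≤ Fintype.card F) :
    2 * Fintype.card F - 5 ≤ #(P_NU F) ∧ #(P_NU F) ≤ 2 * Fintype.card F := by
  have h1 : P_NU F = univ.filter (fun v : F × F => v.1 * v.2 + 1 = 0) ∪
      univ.filter (fun v : F × F => q_NU v.1 v.2 = 0) := by
    unfold P_NU
    rw [filter_or]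
  have h2 := card_union_add_card_inter (univ.filter (fun v : F × F => v.1 * v.2 + 1 = 0))
    (univ.filter (fun v : F × F => q_NU v.1 v.2 = 0))
  rw [← h1, S1_card_NU] at h2
  have h3 := S2_lower_NU (F := F)
  have h4 := S2_upper_NU (F := F)
  have h5 := inter_NU (F := F)
  constructor <;> omega

/-- bad triples -/
def B_NU (F : Type) [Field F] [Fintype F] [DecidableEq F] : Finset (F × F × F) :=
  univ.filter (fun v : F × F × F => v.1 * v.2.1 + 1 = 0 ∨ q_NU v.1 v.2.1 = 0 ∨
    v.1 * v.2.2 + 1 = 0 ∨ q_NU v.1 v.2.2 = 0)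

theorem B_card_NU : #(B_NU F) + ∑ a : F, #(K_NU a) ^ 2 =
    2 * Fintype.card F * ∑ a : F, #(K_NU a) := by
  have h1 : B_NU F = ((univ : Finset F).sigma (fun a => (K_NU a ×ˢ univ) ∪ (univ ×ˢ K_NU a))).map
      ⟨fun x => (x.1, x.2), fun x y h => by
        cases x; cases y
        simp only [Prod.mk.injEq] at h
        obtain ⟨h1, h2⟩ := h
        subst h1; subst h2; rfl⟩ := by
    ext v
    simp only [B_NU, K_NU, mem_filter, mem_univ, true_and, and_true, mem_map, mem_sigma,
      mem_union, mem_product, Function.Embedding.coeFn_mk]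
    constructor
    · intro h
      exact ⟨⟨v.1, v.2⟩, by tauto, rfl⟩
    · rintro ⟨x, hx, rfl⟩
      tauto
  rw [h1, card_map, card_sigma, ← sum_add_distrib, mul_sum]
  refine sum_congr rfl fun a _ => ?_
  have h2 := card_union_add_card_inter (K_NU a ×ˢ (univ : Finset F)) (univ ×ˢ K_NU a)
  rw [product_inter_product, inter_univ, univ_inter, card_product, card_product, card_product,
    card_univ] at h2
  rw [sq, h2]
  ring

end field

theorem hNu : StNu := by
  intro l hl hl11
  classical
  have : Fact l.Prime := ⟨hl⟩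
  have hcard : Fintype.card (ZMod l) = l := ZMod.card l
  have h2 : (2 : ZMod l) ≠ 0 := by
    intro h
    have h' : ((2 : ℕ) : ZMod l) = 0 := by exact_mod_cast h
    rw [ZMod.natCast_eq_zero_iff] at h'
    exact absurd (Nat.le_of_dvd (by norm_num) h') (by omega)
  -- translation
  have hcnt : ((range l ×ˢ range l ×ˢ range l).filter (fun v => Bad l v)).card =
      #(B_NU (ZMod l)) := by
    refine Finset.card_nbij' (fun v => ((v.1 : ZMod l), (v.2.1 : ZMod l), (v.2.2 : ZMod l)))
      (fun v => (v.1.val, v.2.1.val, v.2.2.val)) ?_ ?_ ?_ ?_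
    · intro v hv
      rw [mem_coe, mem_filter] at hv
      have hb := hv.2
      rw [mem_coe]
      simp only [B_NU, mem_filter, mem_univ, true_and]
      unfold Bad QQ at hb
      simp only [← ZMod.intCast_zmod_eq_zero_iff_dvd] at hb
      push_cast at hb
      exact hb
    · intro v hv
      rw [mem_coe] at hv
      simp only [B_NU, mem_filter, mem_univ, true_and] at hv
      rw [mem_coe, mem_filter, mem_product, mem_product, mem_range, mem_range, mem_range]
      refine ⟨⟨ZMod.val_lt _, ZMod.val_lt _, ZMod.val_lt _⟩, ?_⟩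
      unfold Bad QQ
      simp only [← ZMod.intCast_zmod_eq_zero_iff_dvd]
      push_cast
      simp only [ZMod.natCast_val, ZMod.cast_id', id_eq]
      exact hv
    · intro v hv
      rw [mem_coe, mem_filter, mem_product, mem_product, mem_range, mem_range, mem_range] at hv
      refine Prod.ext ?_ (Prod.ext ?_ ?_)
      · exact ZMod.val_cast_of_lt hv.1.1
      · exact ZMod.val_cast_of_lt hv.1.2.1
      · exact ZMod.val_cast_of_lt hv.1.2.2
    · intro v _
      simp
  have hB := B_card_NU (F := ZMod l)
  have hP := P_bounds_NU (F := ZMod l) (by rw [hcard]; omega)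
  rw [P_sum_NU] at hP
  rw [hcard] at hB hP
  have hK : ∑ a : ZMod l, #(K_NU a) ^ 2 ≤ 9 * l := by
    calc ∑ a : ZMod l, #(K_NU a) ^ 2 ≤ ∑ _a : ZMod l, 9 :=
          sum_le_sum fun a _ => by
            have := K_card_NU h2 a
            nlinarith
      _ = 9 * l := by rw [sum_const, card_univ, hcard, smul_eq_mul, mul_comm]
  -- real numbers
  have hl0 : (0 : ℝ) < l := by exact_mod_cast hl.pos
  unfold gg
  rw [hcnt]
  have e1 : (#(B_NU (ZMod l)) : ℝ) + ((∑ a : ZMod l, #(K_NU a) ^ 2 : ℕ) : ℝ) =
      2 * l * ((∑ a : ZMod l, #(K_NU a) : ℕ) : ℝ) := by exact_mod_cast hB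
  have e2 : (2 * (l : ℝ) - 5) ≤ ((∑ a : ZMod l, #(K_NU a) : ℕ) : ℝ) := by
    have := hP.1
    have h3 : 2 * l ≤ (∑ a : ZMod l, #(K_NU a)) + 5 := by omega
    have h4 : (2 : ℝ) * l ≤ ((∑ a : ZMod l, #(K_NU a) : ℕ) : ℝ) + 5 := by exact_mod_cast h3
    linarith
  have e3 : ((∑ a : ZMod l, #(K_NU a) : ℕ) : ℝ) ≤ 2 * l := by exact_mod_cast hP.2
  have e4 : ((∑ a : ZMod l, #(K_NU a) ^ 2 : ℕ) : ℝ) ≤ 9 * l := by exact_mod_cast hK
  have e5 : (0 : ℝ) ≤ ((∑ a : ZMod l, #(K_NU a) ^ 2 : ℕ) : ℝ) := Nat.cast_nonneg _
  generalize ((∑ a : ZMod l, #(K_NU a) ^ 2 : ℕ) : ℝ) = S at *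
  generalize ((∑ a : ZMod l, #(K_NU a) : ℕ) : ℝ) = T at *
  constructor
  · rw [le_div_iff₀ (by positivity)]
    have : (4 / (l : ℝ) - 19 / (l : ℝ) ^ 2) * (l : ℝ) ^ 3 = 4 * l ^ 2 - 19 * l := by
      field_simp
    rw [this]
    nlinarith
  · rw [div_le_iff₀ (by positivity)]
    have : 4 / (l : ℝ) * (l : ℝ) ^ 3 = 4 * l ^ 2 := by
      field_simp
    rw [this]
    nlinarith

end Pool.Agent.Helper9.SU
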