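import Pool.Agent.Helper9.SU.St

/-!
# Project SU, module SEC: the second moment
-/

set_option autoImplicit false

noncomputable section

namespace Pool.Agent.Helper9.SU

open Finset ArithmeticFunction

/-! ### residue triples -/

/-- the cube -/
def M3_SEC (m : ℕ) : Finset (ℕ × ℕ × ℕ) := range m ×ˢ range m ×ˢ range m

/-- reduction modulo `m` -/
def md_SEC (m : ℕ) (v : ℕ × ℕ × ℕ) : ℕ × ℕ × ℕ := (v.1 % m, v.2.1 % m, v.2.2 % m)

theorem mem_M3_SEC (m : ℕ) (v : ℕ × ℕ × ℕ) : v ∈ M3_SEC m ↔ v.1 < m ∧ v.2.1 < m ∧ v.2.2 < m := by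
  unfold M3_SEC
  rw [mem_product, mem_product, mem_range, mem_range, mem_range]

theorem md_mem_SEC (m : ℕ) (hm : 0 < m) (v : ℕ × ℕ × ℕ) : md_SEC m v ∈ M3_SEC m := by
  rw [mem_M3_SEC]
  exact ⟨Nat.mod_lt _ hm, Nat.mod_lt _ hm, Nat.mod_lt _ hm⟩

theorem card_M3_SEC (m : ℕ) : (M3_SEC m).card = m ^ 3 := by
  unfold M3_SEC
  rw [card_product, card_product, card_range]
  ring

theorem bad_per_SEC (l : ℕ) (v v' : ℕ × ℕ × ℕ) (h1 : v.1 ≡ v'.1 [MOD l])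
    (h2 : v.2.1 ≡ v'.2.1 [MOD l]) (h3 : v.2.2 ≡ v'.2.2 [MOD l]) : Bad l v ↔ Bad l v' := by
  have e1 : ((v.1 : ℕ) : ZMod l) = v'.1 := (ZMod.natCast_eq_natCast_iff _ _ _).2 h1
  have e2 : ((v.2.1 : ℕ) : ZMod l) = v'.2.1 := (ZMod.natCast_eq_natCast_iff _ _ _).2 h2
  have e3 : ((v.2.2 : ℕ) : ZMod l) = v'.2.2 := (ZMod.natCast_eq_natCast_iff _ _ _).2 h3
  have key : ∀ X : ℤ, (l : ℤ) ∣ X ↔ (X : ZMod l) = 0 :=
    fun X => (ZMod.intCast_zmod_eq_zero_iff_dvd X l).symm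
  unfold Bad QQ
  simp only [key]
  push_cast
  rw [e1, e2, e3]

theorem crt_SEC (m n : ℕ) (hm : 0 < m) (hn : 0 < n) (h : Nat.Coprime m n)
    (P P' : ℕ × ℕ × ℕ → Prop) [DecidablePred P] [DecidablePred P']
    (hP : ∀ v, P v ↔ P (md_SEC m v)) (hP' : ∀ v, P' v ↔ P' (md_SEC n v)) :
    ((M3_SEC (m * n)).filter (fun v => P v ∧ P' v)).card =
      ((M3_SEC m).filter P).card * ((M3_SEC n).filter P').card := by
  rw [← card_product]
  refine card_nbij (fun v => (md_SEC m v, md_SEC n v)) ?_ ?_ ?_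
  · intro v hv
    rw [mem_coe, mem_filter] at hv
    rw [mem_coe, mem_product, mem_filter, mem_filter]
    exact ⟨⟨md_mem_SEC m hm v, (hP v).1 hv.2.1⟩, md_mem_SEC n hn v, (hP' v).1 hv.2.2⟩
  · intro v hv v' hv' hvv
    rw [mem_coe, mem_filter, mem_M3_SEC] at hv hv'
    simp only [md_SEC, Prod.mk.injEq] at hvv
    obtain ⟨⟨a1, a2, a3⟩, b1, b2, b3⟩ := hvv
    have key : ∀ x y : ℕ, x < m * n → y < m * n → x % m = y % m → x % n = y % n → x = y := by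
      intro x y hx hy h1 h2
      have h3 : x ≡ y [MOD m * n] := (Nat.modEq_and_modEq_iff_modEq_mul h).1 ⟨h1, h2⟩
      exact Nat.ModEq.eq_of_lt_of_lt h3 hx hy
    exact Prod.ext (key _ _ hv.1.1 hv'.1.1 a1 b1)
      (Prod.ext (key _ _ hv.1.2.1 hv'.1.2.1 a2 b2) (key _ _ hv.1.2.2 hv'.1.2.2 a3 b3))
  · rintro ⟨r, s⟩ hrs
    rw [mem_coe, mem_product, mem_filter, mem_filter, mem_M3_SEC, mem_M3_SEC] at hrs
    obtain ⟨⟨⟨r1, r2, r3⟩, hr⟩, ⟨s1, s2, s3⟩, hs⟩ := hrs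
    have key : ∀ x y : ℕ, x < m → y < n → ∃ k, k < m * n ∧ k % m = x ∧ k % n = y := by
      intro x y hx hy
      refine ⟨Nat.chineseRemainder h x y, Nat.chineseRemainder_lt_mul h x y hm.ne' hn.ne', ?_, ?_⟩
      · have h1 := (Nat.chineseRemainder h x y).2.1
        have h2 : (Nat.chineseRemainder h x y : ℕ) % m = x % m := h1
        rw [h2, Nat.mod_eq_of_lt hx]
      · have h1 := (Nat.chineseRemainder h x y).2.2
        have h2 : (Nat.chineseRemainder h x y : ℕ) % n = y % n := h1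
        rw [h2, Nat.mod_eq_of_lt hy]
    obtain ⟨k1, a1, b1, c1⟩ := key r.1 s.1 r1 s1
    obtain ⟨k2, a2, b2, c2⟩ := key r.2.1 s.2.1 r2 s2
    obtain ⟨k3, a3, b3, c3⟩ := key r.2.2 s.2.2 r3 s3
    have hmr : md_SEC m (k1, k2, k3) = r := by
      unfold md_SEC
      exact Prod.ext b1 (Prod.ext b2 b3)
    have hms : md_SEC n (k1, k2, k3) = s := by
      unfold md_SEC
      exact Prod.ext c1 (Prod.ext c2 c3)
    refine ⟨(k1, k2, k3), ?_, ?_⟩
    · rw [mem_coe, mem_filter, mem_M3_SEC]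
      refine ⟨⟨a1, a2, a3⟩, (hP _).2 ?_, (hP' _).2 ?_⟩
      · rw [hmr]; exact hr
      · rw [hms]; exact hs
    · simp only [hmr, hms]

theorem per_T_SEC (T : Finset ℕ) (v : ℕ × ℕ × ℕ) :
    (∀ l ∈ T, Bad l v) ↔ ∀ l ∈ T, Bad l (md_SEC (∏ l ∈ T, l) v) := by
  refine forall_congr' fun l => forall_congr' fun hl => ?_
  have hd : l ∣ ∏ l ∈ T, l := dvd_prod_of_mem _ hl
  exact bad_per_SEC l v _ ((Nat.mod_modEq _ _).of_dvd hd).symm
    ((Nat.mod_modEq _ _).of_dvd hd).symm ((Nat.mod_modEq _ _).of_dvd hd).symm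

theorem per_l_SEC (l : ℕ) (v : ℕ × ℕ × ℕ) : Bad l v ↔ Bad l (md_SEC l v) :=
  bad_per_SEC l v _ (Nat.mod_modEq _ _).symm (Nat.mod_modEq _ _).symm (Nat.mod_modEq _ _).symm

open Classical in
theorem gg_SEC (l : ℕ) (hl : 0 < l) :
    (((M3_SEC l).filter (fun v => Bad l v)).card : ℝ) = (l : ℝ) ^ 3 * gg l := by
  unfold gg M3_SEC
  have h : (l : ℝ) ≠ 0 := by positivity
  field_simp

open Classical in
theorem cnt_T_SEC (T : Finset ℕ) (hT : ∀ l ∈ T, l.Prime) :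
    (((M3_SEC (∏ l ∈ T, l)).filter (fun v => ∀ l ∈ T, Bad l v)).card : ℝ) =
      ((∏ l ∈ T, l : ℕ) : ℝ) ^ 3 * ∏ l ∈ T, gg l := by
  induction T using Finset.induction_on with
  | empty =>
    have h : (M3_SEC (∏ l ∈ (∅ : Finset ℕ), l)).filter (fun v => ∀ l ∈ (∅ : Finset ℕ), Bad l v) =
        M3_SEC 1 := by
      rw [prod_empty]
      exact filter_true_of_mem (fun v _ l hl => absurd hl (notMem_empty l))
    rw [h, card_M3_SEC, prod_empty, prod_empty]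
    norm_num
  | insert l T hl ih =>
    have hlp : l.Prime := hT l (mem_insert_self l T)
    have hTp : ∀ k ∈ T, k.Prime := fun k hk => hT k (mem_insert_of_mem hk)
    have hpos : 0 < ∏ k ∈ T, k := prod_pos (fun k hk => (hTp k hk).pos)
    have hcop : Nat.Coprime l (∏ k ∈ T, k) := by
      refine Nat.Coprime.prod_right (fun k hk => ?_)
      refine (Nat.coprime_primes hlp (hTp k hk)).2 ?_
      rintro rfl
      exact hl hk
    have h1 := crt_SEC l (∏ k ∈ T, k) hlp.pos hpos hcop (fun v => Bad l v)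
      (fun v => ∀ k ∈ T, Bad k v) (per_l_SEC l) (per_T_SEC T)
    have h2 : (M3_SEC (∏ k ∈ insert l T, k)).filter (fun v => ∀ k ∈ insert l T, Bad k v) =
        (M3_SEC (l * ∏ k ∈ T, k)).filter (fun v => Bad l v ∧ ∀ k ∈ T, Bad k v) := by
      rw [prod_insert hl]
      refine filter_congr fun v _ => ?_
      rw [forall_mem_insert]
    rw [h2, h1, Nat.cast_mul, gg_SEC l hlp.pos, ih hTp, prod_insert hl, prod_insert hl]
    push_cast
    ring

/-! ### counting in intervals -/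

theorem cls_SEC (a b q v : ℕ) (hab : a ≤ b) (hq : 1 ≤ q) :
    |((((Ioc a b).filter (fun n => n ≡ v [MOD q])).card : ℕ) : ℝ) - ((b : ℝ) - a) / q| ≤ 1 := by
  have h := Nat.Ioc_filter_modEq_card a b (r := q) hq v
  have hq0 : (0 : ℚ) < q := by exact_mod_cast hq
  set x : ℚ := ((b : ℚ) - v) / q with hx
  set y : ℚ := ((a : ℚ) - v) / q with hy
  have hab' : (a : ℚ) ≤ b := by exact_mod_cast hab
  have hxy : x - y = ((b : ℚ) - a) / q := by rw [hx, hy]; ring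
  have h1 : (⌊y⌋ : ℤ) ≤ ⌊x⌋ := Int.floor_le_floor (by
    have : 0 ≤ ((b : ℚ) - a) / q := div_nonneg (by linarith) hq0.le
    linarith)
  rw [max_eq_left (by linarith)] at h
  have h2 : ((((Ioc a b).filter (fun n => n ≡ v [MOD q])).card : ℕ) : ℚ) = (⌊x⌋ : ℚ) - ⌊y⌋ := by
    exact_mod_cast congrArg (fun x : ℤ => (x : ℚ)) h
  have h3 := Int.floor_le x
  have h4 := Int.lt_floor_add_one x
  have h5 := Int.floor_le y
  have h6 := Int.lt_floor_add_one y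
  have h7 : |((((Ioc a b).filter (fun n => n ≡ v [MOD q])).card : ℕ) : ℚ) - ((b : ℚ) - a) / q|
      ≤ 1 := by
    rw [h2, ← hxy, abs_le]
    constructor <;> linarith
  have h8 : ((|((((Ioc a b).filter (fun n => n ≡ v [MOD q])).card : ℕ) : ℚ) -
      ((b : ℚ) - a) / q| : ℚ) : ℝ) ≤ ((1 : ℚ) : ℝ) := by exact_mod_cast h7
  push_cast at h8
  exact h8

theorem prod3_SEC (x y c1 c2 c3 : ℝ) (hx : 1 ≤ x) (hy : 1 ≤ y) (hyx : y ≤ x)
    (h1 : |c1 - x| ≤ 1) (h2 : |c2 - y| ≤ 1) (h3 : |c3 - y| ≤ 1) :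
    |c1 * (c2 * c3) - x * (y * y)| ≤ 7 * (x * y) := by
  obtain ⟨a, ha⟩ : ∃ a, a = c1 - x := ⟨_, rfl⟩
  obtain ⟨b, hb⟩ : ∃ b, b = c2 - y := ⟨_, rfl⟩
  obtain ⟨c, hc⟩ : ∃ c, c = c3 - y := ⟨_, rfl⟩
  rw [← ha] at h1
  rw [← hb] at h2
  rw [← hc] at h3
  have e : c1 * (c2 * c3) - x * (y * y) =
      x * y * c + x * y * b + x * (b * c) + y * y * a + y * (a * c) + y * (a * b) + a * (b * c) := by
    have e1 : c1 = x + a := by rw [ha]; ring
    have e2 : c2 = y + b := by rw [hb]; ring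
    have e3 : c3 = y + c := by rw [hc]; ring
    rw [e1, e2, e3]
    ring
  have hm : ∀ s t : ℝ, |s| ≤ 1 → |t| ≤ 1 → |s * t| ≤ 1 := by
    intro s t hs ht
    rw [abs_mul]
    exact mul_le_one₀ hs (abs_nonneg _) ht
  have hk : ∀ p s : ℝ, 0 ≤ p → |s| ≤ 1 → -p ≤ p * s ∧ p * s ≤ p := by
    intro p s hp hs
    obtain ⟨h4, h5⟩ := abs_le.1 hs
    constructor <;> nlinarith
  have hxy : 0 ≤ x * y := by positivity
  have q1 := hk (x * y) c hxy h3
  have q2 := hk (x * y) b hxy h2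
  have q3 := hk x (b * c) (by linarith) (hm _ _ h2 h3)
  have q4 := hk (y * y) a (by positivity) h1
  have q5 := hk y (a * c) (by linarith) (hm _ _ h1 h3)
  have q6 := hk y (a * b) (by linarith) (hm _ _ h1 h2)
  have q7 := abs_le.1 (hm a (b * c) h1 (hm _ _ h2 h3))
  have r1 : x ≤ x * y := by nlinarith
  have r2 : y * y ≤ x * y := by nlinarith
  have r3 : y ≤ x * y := by nlinarith
  have r4 : 1 ≤ x * y := by nlinarith
  rw [e, abs_le]
  constructor <;> linarith [q1.1, q1.2, q2.1, q2.2, q3.1, q3.2, q4.1, q4.2, q5.1, q5.2, q6.1,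
    q6.2, q7.1, q7.2]

/-- the box -/
def bx_SEC (A B : ℕ) : Finset (ℕ × ℕ × ℕ) := (Ioc 0 A) ×ˢ (Ioc B (2 * B)) ×ˢ (Ioc B (2 * B))

theorem card_bx_SEC (A B : ℕ) : (bx_SEC A B).card = A * (B * B) := by
  unfold bx_SEC
  rw [card_product, card_product, Nat.card_Ioc, Nat.card_Ioc]
  have : 2 * B - B = B := by omega
  rw [this, Nat.sub_zero]

open Classical in
theorem box_SEC (A B d : ℕ) (hd : 1 ≤ d) (hdB : d ≤ B) (hBA : B ≤ A) (r : ℕ × ℕ × ℕ)
    (hr : r ∈ M3_SEC d) :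
    |(((bx_SEC A B).filter (fun v => md_SEC d v = r)).card : ℝ) -
      (A : ℝ) / d * ((B : ℝ) / d * ((B : ℝ) / d))| ≤ 7 * ((A : ℝ) / d * ((B : ℝ) / d)) := by
  rw [mem_M3_SEC] at hr
  have h1 : (bx_SEC A B).filter (fun v => md_SEC d v = r) =
      ((Ioc 0 A).filter (fun n => n ≡ r.1 [MOD d])) ×ˢ
      ((Ioc B (2 * B)).filter (fun n => n ≡ r.2.1 [MOD d])) ×ˢ
      ((Ioc B (2 * B)).filter (fun n => n ≡ r.2.2 [MOD d])) := by
    ext v
    unfold bx_SEC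
    rw [mem_filter, mem_product, mem_product, mem_product, mem_product, mem_filter, mem_filter,
      mem_filter]
    have e : md_SEC d v = r ↔ v.1 ≡ r.1 [MOD d] ∧ v.2.1 ≡ r.2.1 [MOD d] ∧
        v.2.2 ≡ r.2.2 [MOD d] := by
      unfold md_SEC Nat.ModEq
      rw [Nat.mod_eq_of_lt hr.1, Nat.mod_eq_of_lt hr.2.1, Nat.mod_eq_of_lt hr.2.2]
      constructor
      · intro h
        rw [← h]
        exact ⟨rfl, rfl, rfl⟩
      · rintro ⟨a, b, c⟩
        exact Prod.ext a (Prod.ext b c)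
    rw [e]
    tauto
  rw [h1, card_product, card_product, Nat.cast_mul, Nat.cast_mul]
  have hd0 : (0 : ℝ) < d := by exact_mod_cast hd
  have hdB' : (d : ℝ) ≤ B := by exact_mod_cast hdB
  have hBA' : (B : ℝ) ≤ A := by exact_mod_cast hBA
  have c1 := cls_SEC 0 A d r.1 (Nat.zero_le _) hd
  have c2 := cls_SEC B (2 * B) d r.2.1 (by omega) hd
  have c3 := cls_SEC B (2 * B) d r.2.2 (by omega) hd
  have e1 : ((A : ℝ) - (0 : ℕ)) / d = A / d := by push_cast; ring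
  have e2 : (((2 * B : ℕ) : ℝ) - B) / d = B / d := by push_cast; ring
  rw [e1] at c1
  rw [e2] at c2 c3
  exact prod3_SEC _ _ _ _ _ ((one_le_div hd0).2 (hdB'.trans hBA')) ((one_le_div hd0).2 hdB')
    (div_le_div_of_nonneg_right hBA' hd0.le) c1 c2 c3

open Classical in
theorem lev_SEC (A B : ℕ) (hBA : B ≤ A) (T : Finset ℕ) (hT : ∀ l ∈ T, l.Prime)
    (hTB : ∏ l ∈ T, l ≤ B) :
    |(((bx_SEC A B).filter (fun v => ∀ l ∈ T, Bad l v)).card : ℝ) -
      (A : ℝ) * (B * B) * ∏ l ∈ T, gg l| ≤ 7 * ((∏ l ∈ T, l : ℕ) : ℝ) * (A * B) := by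
  have hcnt := cnt_T_SEC T hT
  have hper := per_T_SEC T
  have hdpos : 1 ≤ ∏ l ∈ T, l := prod_pos (fun k hk => (hT k hk).pos)
  obtain ⟨d, hd⟩ : ∃ d, d = ∏ l ∈ T, l := ⟨_, rfl⟩
  rw [← hd] at hcnt hper hdpos hTB ⊢
  have hd0 : (0 : ℝ) < d := by exact_mod_cast hdpos
  have h1 : ((bx_SEC A B).filter (fun v => ∀ l ∈ T, Bad l v)).card =
      ∑ r ∈ (M3_SEC d).filter (fun v => ∀ l ∈ T, Bad l v),
        ((bx_SEC A B).filter (fun v => md_SEC d v = r)).card := by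
    rw [card_eq_sum_card_fiberwise (f := md_SEC d)
      (t := (M3_SEC d).filter (fun v => ∀ l ∈ T, Bad l v))]
    · refine sum_congr rfl fun r hr => ?_
      rw [mem_filter] at hr
      congr 1
      rw [filter_filter]
      refine filter_congr fun v _ => ?_
      constructor
      · exact fun h => h.2
      · intro h
        refine ⟨(hper v).2 ?_, h⟩
        rw [h]
        exact hr.2
    · intro v hv
      rw [mem_coe, mem_filter] at hv
      rw [mem_coe, mem_filter]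
      exact ⟨md_mem_SEC d hdpos v, (hper v).1 hv.2⟩
  rw [h1, Nat.cast_sum]
  have h2 : (A : ℝ) * (B * B) * ∏ l ∈ T, gg l =
      ∑ r ∈ (M3_SEC d).filter (fun v => ∀ l ∈ T, Bad l v),
        (A : ℝ) / d * ((B : ℝ) / d * ((B : ℝ) / d)) := by
    rw [sum_const, nsmul_eq_mul, hcnt]
    field_simp
  rw [h2, ← sum_sub_distrib]
  refine (abs_sum_le_sum_abs _ _).trans ?_
  have h3 : ∑ r ∈ (M3_SEC d).filter (fun v => ∀ l ∈ T, Bad l v),
      |(((bx_SEC A B).filter (fun v => md_SEC d v = r)).card : ℝ) -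
        (A : ℝ) / d * ((B : ℝ) / d * ((B : ℝ) / d))| ≤
      ∑ r ∈ (M3_SEC d).filter (fun v => ∀ l ∈ T, Bad l v), 7 * ((A : ℝ) / d * ((B : ℝ) / d)) :=
    sum_le_sum fun r hr => box_SEC A B d hdpos hTB hBA r (mem_filter.1 hr).1
  refine h3.trans ?_
  rw [sum_const, nsmul_eq_mul]
  have h4 : (((M3_SEC d).filter (fun v => ∀ l ∈ T, Bad l v)).card : ℝ) ≤ (d : ℝ) ^ 3 := by
    have h5 := card_le_card (filter_subset (fun v => ∀ l ∈ T, Bad l v) (M3_SEC d))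
    rw [card_M3_SEC] at h5
    exact_mod_cast h5
  calc (((M3_SEC d).filter (fun v => ∀ l ∈ T, Bad l v)).card : ℝ) *
        (7 * ((A : ℝ) / d * ((B : ℝ) / d)))
      ≤ (d : ℝ) ^ 3 * (7 * ((A : ℝ) / d * ((B : ℝ) / d))) :=
        mul_le_mul_of_nonneg_right h4 (by positivity)
    _ = 7 * (d : ℝ) * (A * B) := by field_simp

/-- the main term -/
theorem main_SEC (hN : StNu) (hM : Pool.Agent.Helper15.AB.StMT) : ∃ K : ℝ, 1 ≤ K ∧
    ∀ w : ℕ, 3 ≤ w → ∏ l ∈ (Pw w).filter (fun l => 11 ≤ l), (1 - gg l) ≤ K / Real.log w ^ 4 := by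
  obtain ⟨C, hC0, hC⟩ := hM
  refine ⟨Real.exp (4 * C + 78), Real.one_le_exp (by linarith), fun w hw => ?_⟩
  have hw3 : (3 : ℝ) ≤ w := by exact_mod_cast hw
  have hlog : 1 ≤ Real.log w := by
    have h1 : Real.exp 1 ≤ w := by
      have := Real.exp_one_lt_d9
      linarith
    have h2 := Real.log_le_log (Real.exp_pos 1) h1
    rwa [Real.log_exp] at h2
  have hlog0 : 0 < Real.log w := by linarith
  set Q := (Pw w).filter (fun l => 11 ≤ l) with hQ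
  have hQm : ∀ l ∈ Q, l.Prime ∧ 11 ≤ l ∧ 1 ≤ l ∧ l ≤ w := by
    intro l hl
    rw [hQ, mem_filter, Pw, mem_filter, mem_Icc] at hl
    exact ⟨hl.1.2, hl.2, hl.1.1.1, hl.1.1.2⟩
  have hgb : ∀ l ∈ Q, 4 / (l : ℝ) - 19 / (l : ℝ) ^ 2 ≤ gg l ∧ gg l ≤ 4 / l :=
    fun l hl => hN l (hQm l hl).1 (hQm l hl).2.1
  have h1 : ∏ l ∈ Q, (1 - gg l) ≤ Real.exp (-∑ l ∈ Q, gg l) := by
    rw [← sum_neg_distrib, Real.exp_sum]
    refine prod_le_prod (fun l hl => ?_) (fun l _ => Real.one_sub_le_exp_neg _)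
    have h2 := (hgb l hl).2
    have h3 : (11 : ℝ) ≤ l := by exact_mod_cast (hQm l hl).2.1
    have h4 : 4 / (l : ℝ) ≤ 1 := by rw [div_le_one (by linarith)]; linarith
    linarith
  have hMT := hC w hw3
  rw [Nat.floor_natCast] at hMT
  have hPw : ∑ l ∈ Pw w, (1 : ℝ) / l = ∑ l ∈ Q, (1 : ℝ) / l +
      ∑ l ∈ (Pw w).filter (fun l => ¬ 11 ≤ l), (1 : ℝ) / l := by
    rw [hQ, sum_filter_add_sum_filter_not]
  have hsmall : ∑ l ∈ (Pw w).filter (fun l => ¬ 11 ≤ l), (1 : ℝ) / l ≤ 10 := by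
    have h2 : ∑ l ∈ (Pw w).filter (fun l => ¬ 11 ≤ l), (1 : ℝ) / l ≤
        ∑ l ∈ Icc (1 : ℕ) 10, (1 : ℝ) / (l : ℝ) := by
      refine sum_le_sum_of_subset_of_nonneg ?_ (fun _ _ _ => by positivity)
      intro l hl
      rw [mem_filter, Pw, mem_filter, mem_Icc] at hl
      rw [mem_Icc]
      omega
    have h3 : ∑ l ∈ Icc (1 : ℕ) 10, (1 : ℝ) / (l : ℝ) ≤ ∑ l ∈ Icc (1 : ℕ) 10, (1 : ℝ) := by
      refine sum_le_sum fun l hl => ?_
      rw [mem_Icc] at hl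
      have h4 : (1 : ℝ) ≤ l := by exact_mod_cast hl.1
      rw [div_le_one (by linarith)]
      exact h4
    have h4 : ∑ l ∈ Icc (1 : ℕ) 10, (1 : ℝ) = 10 := by simp
    linarith
  have hsq : ∑ l ∈ Q, (1 : ℝ) / (l : ℝ) ^ 2 ≤ 2 := by
    have h2 : ∑ l ∈ Q, (1 : ℝ) / (l : ℝ) ^ 2 ≤ ∑ l ∈ Ioo 0 (w + 1), ((l : ℝ) ^ 2)⁻¹ := by
      have h5 : ∑ l ∈ Q, (1 : ℝ) / (l : ℝ) ^ 2 = ∑ l ∈ Q, ((l : ℝ) ^ 2)⁻¹ :=
        sum_congr rfl fun l _ => one_div _
      rw [h5]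
      refine sum_le_sum_of_subset_of_nonneg ?_ (fun _ _ _ => by positivity)
      intro l hl
      have h3 := hQm l hl
      rw [mem_Ioo]
      omega
    have h3 := sum_Ioo_inv_sq_le (α := ℝ) 0 (w + 1)
    have h4 : (2 : ℝ) / (((0 : ℕ) : ℝ) + 1) = 2 := by norm_num
    rw [h4] at h3
    exact h2.trans h3
  have hgs : 4 * ∑ l ∈ Q, (1 : ℝ) / l - 19 * ∑ l ∈ Q, (1 : ℝ) / (l : ℝ) ^ 2 ≤ ∑ l ∈ Q, gg l := by
    rw [mul_sum, mul_sum, ← sum_sub_distrib]
    refine sum_le_sum fun l hl => ?_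
    have h2 := (hgb l hl).1
    have h3 : 4 * (1 / (l : ℝ)) - 19 * (1 / (l : ℝ) ^ 2) = 4 / (l : ℝ) - 19 / (l : ℝ) ^ 2 := by ring
    rw [h3]
    exact h2
  have hMT' : Real.log (Real.log w) - C ≤ ∑ l ∈ Pw w, (1 : ℝ) / l := by
    have := (abs_le.1 hMT).1
    unfold Pw
    linarith
  have h5 : -∑ l ∈ Q, gg l ≤ (4 * C + 78) - 4 * Real.log (Real.log w) := by linarith
  calc ∏ l ∈ Q, (1 - gg l) ≤ Real.exp (-∑ l ∈ Q, gg l) := h1
    _ ≤ Real.exp ((4 * C + 78) - 4 * Real.log (Real.log w)) := Real.exp_le_exp.2 h5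
    _ = Real.exp (4 * C + 78) / Real.log w ^ 4 := by
        rw [Real.exp_sub]
        congr 1
        have h6 : (4 : ℝ) * Real.log (Real.log w) = ((4 : ℕ) : ℝ) * Real.log (Real.log w) := by
          norm_num
        rw [h6, Real.exp_nat_mul, Real.exp_log hlog0]

theorem cardf_SEC {α : Type} (s : Finset α) (p q : α → Prop) (i1 : DecidablePred p)
    (i2 : DecidablePred q) (h : ∀ v ∈ s, (p v ↔ q v)) :
    ((@filter α p i1 s).card : ℝ) = ((@filter α q i2 s).card : ℝ) := by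
  have e : @filter α p i1 s = @filter α q i2 s := filter_congr h
  rw [e]

theorem cardl_SEC {α : Type} (s : Finset α) (p : α → Prop) (i1 : DecidablePred p) :
    (@filter α p i1 s).card ≤ s.card := card_filter_le s p

open Classical in
theorem hSec (hN : StNu) (hFL : Pool.Agent.Helper18.TR.StFL)
    (hM : Pool.Agent.Helper15.AB.StMT) : StSec := by
  obtain ⟨K, hK1, hK⟩ := main_SEC hN hM
  obtain ⟨B₀, hB₀⟩ := hFL 4 1 (by norm_num) (by norm_num)
  refine ⟨1 / ((2 * B₀ + 5 : ℕ) : ℝ), 2 * K + 7, by positivity, by linarith, ?_⟩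
  intro A B w hw hwB hBA
  have hw2 : (2 : ℝ) ≤ w := by exact_mod_cast hw
  have hw1 : (1 : ℝ) ≤ w := by linarith
  have hlog0 : 0 < Real.log w := Real.log_pos (by linarith)
  -- `w ^ (2 B₀ + 5) ≤ B`
  have hwp : (w : ℝ) ^ (2 * B₀ + 5) ≤ B := by
    have h1 : (w : ℝ) ^ (2 * B₀ + 5) ≤ ((B : ℝ) ^ (1 / ((2 * B₀ + 5 : ℕ) : ℝ))) ^ (2 * B₀ + 5) :=
      pow_le_pow_left₀ (by linarith) hwB _
    rw [← Real.rpow_natCast, ← Real.rpow_natCast, ← Real.rpow_mul (by positivity)] at h1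
    have h2 : 1 / ((2 * B₀ + 5 : ℕ) : ℝ) * ((2 * B₀ + 5 : ℕ) : ℝ) = 1 := by
      have : ((2 * B₀ + 5 : ℕ) : ℝ) ≠ 0 := by positivity
      field_simp
    rw [h2, Real.rpow_one, Real.rpow_natCast] at h1
    exact h1
  have hA0 : (0 : ℝ) ≤ A := by positivity
  have hB0 : (0 : ℝ) ≤ B := by positivity
  have hset : ((((Ioc 0 A) ×ˢ (Ioc B (2 * B)) ×ˢ (Ioc B (2 * B))).filter (fun v : ℕ × ℕ × ℕ =>
      ∀ l ∈ Pw w, 11 ≤ l → ¬ Bad l v)).card : ℝ) =
      (((bx_SEC A B).filter (fun v => ∀ l ∈ (Pw w).filter (fun l => 11 ≤ l),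
        ¬ Bad l v)).card : ℝ) := by
    refine cardf_SEC (bx_SEC A B) _ _ _ _ (fun v _ => ?_)
    constructor
    · intro h l hl
      rw [mem_filter] at hl
      exact h l hl.1 hl.2
    · intro h l hl hl'
      exact h l (mem_filter.2 ⟨hl, hl'⟩)
  rw [hset]
  rcases Nat.lt_or_ge w 3 with hw3 | hw3
  · -- `w = 2`
    have hw2' : w = 2 := by omega
    have h1 : (((bx_SEC A B).filter (fun v => ∀ l ∈ (Pw w).filter (fun l => 11 ≤ l),
        ¬ Bad l v)).card : ℝ) ≤ A * (B * B) := by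
      have h2 : ((bx_SEC A B).filter (fun v => ∀ l ∈ (Pw w).filter (fun l => 11 ≤ l),
          ¬ Bad l v)).card ≤ (bx_SEC A B).card :=
        cardl_SEC _ _ _
      rw [card_bx_SEC] at h2
      exact_mod_cast h2
    have h3 : Real.log w ^ 4 ≤ 1 := by
      rw [hw2']
      have := Real.log_two_lt_d9
      have h4 : Real.log ((2 : ℕ) : ℝ) ≤ 1 := by push_cast; linarith
      exact pow_le_one₀ (by rw [hw2'] at hlog0; exact hlog0.le) h4
    have h5 : (A : ℝ) * B ^ 2 ≤ (2 * K + 7) * (A * B ^ 2) := by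
      have : 0 ≤ (A : ℝ) * B ^ 2 := by positivity
      nlinarith
    rw [le_div_iff₀ (by positivity)]
    calc _ ≤ (A * (B * B)) * Real.log w ^ 4 := mul_le_mul_of_nonneg_right h1 (by positivity)
      _ ≤ (A * (B * B)) * 1 := mul_le_mul_of_nonneg_left h3 (by positivity)
      _ = (A : ℝ) * B ^ 2 := by ring
      _ ≤ _ := h5
  · have hQp : ∀ p ∈ (Pw w).filter (fun l => 11 ≤ l), p.Prime ∧ p ≤ w := by
      intro l hl
      rw [mem_filter, Pw, mem_filter, mem_Icc] at hl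
      exact ⟨hl.1.2, hl.1.1.2⟩
    have hg : ∀ p ∈ (Pw w).filter (fun l => 11 ≤ l), 0 ≤ gg p ∧ gg p ≤ 4 / p ∧ gg p ≤ 1 / 2 := by
      intro l hl
      have hl11 : 11 ≤ l := (mem_filter.1 hl).2
      have h1 := (hN l (hQp l hl).1 hl11).2
      have h3 : (11 : ℝ) ≤ l := by exact_mod_cast hl11
      refine ⟨by unfold gg; positivity, h1, h1.trans ?_⟩
      rw [div_le_div_iff₀ (by linarith) (by norm_num)]
      linarith
    have hres := hB₀ w hw _ hQp gg hg (ℕ × ℕ × ℕ) (bx_SEC A B) (fun l v => Bad l v)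
      ((A : ℝ) * (B * B)) (7 * (w : ℝ) ^ B₀ * (A * B)) (by positivity) (by positivity) (by
        intro T hT hTw
        have hTw' : ((∏ p ∈ T, p : ℕ) : ℝ) ≤ (w : ℝ) ^ B₀ := by exact_mod_cast hTw
        have hTB : ∏ p ∈ T, p ≤ B := by
          have h1 : ((∏ p ∈ T, p : ℕ) : ℝ) ≤ B := by
            refine hTw'.trans (le_trans ?_ hwp)
            exact pow_le_pow_right₀ hw1 (by omega)
          exact_mod_cast h1
        refine (lev_SEC A B hBA T (fun l hl => (hQp l (hT hl)).1) hTB).trans ?_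
        have h2 : (0 : ℝ) ≤ A * B := by positivity
        have h3 := mul_le_mul_of_nonneg_right hTw' h2
        nlinarith [h3])
    have hprod := hK w hw3
    have hup : (((bx_SEC A B).filter (fun v => ∀ l ∈ (Pw w).filter (fun l => 11 ≤ l),
        ¬ Bad l v)).card : ℝ) ≤ 1 * ((A : ℝ) * (B * B) *
          ∏ l ∈ (Pw w).filter (fun l => 11 ≤ l), (1 - gg l)) +
        (w : ℝ) ^ B₀ * (7 * (w : ℝ) ^ B₀ * (A * B)) + (A : ℝ) * (B * B) *
          ∏ l ∈ (Pw w).filter (fun l => 11 ≤ l), (1 - gg l) := by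
      exact le_trans (le_of_eq (cardf_SEC _ _ _ _ _ (fun v _ => Iff.rfl)))
        (sub_le_iff_le_add.1 (abs_le.1 hres).2)
    have hN0 : (0 : ℝ) ≤ (A : ℝ) * (B * B) := by positivity
    have hmain := mul_le_mul_of_nonneg_left hprod hN0
    -- the error
    have hlw : Real.log w ^ 4 ≤ (w : ℝ) ^ 5 := by
      have h1 : Real.log w ≤ w := (Real.log_le_sub_one_of_pos (by linarith)).trans (by linarith)
      calc Real.log w ^ 4 ≤ (w : ℝ) ^ 4 := pow_le_pow_left₀ hlog0.le h1 4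
        _ ≤ (w : ℝ) ^ 5 := pow_le_pow_right₀ hw1 (by norm_num)
    have herr : (w : ℝ) ^ B₀ * (7 * (w : ℝ) ^ B₀ * (A * B)) ≤ 7 * (A * B ^ 2) / Real.log w ^ 4 := by
      rw [le_div_iff₀ (by positivity)]
      have h1 : (w : ℝ) ^ (2 * B₀) * Real.log w ^ 4 ≤ B := by
        calc (w : ℝ) ^ (2 * B₀) * Real.log w ^ 4 ≤ (w : ℝ) ^ (2 * B₀) * (w : ℝ) ^ 5 :=
              mul_le_mul_of_nonneg_left hlw (by positivity)
          _ = (w : ℝ) ^ (2 * B₀ + 5) := by rw [← pow_add]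
          _ ≤ B := hwp
      have h2 : (0 : ℝ) ≤ 7 * (A * B) := by positivity
      have h3 := mul_le_mul_of_nonneg_right h1 h2
      have h4 : (w : ℝ) ^ B₀ * (7 * (w : ℝ) ^ B₀ * (A * B)) * Real.log w ^ 4 =
          (w : ℝ) ^ (2 * B₀) * Real.log w ^ 4 * (7 * (A * B)) := by
        rw [two_mul, pow_add]
        ring
      rw [h4]
      calc _ ≤ (B : ℝ) * (7 * (A * B)) := h3
        _ = 7 * (A * B ^ 2) := by ring
    have hfin : (((bx_SEC A B).filter (fun v => ∀ l ∈ (Pw w).filter (fun l => 11 ≤ l),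
        ¬ Bad l v)).card : ℝ) ≤ 2 * ((A : ℝ) * (B * B) * (K / Real.log w ^ 4)) +
        7 * (A * B ^ 2) / Real.log w ^ 4 := by
      linarith
    refine hfin.trans (le_of_eq ?_)
    field_simp

end Pool.Agent.Helper9.SU
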