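import Pool.Agent.Helper60.GP.All
import Pool.Agent.Helper18.TR.Final
import Pool.Agent.Helper15.AB.M_MT
import Pool.Agent.Helper9.SU.M_ALL
import Pool.Agent.Helper9.SU.M_ERR
import Pool.Agent.Helper9.SU.M_FIN
import Pool.Agent.Helper9.SU.M_FIRST
import Pool.Agent.Helper9.SU.M_JEN
import Pool.Agent.Helper9.SU.M_KAP
import Pool.Agent.Helper9.SU.M_LOC
import Pool.Agent.Helper9.SU.M_NU
import Pool.Agent.Helper9.SU.M_SEC

/-!
# Project SU: assembly
-/

namespace Pool.Agent.Helper9.SU

open Pool.Agent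

theorem pFirst : StFirst :=
  hFirst hKap (hJen hKap Helper15.AB.hMT) (hLoc hKap) (hErr Helper60.GP.pB3) Helper60.GP.pB4
    Helper18.TR.bonf Helper18.TR.flMain Helper18.TR.pf_Level

theorem pSec : StSec := hSec hNu Helper18.TR.fl Helper15.AB.hMT

theorem pFin : StFin := hFin pFirst pSec Helper60.GP.pB5

theorem pAll : StAll := hAll Helper18.TR.fl

end Pool.Agent.Helper9.SU
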