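import Pool.Agent.Helper60.GP.Defs
import Pool.Agent.Helper18.TR.St

/-!
# Project SU (MP_5e9b96_nt): sums `x + y = n` with `x + n y` prime and `x ^ 2 + n y ^ 2` almost prime

Coordinates: `n = a + 1`, `y = b - 1`, `x = n - y = a + 2 - b`; then `x + n y = a b + 1` and
`x ^ 2 + n y ^ 2 = QQ a b`.
-/

set_option autoImplicit false

noncomputable section

namespace Pool.Agent.Helper9.SU

open Finset ArithmeticFunction

/-- `x ^ 2 + n y ^ 2` for `n = a + 1`, `y = b - 1`, `x = a + 2 - b` -/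
def QQ (a b : ℤ) : ℤ := (a + 2 - b) ^ 2 + (a + 1) * (b - 1) ^ 2

/-- the primes up to `w` -/
def Pw (w : ℕ) : Finset ℕ := (Icc 1 w).filter Nat.Prime

/-- number of classes `a` modulo `l` with `l ∣ QQ a b` and `l ∤ a b + 1` -/
def kap (l b : ℕ) : ℕ :=
  ((range l).filter (fun r : ℕ => (l : ℤ) ∣ QQ r b ∧ ¬ (l : ℤ) ∣ (r : ℤ) * b + 1)).card

/-- the density of the primes `a b + 1` with `l ∣ QQ a b` -/
def hh (b l : ℕ) : ℝ := (kap l b : ℝ) / (if l ∣ b then (l : ℝ) else (l : ℝ) - 1)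

/-- `l` divides one of the four numbers -/
def Bad (l : ℕ) (v : ℕ × ℕ × ℕ) : Prop :=
  (l : ℤ) ∣ (v.1 : ℤ) * v.2.1 + 1 ∨ (l : ℤ) ∣ QQ v.1 v.2.1 ∨
  (l : ℤ) ∣ (v.1 : ℤ) * v.2.2 + 1 ∨ (l : ℤ) ∣ QQ v.1 v.2.2

open Classical in
/-- density of `Bad l` -/
def gg (l : ℕ) : ℝ :=
  (((range l ×ˢ range l ×ˢ range l).filter (fun v => Bad l v)).card : ℝ) / (l : ℝ) ^ 3

open Classical in
/-- the sum of the first moment -/
def S1 (ω : ℝ → ℝ) (x : ℝ) (B w : ℕ) : ℝ :=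
  ∑ b ∈ Ioc B (2 * B), ∑ n ∈ (Pool.Agent.Helper60.GP.II x).filter (fun n : ℕ => b ∣ n - 1 ∧
    ∀ l ∈ Pw w, ¬ (l : ℤ) ∣ QQ (((n - 1) / b : ℕ) : ℤ) b), Λ n * ω (Real.log (n / x))

/-- the integers `y`, `0 < y < n`, for which `x + n y` is prime and `x ^ 2 + n y ^ 2` has at most `R`
prime factors (with multiplicity), `x = n - y` -/
def prs (R n : ℕ) : Finset ℕ :=
  (Ioo 0 n).filter (fun y => ((n - y) + n * y).Prime ∧ cardFactors ((n - y) ^ 2 + n * y ^ 2) ≤ R)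

end Pool.Agent.Helper9.SU
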