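import Pool.Agent.Helper9.SU.Defs
import Pool.Agent.Helper60.GP.St
import Pool.Agent.Helper15.AB.StMid

/-!
# Project SU (MP_5e9b96_nt): statements of the modules, with proofs
-/

set_option autoImplicit false

noncomputable section

namespace Pool.Agent.Helper9.SU

open Finset ArithmeticFunction
open Pool.Agent.Helper60.GP (IsB JJ II Err)
open Pool.Agent.Helper15.AB (Th)
open Pool.Agent.Helper18.TR (fam0 fam1)

/-- MODULE KAP.  (1) For fixed `b` the polynomial `QQ a b` is monic of degree 2 in `a` (leading coefficient 1 of `a ^ 2`,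
from `(a + 2 - b) ^ 2`), so it has at most two roots modulo the prime `l`.  (2) `l = 2, 3`: check all `b` modulo `l`
(after reducing `b` modulo `l` it is a finite check; `QQ` depends on `a`, `b` modulo `l` only).  (3) periodicity is clear.
(4) With `y = b - 1`, `x = a + 2 - b`, so `a + 1 = x + y`, `a b + 1 = x + (x + y) y`, `QQ = x ^ 2 + (x + y) y ^ 2`, the sum
is the number of `(x, y)` in `F_l ^ 2` with `x ^ 2 + (x + y) y ^ 2 = 0` and `x + (x + y) y ≠ 0`.  If `y = 0` then `x = 0`, which is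
excluded.  If `y ≠ 0` let `t = x / y`: `t ^ 2 + (t + 1) y = 0`, so `t ≠ 0`, `t ≠ - 1` and `y = - t ^ 2 / (t + 1)`,
`x = t y` are determined by `t`: at most `l - 2` points. -/
def StKap : Prop := ∀ l : ℕ, l.Prime → (∀ b, kap l b ≤ 2) ∧ (l ≤ 3 → ∀ b, kap l b = 0) ∧
  (∀ b, kap l (b + l) = kap l b) ∧ ∑ b ∈ range l, kap l b ≤ l - 1

/-- MODULE JEN (assume `hK : StKap`; Mertens: `Pool.Agent.Helper15.AB.StMT`, assume `hM` of it; it is proved in the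
repository).  `0 ≤ hh b l ≤ 2 / (l - 1) ≤ 1 / 2` (`l ≥ 5`; `hh b l = 0` for `l ≤ 3`), and
`log (1 - h) ≥ - h - h ^ 2` for `0 ≤ h ≤ 1 / 2`.  Over a full period `∑_{b mod l} hh b l ≤ (∑ kap) / (l - 1) ≤ 1`, so
`∑_{B < b ≤ 2 B} hh b l ≤ B / l + 1`, and `∑_b (hh b l) ^ 2 ≤ B (2 / (l - 1)) ^ 2`.  So
`∑_b ∑_{l ≤ w} log (1 - hh b l) ≥ - B ∑_{l ≤ w} 1 / l - w - C B ≥ - B (log log w + C')` (`w ≤ B`; for `2 ≤ w < 3` the
product is `1`).  By Jensen (AM-GM, `exp` is convex: `Real.exp_le..`, `inner_le_nnorm_mul_nnorm`, or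
`ConvexOn.map_sum_le`) `(1 / B) ∑_b ∏_l (1 - hh b l) ≥ exp ((1 / B) ∑_b ∑_l log (1 - hh b l)) ≥ c / log w`. -/
def StJen : Prop := ∃ c : ℝ, 0 < c ∧ ∀ w B : ℕ, 2 ≤ w → w ≤ B →
  c * B / Real.log w ≤ ∑ b ∈ Ioc B (2 * B), ∏ l ∈ Pw w, (1 - hh b l)

open Classical in
/-- MODULE LOC (assume `hK : StKap` if useful).  Let `d = ∏ T`.  Write `n = 1 + b a`.  The condition
`l ∣ QQ a b` for all `l ∈ T` depends on `a` modulo `d`; split according to `r = a mod d`: `n ≡ 1 + r b (mod b d)` and conversely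
(`b ∣ n - 1` and `(n - 1) / b ≡ r (mod d)` iff `b d ∣ n - (1 + r b)`).
If `r b + 1` is prime to `b d` (equivalently to `d`) the sum over `n` differs from `Th ω x / φ(b d)` by
`Err ω x (b d) (r b + 1)`.  The number of these `r` is `∏_{l ∈ T} kap l b` (Chinese remainder theorem), and
`φ(b d) = φ(b) ∏_{l ∈ T} (if l ∣ b then l else l - 1)` (induction on `T`: `Nat.totient_mul_of_prime_of_dvd`,
`Nat.totient_mul_of_prime_of_not_dvd`).  If `r b + 1` is not prime to `d`, some `l ∈ T` divides `n`; as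
`Λ n ≠ 0`, `n` is a power of `l ≤ w`, and the sum of `Λ n` over the powers `≤ 3 x` of `l` is at most `log (3 x)`; `0 ≤ ω ≤ 1 / 2`. -/
def StLoc : Prop := ∀ (ω : ℝ → ℝ), IsB ω → ∀ (x : ℝ) (b w : ℕ) (T : Finset ℕ), 1 ≤ x → 1 ≤ b →
  T ⊆ Pw w →
  |∑ n ∈ (II x).filter (fun n : ℕ => b ∣ n - 1 ∧ ∀ l ∈ T, (l : ℤ) ∣ QQ (((n - 1) / b : ℕ) : ℤ) b),
      Λ n * ω (Real.log (n / x)) - Th ω x / (Nat.totient b : ℝ) * ∏ l ∈ T, hh b l| ≤
  ∑ r ∈ (range (∏ l ∈ T, l)).filter (fun r : ℕ => ((∏ l ∈ T, l : ℕ) : ℤ) ∣ QQ r b ∧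
      Nat.Coprime (r * b + 1) (b * ∏ l ∈ T, l)), Err ω x (b * ∏ l ∈ T, l) ((r : ℤ) * b + 1) +
    w * Real.log (3 * x)

/-- MODULE ERR (assume `hBV : Pool.Agent.Helper60.GP.StBVc`).  Put `q = b d ≤ x ^ (β + σ)`.  For a given
`q` the number of triples `(b, d, r)` with `b d = q` is at most `τ(q) · τ(q)`: `τ(q)` choices of `(b, d)`, and `r` modulo the
squarefree `d` is a root of a monic quadratic polynomial (in `r`), at most `2 ^ {ω(d)} ≤ τ(q)` roots (for primes: two roots; then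
Chinese remainder theorem, or induction over the prime factors).  All classes `r b + 1` are prime to `q`.  Let `c(q)` be a class among
these for which `Err ω x q (c(q))` is largest (`c(q) = 1` if there are none).  So the sum is at most `∑_{q ≤ x^(β+σ)} τ(q) ^ 2 Err ω x q (c q)`,
by Cauchy-Schwarz at most `(∑ τ(q) ^ 4 Err)^(1/2) (∑ Err)^(1/2)`.  Trivially
`Err ω x q c ≤ C x (log x) ^ 2 / q` for `q ≤ x`: there are at most `3 x / q + 1` integers `n ≤ 3 x` in the class and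
`Λ n ≤ log (3 x)`; `Th ω x ≤ C x log x` and `1 / φ(q) ≤ C log x / q` (e.g. from `σ`-type bounds, or
`Pool.Agent.Helper15.AB.StDP`; any power of `log x` is fine).
`∑_{q ≤ y} τ(q) ^ 4 / q ≤ (∑_{m ≤ y} 1 / m) ^ 16` (`τ ^ 4 ≤ τ_16`) or any bound `C (log y) ^ C'` for it that the repository has
(grep for `divisors.card` and `^ 4`).  The second factor is `≤ x / log x ^ A'` for every `A'`. -/
def StErr : Prop := ∀ ω : ℝ → ℝ, IsB ω → ∀ (A : ℕ) (β σ : ℝ), 0 < β → 0 < σ → β + σ < 1 / 2 →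
  ∃ x₀ : ℝ, ∀ x : ℝ, x₀ ≤ x →
  ∑ b ∈ Icc 1 ⌊x ^ β⌋₊, ∑ d ∈ (Icc 1 ⌊x ^ σ⌋₊).filter Squarefree,
    ∑ r ∈ (range d).filter (fun r : ℕ => (d : ℤ) ∣ QQ r b ∧ Nat.Coprime (r * b + 1) (b * d)),
      Err ω x (b * d) ((r : ℤ) * b + 1) ≤ x / Real.log x ^ A

/-- MODULE FIRST (assume `hK : StKap`, `hJ : StJen`, `hL : StLoc`, `hE : StErr`,
`hPNT : Pool.Agent.Helper60.GP.StPNT`, `hB : Pool.Agent.Helper18.TR.StBonf`, `hF : Pool.Agent.Helper18.TR.StFLmain`,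
`hLv : Pool.Agent.Helper18.TR.StLevel`).  `StFLmain` with `κ = 3`, `ε = 1 / 2` gives an even `u` (called `b` there);
`StLevel u` gives the exponent `B₀`.  (`hh b l ≤ 3 / l` and `≤ 1 / 2`.)  Choose `δ₁` with `β + δ₁ (B₀ + 1) < 1 / 2`.
With `w = ⌊x ^ δ⌋`, `B = ⌊x ^ β⌋`: by `StBonf` with `g l = 1` if `l ∣ QQ a b` and `0` otherwise, the indicator of `no l ∈ Pw w divides
QQ a b` is at least `∑_{T ∈ fam0 ∪ fam1} (-1)^|T| 1[all l ∈ T divide]`.  So `S1 ≥ ∑_b ∑_T (-1)^|T| (sum of StLoc)`, the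
main terms give at least `Th ω x ∑_b (1 / φ(b)) (1 / 2) ∏_l (1 - hh b l) ≥ Th ω x / (4 B) · c B / log w` (`φ(b) ≤ b ≤ 2 B`), and
the errors are at most the sum of `StErr` (`T ↦ ∏ T` is injective on sets of primes, `∏ T ≤ w ^ B₀ ≤ x ^ (δ B₀)`; use a slightly larger
`β` for `b ≤ 2 B`) plus `B · w ^ (B₀ + 1) · w · log (3 x)` (number of `T` at most `w ^ B₀ + 1`; `β + (B₀ + 3) δ < 1`, choose `δ₁` accordingly).
`Th ω x ≥ JJ ω x / 2`. -/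
def StFirst : Prop := ∀ ω : ℝ → ℝ, IsB ω → 0 < JJ ω → ∀ β : ℝ, 0 < β → β < 1 / 2 →
  ∃ δ₁ : ℝ, 0 < δ₁ ∧ ∀ δ : ℝ, 0 < δ → δ ≤ δ₁ → ∃ c x₀ : ℝ, 0 < c ∧ ∀ x : ℝ, x₀ ≤ x →
    c * x / Real.log x ≤ S1 ω x ⌊x ^ β⌋₊ ⌊x ^ δ⌋₊

/-- MODULE NU.  Let `l ≥ 11` be prime (any `l ≥ 3` works).  In `F_l ^ 3`, coordinates `(a, b, b')`, let `S₁ : a b = - 1`,
`S₂ : QQ a b = 0`, `S₃ : a b' = - 1`, `S₄ : QQ a b' = 0`.  `|S₁| = |S₃| = l (l - 1)`.  `|S₂| = |S₄| ≥ l (l - 2)`: for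
`t ≠ 0, - 1` put `y = - t ^ 2 / (t + 1)`, `x = t y`, `a = x + y - 1`, `b = y + 1` (see `StKap`), these `l - 2` points `(a, b)` are
different zeros of `QQ` (`t = x / y`).  Intersections: `|S₁ ∩ S₂| ≤ 2 l` (eliminate: with `x, y` as in `StKap` and `n = x + y`:
`(n + 1) (x ^ 2 + n y ^ 2) = (x + n y) ^ 2 + n (x - y) ^ 2`, so `n (x - y) ^ 2 = 0`; `n = 0` gives `x = 0`, `y = 0`; `x = y` gives
`x (1 + 2 x) = 0`), `|S₁ ∩ S₃| ≤ l`, `|S₁ ∩ S₄|, |S₂ ∩ S₃| ≤ 2 l`, `|S₃ ∩ S₄| ≤ 2 l`, `|S₂ ∩ S₄| ≤ 4 l`: for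
given `a`, `QQ a b` is a nonzero polynomial of degree at most 2 in `b`: coefficient of `b ^ 2` is `a + 2`, and for `a = - 2` it is `2 b - 1`.
So `4 l ^ 2 - 19 l ≤ #Bad`.  Upper bound: `|S₂| ≤ l (l - 1)`, so `#Bad ≤ 4 l (l - 1)`. -/
def StNu : Prop := ∀ l : ℕ, l.Prime → 11 ≤ l → 4 / (l : ℝ) - 19 / (l : ℝ) ^ 2 ≤ gg l ∧ gg l ≤ 4 / l

open Classical in
/-- MODULE SEC (assume `hN : StNu`, `hFL : Pool.Agent.Helper18.TR.StFL`, `hM : Pool.Agent.Helper15.AB.StMT`).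
Apply `StFL` with `κ = 4`, `ε = 1`, `Q` the primes `11 ≤ l ≤ w`, `g = gg` (`gg l ≤ 4 / l ≤ 1 / 2`), the set
`Ioc 0 A ×ˢ Ioc B (2 B) ×ˢ Ioc B (2 B)`, `N = A B ^ 2`, `E l v = Bad l v`.
For `T ⊆ Q`, `d = ∏ T ≤ w ^ B₀`: the number of residue triples modulo `d` which are bad for all `l ∈ T` is `d ^ 3 ∏ gg l` (Chinese
remainder theorem), and each of them is hit by `A B ^ 2 / d ^ 3 + O((A B + B ^ 2) / d ^ 2 + (A + B) / d + 1)` elements of the box: the error is at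
most `C d A B ≤ C w ^ B₀ A B =: R` if `d ≤ B` (`B ≤ A`).  The total error `w ^ B₀ R ≤ C w ^ (2 B₀) A B` is at most
`A B ^ 2 / log w ^ 4` if `w ^ (2 B₀ + 4) ≤ B`: take `κ = 1 / (2 B₀ + 5)` or smaller, `C` large for small `w`.
Main term: `2 A B ^ 2 ∏ (1 - gg l) ≤ 2 A B ^ 2 exp (- ∑ gg l) ≤ C A B ^ 2 / log w ^ 4` by Mertens. -/
def StSec : Prop := ∃ κ C : ℝ, 0 < κ ∧ 0 < C ∧ ∀ A B w : ℕ, 2 ≤ w → (w : ℝ) ≤ (B : ℝ) ^ κ → B ≤ A →
  ((((Ioc 0 A) ×ˢ (Ioc B (2 * B)) ×ˢ (Ioc B (2 * B))).filter (fun v : ℕ × ℕ × ℕ =>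
    ∀ l ∈ Pw w, 11 ≤ l → ¬ Bad l v)).card : ℝ) ≤ C * (A * B ^ 2) / Real.log w ^ 4

/-- MODULE FIN (assume `hF : StFirst`, `hS : StSec`, `hBu : Pool.Agent.Helper60.GP.StBump`).
Let `θ < θ' < 1`, `β = θ' / (1 + θ') < 1 / 2`, `ω` a bump from `StBump` (`L = 1`), `δ ≤ δ₁` small with `δ ≤ κ β / 2`
(`κ` of `StSec`).  For `N` large let `x = (N / 8) ^ (1 + θ')`, so `x ^ β = (N / 8) ^ θ'`, `B = ⌊x ^ β⌋`, `w = ⌊x ^ δ⌋`,
`A = ⌊3 x / B⌋ ≤ 3 x / B ≤ N / 2 `.  (`x / B ≤ 2 (N / 8) `: `x / x ^ β = N / 8`; check: `3 x / B ≤ N / 2` for large `N`.)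
For `a ∈ Ioc 0 A` let `F(a)` be the number of `b ∈ Ioc B (2 B)` such that `n = a b + 1` is prime, `ω (log (n / x)) ≠ 0` and no
`l ∈ Pw w` divides `QQ a b`.  `S1 ≤ log (3 x) ∑_a F(a) + E`, where `E` comes from the proper prime powers: there are at most `C √x log x` of
them up to `3 x`, each with at most `B` values of `b`: `E ≤ C x ^ (1/2 + β) (log x) ^ 2 ≤ x / log x ^ 2`.
So `M := ∑ F ≥ c₁ x / log x ^ 2`.  `∑_a F(a) ^ 2` is at most the number of triples of `StSec` (a prime `a b + 1 > w` is not divisible by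
`l ≤ w`), so `∑ F ^ 2 ≤ C A B ^ 2 / log w ^ 4 ≤ C' x B / log x ^ 4`.  Let `G` be the set of `a` with `F(a) ≥ M / (2 A)`.
`∑_{a ∈ G} F ≥ M / 2`, so `|G| ≥ (M / 2) ^ 2 / ∑ F ^ 2 ≥ c₂ x / B ≥ c₃ N`, and for `a ∈ G` `F(a) ≥ M / (2 A) ≥ c₄ B / log x ^ 2
≥ (N) ^ θ`.  For `a ∈ G` and `b` counted by `F(a)`: `a b + 1 = n ≥ x`, `a ≥ (x - 1) / (2 B) > 2 B ≥ b`
(`x ≥ 8 B ^ 2`), so `y = b - 1` satisfies `0 < y < a + 1 = n₁`, `(n₁ - y) + n₁ y = a b + 1` is prime and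
`(n₁ - y) ^ 2 + n₁ y ^ 2 = QQ a b` has only prime factors `> w`, and is at most `2 N ^ 3`: the number of prime factors is at most
`log (2 N ^ 3) / log w ≤ R := ⌈4 / δ⌉` (`log w ≥ (δ / 2) log x`, or adjust `R`).  Different `b` give different `y`. -/
def StFin : Prop := ∀ θ : ℝ, 0 < θ → θ < 1 → ∃ c : ℝ, 0 < c ∧ ∃ R N₀ : ℕ, ∀ N : ℕ, N₀ ≤ N →
  c * N ≤ (((Icc 1 N).filter (fun n : ℕ => (n : ℝ) ^ θ ≤ ((prs R n).card : ℝ))).card : ℝ)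

/-- MODULE ALL (assume `hFL : Pool.Agent.Helper18.TR.StFL`, `hM : Pool.Agent.Helper15.AB.StMT`).
Let `f₁(y) = n + (n - 1) y`, `f₂(y) = (n - y) ^ 2 + n y ^ 2 = (n + 1) y ^ 2 - 2 n y + n ^ 2`.
(1) For each of `l = 2, 3, 5` there is `y` modulo `l` with `l ∤ f₁(y) f₂(y)` (finite check over `n` modulo `l`), so there is `y₀ < 30` with
`f₁ f₂` prime to `30` for `y ≡ y₀` modulo `30`.  (2) For a prime `l ≥ 7` the number `ρ(l)` of `y` modulo `l` with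
`l ∣ f₁(y) f₂(y)` is at most `3`: `f₁` is not identically zero modulo `l` (else `l ∣ n` and `l ∣ n - 1`), nor is `f₂` (else
`l ∣ n + 1`, `l ∣ 2 n`).  (3) `StFL` with `κ = 3`, `ε = 1 / 2`, `Q` the primes `7 ≤ l ≤ w`, `w = ⌊n ^ δ⌋`, `g l = ρ(l) / l`, the set of
`y ∈ Ioo 0 n` with `y ≡ y₀ (mod 30)`, `N = n / 30`, `R = 3 ^ {..} ≤ w ^ (2 B₀)` (number of residue classes, each with an error at most `2`).
For `δ` small the number of `y` with `f₁(y) f₂(y)` free of primes `≤ w` is at least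
`(1 / 2) (n / 30) ∏ (1 - 3 / l) - w ^ (3 B₀) > 0` for large `n` (`∏ (1 - 3 / l) ≥ c / log w ^ 3`, or simply `≥ 1 / w ^ 3`-type bounds:
`∏_{7 ≤ l ≤ w} (1 - 3 / l) ≥ ∏_{m = 7}^{w} (1 - 3 / m) ≥ c / w ^ 3` is enough with `δ` small).  As `f₁ ≤ n ^ 2`, `f₂ ≤ 2 n ^ 3` they have
at most `R₀` prime factors.  (4) For the finitely many small `n` take `y = 1` and enlarge `R`. -/
def StAll : Prop := ∃ R : ℕ, ∀ n : ℕ, 1 < n → ∃ x y : ℕ, 0 < x ∧ 0 < y ∧ x + y = n ∧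
  cardFactors (x + n * y) ≤ R ∧ cardFactors (x ^ 2 + n * y ^ 2) ≤ R

end Pool.Agent.Helper9.SU
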